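import Pool.Agent.H14.P4.Thin

/-!
# P5: the cells with the slopes 0, 1, 2, definitions

All base slopes `lam = 1`, `gam l ∈ {0, 1, 2}`, `gam n = 2`. Base place `(i, j)`, context
`bb = (c i j, c (i - 1) (j - r))`, closed frame `P (bb)`, natural units of `(i, j)` as in P4.
The slow coordinates: `sl0` (`gam l = 0`) are constant on the line, `sl1` (`gam l = 1`) are affine,
the group (`gam l = 2`) is quadratic.

`y` is the margin, `r = 2 y`, `r2 = y`, `r' = 3 y`, `r'' = 9 y`. The places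
`L2 = (i + r2, j - r)`, `L = (i + r', j - r)`, `L'' = (i + r'', j - r)` (line side),
`R2 = (i - r2, j + r)`, `R = (i - r', j + r)`, `R'' = (i - r'', j + r)` (visible side).
-/

set_option autoImplicit false

namespace Pool.P5

open Finset Real MvPolynomial
open Pool.Agent.H49.Ent Pool.Agent.H32.Dense Pool.STK Pool.STAT Pool.MIC.Frm Pool.MIC7 Pool.FRM
open Pool.GSD
open Pool.BFL (Pb)
open Pool.P4 (t0 rt pp PthC FraC bb ze zt z0 be cl1 dg dgp Ry cb LLC tq)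

/-! ### Slow coordinates and steps -/

/-- Slow coordinates. The others, with the target, are the group. -/
def sl (gam : ℕ → ℝ) (n l : ℕ) : Prop := 1 ≤ l ∧ l < n ∧ gam l < gam n

/-- The group. -/
def gr (gam : ℕ → ℝ) (n l : ℕ) : Prop := 1 ≤ l ∧ l ≤ n ∧ gam n ≤ gam l

/-- Slow coordinates which are constant on the line. -/
def sl0 (gam : ℕ → ℝ) (n l : ℕ) : Prop := 1 ≤ l ∧ l < n ∧ gam l = 0

/-- Slow coordinates which are affine on the line. -/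
def sl1 (gam : ℕ → ℝ) (n l : ℕ) : Prop := 1 ≤ l ∧ l < n ∧ gam l = 1

/-- The slopes are `0`, `1`, `2`, the slope of the target is `2`. -/
structure Gam3 (n : ℕ) (gam : ℕ → ℝ) : Prop where
  g : ∀ l, 1 ≤ l → l ≤ n → gam l = 0 ∨ gam l = 1 ∨ gam l = 2
  gn : gam n = 2

/-- The steps: `y` is the margin. -/
structure Stp (n : ℕ) (gam : ℕ → ℝ) (y r r2 r' r'' a : ℕ) : Prop where
  g3 : Gam3 n gam
  er : r = 2 * y
  er2 : r2 = y
  er' : r' = 3 * y
  er'' : r'' = 9 * y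
  ya : y ≤ a

theorem sl_iff {n : ℕ} {gam : ℕ → ℝ} (h : Gam3 n gam) (l : ℕ) :
    sl gam n l ↔ sl0 gam n l ∨ sl1 gam n l := by
  unfold sl sl0 sl1
  rw [h.gn]
  constructor
  · rintro ⟨h1, h2, h3⟩
    rcases h.g l h1 h2.le with h4 | h4 | h4
    · exact Or.inl ⟨h1, h2, h4⟩
    · exact Or.inr ⟨h1, h2, h4⟩
    · rw [h4] at h3
      exact absurd h3 (lt_irrefl _)
  · rintro (⟨h1, h2, h3⟩ | ⟨h1, h2, h3⟩)
    · exact ⟨h1, h2, by rw [h3]; norm_num⟩
    · exact ⟨h1, h2, by rw [h3]; norm_num⟩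

theorem gr_iff {n : ℕ} {gam : ℕ → ℝ} (h : Gam3 n gam) (l : ℕ) :
    gr gam n l ↔ 1 ≤ l ∧ l ≤ n ∧ gam l = 2 := by
  unfold gr
  rw [h.gn]
  constructor
  · rintro ⟨h1, h2, h3⟩
    rcases h.g l h1 h2 with h4 | h4 | h4
    · rw [h4] at h3
      norm_num at h3
    · rw [h4] at h3
      norm_num at h3
    · exact ⟨h1, h2, h4⟩
  · rintro ⟨h1, h2, h3⟩
    exact ⟨h1, h2, h3.ge⟩

theorem sl0_sl {n : ℕ} {gam : ℕ → ℝ} (h : Gam3 n gam) {l : ℕ} (hl : sl0 gam n l) :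
    sl gam n l := (sl_iff h l).2 (Or.inl hl)

theorem sl1_sl {n : ℕ} {gam : ℕ → ℝ} (h : Gam3 n gam) {l : ℕ} (hl : sl1 gam n l) :
    sl gam n l := (sl_iff h l).2 (Or.inr hl)

theorem sl0_sl1 {n : ℕ} {gam : ℕ → ℝ} {l : ℕ} (h : sl0 gam n l) (h1 : sl1 gam n l) : False := by
  have := h.2.2.symm.trans h1.2.2
  norm_num at this

namespace Stp

variable {n : ℕ} {gam : ℕ → ℝ} {y r r2 r' r'' a : ℕ}

theorem s1 (h : Stp n gam y r r2 r' r'' a) {l : ℕ} (hl : sl gam n l) :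
    gam l * r + y ≤ r' := by
  have hy : (0 : ℝ) ≤ y := Nat.cast_nonneg y
  rw [h.er, h.er']
  push_cast
  rcases (sl_iff h.g3 l).1 hl with h1 | h1
  · rw [h1.2.2]
    nlinarith
  · rw [h1.2.2]
    nlinarith

theorem s2 (h : Stp n gam y r r2 r' r'' a) {l : ℕ} (hl : gr gam n l) :
    (r' : ℝ) + y ≤ gam l * r := by
  rw [h.er, h.er', ((gr_iff h.g3 l).1 hl).2.2]
  push_cast
  linarith

theorem s3 (h : Stp n gam y r r2 r' r'' a) {l : ℕ} (hl : gr gam n l) :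
    (gam l - 1) * r + y ≤ r' := by
  rw [h.er, h.er', ((gr_iff h.g3 l).1 hl).2.2]
  push_cast
  linarith

theorem s4 (h : Stp n gam y r r2 r' r'' a) {l : ℕ} (h1 : 1 ≤ l) (h2 : l ≤ n) :
    2 * gam l * r + y ≤ r'' := by
  have hy : (0 : ℝ) ≤ y := Nat.cast_nonneg y
  rw [h.er, h.er'']
  push_cast
  rcases h.g3.g l h1 h2 with h3 | h3 | h3 <;> rw [h3] <;> nlinarith

theorem s5 (h : Stp n gam y r r2 r' r'' a) : r' ≤ r'' := by
  have := h.er'
  have := h.er''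
  omega

/-- The constant slow coordinates at `L2`. -/
theorem t0 (h : Stp n gam y r r2 r' r'' a) {l : ℕ} (hl : sl0 gam n l) :
    gam l * r + y ≤ r2 := by
  rw [h.er2, hl.2.2]
  linarith

/-- The affine slow coordinates at `R2`. -/
theorem t1 (h : Stp n gam y r r2 r' r'' a) {l : ℕ} (hl : sl1 gam n l) :
    (r2 : ℝ) + y ≤ gam l * r := by
  rw [h.er2, h.er, hl.2.2]
  push_cast
  linarith

/-- The velocities of the affine coordinates at `L2`. -/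
theorem t2 (h : Stp n gam y r r2 r' r'' a) {l : ℕ} (hl : sl1 gam n l) :
    (gam l - 1) * r + y ≤ r2 := by
  rw [h.er2, h.er, hl.2.2]
  push_cast
  linarith

/-- The second velocities of the group at `L2`. -/
theorem t3 (h : Stp n gam y r r2 r' r'' a) {l : ℕ} (hl : gr gam n l) :
    (gam l - 2) * r + y ≤ r2 := by
  rw [h.er2, h.er, ((gr_iff h.g3 l).1 hl).2.2]
  push_cast
  linarith

/-- The velocities of the group at `R2`. -/
theorem t4 (h : Stp n gam y r r2 r' r'' a) {l : ℕ} (hl : gr gam n l) :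
    (r2 : ℝ) + y ≤ (gam l - 1) * r := by
  rw [h.er2, h.er, ((gr_iff h.g3 l).1 hl).2.2]
  push_cast
  linarith

end Stp

/-! ### The line and the own slopes -/

section

variable (D : NDat2) (J w i j r : ℕ) (P : D.Γ × D.Γ → ℕ → PN)

/-- The second velocities, over the window of length `2 ^ (-w)`. -/
noncomputable def b2 (ω : D.Ω) (l : ℕ) : ℝ :=
  2 * (zt D i j r P (t0 D J w ω + 1 / 2 ^ w) ω l -
    2 * zt D i j r P (t0 D J w ω + 1 / 2 * (1 / 2 ^ w)) ω l + z0 D J w i j r P ω l)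

/-- The velocities at the left end, over the window of length `2 ^ (-w)`. -/
noncomputable def b1 (ω : D.Ω) (l : ℕ) : ℝ :=
  be D J w i j r P ω l - b2 D J w i j r P ω l

end

/-- The slopes: `S` the own slopes over the slow coordinates, `El` the slopes of the closed leaf
(affine over constant coordinates), `Ev` the velocities of the slopes of the closed leaf (group over
constant coordinates, natural units, per absolute time). -/
structure Slo (D : NDat2) : Type where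
  S : D.Ω → ℕ → ℕ → ℝ
  El : D.Ω → ℕ → ℕ → ℝ
  Ev : D.Ω → ℕ → ℕ → ℝ

open Classical in
/-- The height over the own sheet with the slopes `S` over the slow coordinates. -/
noncomputable def nn (D : NDat2) (n i j r : ℕ) (gam : ℕ → ℝ) (P : D.Γ × D.Γ → ℕ → PN)
    (S : D.Ω → ℕ → ℕ → ℝ) (ω : D.Ω) (u : ℕ) : ℝ :=
  ze D i j r P ω u - ∑ k ∈ (range n).filter (sl gam n), S ω u k * ze D i j r P ω k

open Classical in
/-- The height of an affine slow coordinate over the closed leaf. -/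
noncomputable def la (D : NDat2) (n i j r : ℕ) (gam : ℕ → ℝ) (P : D.Γ × D.Γ → ℕ → PN)
    (El : D.Ω → ℕ → ℕ → ℝ) (ω : D.Ω) (l : ℕ) : ℝ :=
  ze D i j r P ω l - ∑ k ∈ (range n).filter (sl0 gam n), El ω l k * ze D i j r P ω k

open Classical in
/-- The velocity of a coordinate of the group over the closed leaf, window of length `2 ^ (-w)`. -/
noncomputable def wl (D : NDat2) (n J w i j r : ℕ) (gam : ℕ → ℝ) (P : D.Γ × D.Γ → ℕ → PN)
    (S Ev : D.Ω → ℕ → ℕ → ℝ) (ω : D.Ω) (u : ℕ) : ℝ :=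
  b1 D J w i j r P ω u + 2 * rt D J w ω * b2 D J w i j r P ω u -
    ∑ k ∈ (range n).filter (sl0 gam n), Ev ω u k / 2 ^ w * ze D i j r P ω k -
    ∑ l ∈ (range n).filter (sl1 gam n), S ω u l * b1 D J w i j r P ω l

open Classical in
/-- **The geometry of a cell** in a context `bb`, on the event `E`. All the windows of length
`2 ^ (-w)`, `w₀ + j z ≤ w ≤ w₀ + (j + 1) z`. -/
structure Geo (D : NDat2) (n K' J w₀ z i j r r2 r' r'' : ℕ) (gam : ℕ → ℝ) (C τ : ℝ)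
    (q : D.Ω → ℝ) (E : D.Ω → Prop) (P : D.Γ × D.Γ → ℕ → PN) (S : Slo D) : Prop where
  -- the frame
  tri : ∀ v, TriN (P v)
  deg : ∀ v l, (P v l).totalDegree ≤ K'
  near : ∀ ω, 0 < q ω → E ω → ∀ i' ≤ i, ∀ l ≤ n,
    nrm (D.g i' j) (1 / 2) (chr (P (bb D i j r ω)) (D.Φ i' j ω l - P (bb D i j r ω) l)) ≤
      exp (C * z) / 2 ^ D.g i' j l ∧
    nrm (D.g (i' - 1) (j - r)) (1 / 2)
      (chr (P (bb D i j r ω)) (D.Φ (i' - 1) (j - r) ω l - P (bb D i j r ω) l)) ≤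
      exp (C * z) / 2 ^ D.g (i' - 1) (j - r) l
  -- bounds
  bz : ∀ ω, 0 < q ω → E ω → ∀ l, 1 ≤ l → l ≤ n → |ze D i j r P ω l| ≤ exp (C * z)
  bt : ∀ ω, 0 < q ω → E ω → ∀ l, 1 ≤ l → l ≤ n → ∀ w, w₀ + j * z ≤ w → w ≤ w₀ + (j + 1) * z →
    |z0 D J w i j r P ω l| ≤ exp (C * z) ∧ |b1 D J w i j r P ω l| ≤ exp (C * z) ∧
      |b2 D J w i j r P ω l| ≤ exp (C * z)
  bS : ∀ ω u k, |S.S ω u k| ≤ exp (C * z)
  bEl : ∀ ω u k, |S.El ω u k| ≤ exp (C * z)
  bEv : ∀ ω u k w, w₀ + j * z ≤ w → |S.Ev ω u k / 2 ^ w| ≤ exp (C * z)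
  tS : ∀ ω, 0 < q ω → E ω → ∀ u k, u ≤ k → S.S ω u k = 0
  tE : ∀ ω, 0 < q ω → E ω → ∀ u k, u ≤ k → S.El ω u k = 0 ∧ S.Ev ω u k = 0
  -- the line
  slow0 : ∀ ω, 0 < q ω → E ω → ∀ l, sl0 gam n l → ∀ w, w₀ + j * z ≤ w → w ≤ w₀ + (j + 1) * z →
    |ze D i j r P ω l - z0 D J w i j r P ω l| ≤ τ ∧ |b1 D J w i j r P ω l| ≤ τ ∧
      |b2 D J w i j r P ω l| ≤ τ
  slow1 : ∀ ω, 0 < q ω → E ω → ∀ l, sl1 gam n l → ∀ w, w₀ + j * z ≤ w → w ≤ w₀ + (j + 1) * z →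
    |ze D i j r P ω l - (z0 D J w i j r P ω l + rt D J w ω * b1 D J w i j r P ω l)| ≤ τ ∧
      |b2 D J w i j r P ω l| ≤ τ
  grp : ∀ ω, 0 < q ω → E ω → ∀ l, gr gam n l → ∀ w, w₀ + j * z ≤ w → w ≤ w₀ + (j + 1) * z →
    |ze D i j r P ω l - (z0 D J w i j r P ω l + rt D J w ω * b1 D J w i j r P ω l +
      rt D J w ω ^ 2 * b2 D J w i j r P ω l)| ≤ τ
  -- the context at `L`: the slow coordinates, the velocities
  left : ∀ ω ω', 0 < q ω → 0 < q ω' → E ω → E ω' → bb D i j r ω = bb D i j r ω' →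
    D.c (i + r') (j - r) ω = D.c (i + r') (j - r) ω' → ∀ w, w₀ + j * z ≤ w →
    w ≤ w₀ + (j + 1) * z → D.T ω / 2 ^ (J - w) = D.T ω' / 2 ^ (J - w) →
    (∀ l, sl gam n l → |z0 D J w i j r P ω l - z0 D J w i j r P ω' l| ≤ τ ∧
      |b1 D J w i j r P ω l - b1 D J w i j r P ω' l| ≤ τ) ∧
    ∀ l, gr gam n l → |b1 D J w i j r P ω l - b1 D J w i j r P ω' l| ≤ τ ∧
      |b2 D J w i j r P ω l - b2 D J w i j r P ω' l| ≤ τ
  -- the context at `L2`: the constant coordinates, the velocities of the affine coordinates, the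
  -- second velocities of the group
  left2 : ∀ ω ω', 0 < q ω → 0 < q ω' → E ω → E ω' → bb D i j r ω = bb D i j r ω' →
    D.c (i + r2) (j - r) ω = D.c (i + r2) (j - r) ω' → ∀ w, w₀ + j * z ≤ w →
    w ≤ w₀ + (j + 1) * z → D.T ω / 2 ^ (J - w) = D.T ω' / 2 ^ (J - w) →
    (∀ l, sl0 gam n l → |z0 D J w i j r P ω l - z0 D J w i j r P ω' l| ≤ τ) ∧
    (∀ l, sl1 gam n l → |b1 D J w i j r P ω l - b1 D J w i j r P ω' l| ≤ τ) ∧
    ∀ l, gr gam n l → |b2 D J w i j r P ω l - b2 D J w i j r P ω' l| ≤ τ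
  -- the context at `L''`: the line
  left3 : ∀ ω ω', 0 < q ω → 0 < q ω' → E ω → E ω' → bb D i j r ω = bb D i j r ω' →
    D.c (i + r'') (j - r) ω = D.c (i + r'') (j - r) ω' → ∀ w, w₀ + j * z ≤ w →
    w ≤ w₀ + (j + 1) * z → D.T ω / 2 ^ (J - w) = D.T ω' / 2 ^ (J - w) →
    ∀ l, 1 ≤ l → l ≤ n → |z0 D J w i j r P ω l - z0 D J w i j r P ω' l| ≤ τ ∧
      |b1 D J w i j r P ω l - b1 D J w i j r P ω' l| ≤ τ ∧
      |b2 D J w i j r P ω l - b2 D J w i j r P ω' l| ≤ τ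
  -- the label at `R`: the own sheet
  right : ∀ ω ω', 0 < q ω → 0 < q ω' → E ω → E ω' → bb D i j r ω = bb D i j r ω' →
    D.T ω = D.T ω' → D.s (i - r') (j + r) ω = D.s (i - r') (j + r) ω' →
    ∀ u, gr gam n u → |nn D n i j r gam P S.S ω u - nn D n i j r gam P S.S ω' u| ≤ τ ∧
      ∀ k, sl gam n k → |S.S ω u k - S.S ω' u k| ≤ τ
  -- the label at `R''`: the own slopes, the slopes of the leaf
  right2 : ∀ ω ω', 0 < q ω → 0 < q ω' → E ω → E ω' → bb D i j r ω = bb D i j r ω' →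
    D.T ω = D.T ω' → D.s (i - r'') (j + r) ω = D.s (i - r'') (j + r) ω' →
    (∀ u, gr gam n u → ∀ k, sl gam n k → |S.S ω u k - S.S ω' u k| ≤ τ) ∧
    ∀ l, sl1 gam n l → ∀ k, sl0 gam n k → |S.El ω l k - S.El ω' l k| ≤ τ
  -- the context at `R''`: the velocities of the slopes of the leaf
  right3 : ∀ ω ω', 0 < q ω → 0 < q ω' → E ω → E ω' → bb D i j r ω = bb D i j r ω' →
    D.T ω = D.T ω' → D.c (i - r'') (j + r) ω = D.c (i - r'') (j + r) ω' →
    ∀ u, gr gam n u → ∀ k, sl0 gam n k → ∀ w, w₀ + j * z ≤ w → w ≤ w₀ + (j + 1) * z →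
      |S.Ev ω u k / 2 ^ w - S.Ev ω' u k / 2 ^ w| ≤ τ
  -- the context at `R2`: the closed leaf
  leaf : ∀ ω ω', 0 < q ω → 0 < q ω' → E ω → E ω' → bb D i j r ω = bb D i j r ω' →
    D.T ω = D.T ω' → D.c (i - r2) (j + r) ω = D.c (i - r2) (j + r) ω' →
    (∀ l, sl1 gam n l → |la D n i j r gam P S.El ω l - la D n i j r gam P S.El ω' l| ≤ τ) ∧
    ∀ u, gr gam n u → ∀ w, w₀ + j * z ≤ w → w ≤ w₀ + (j + 1) * z →
      |wl D n J w i j r gam P S.S S.Ev ω u - wl D n J w i j r gam P S.S S.Ev ω' u| ≤ τ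
  -- the own sheet at `R` is affine over the slow coordinates
  sheet : ∀ ω, 0 < q ω → E ω → ∀ Bx : ℝ, 1 ≤ Bx → ∀ b : ℕ → ℝ, b 0 = D.X ω 0 →
    (∀ k, sl gam n k → |nat (D.g i j) (P (bb D i j r ω)) b k| ≤ exp (Bx * z)) →
    (∀ u, gr gam n u → b u = eval b (D.Ψ (i - r') (j + r) ω u)) →
    ∀ u, gr gam n u → |nat (D.g i j) (P (bb D i j r ω)) b u - (nn D n i j r gam P S.S ω u +
      ∑ k ∈ (range n).filter (sl gam n), S.S ω u k * nat (D.g i j) (P (bb D i j r ω)) b k)| ≤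
      exp (C * Bx * z) * τ
  -- the coordinates over the frame and over the visible labels at `(i, j)`
  toV : ∀ ω ω', 0 < q ω → 0 < q ω' → E ω → E ω' → bb D i j r ω = bb D i j r ω' →
    D.T ω = D.T ω' → ∀ l, 1 ≤ l → l ≤ n → ∀ δ : ℝ, 0 ≤ δ →
    (∀ k, 1 ≤ k → k ≤ l → |ze D i j r P ω k - ze D i j r P ω' k| ≤ δ) →
    |2 ^ D.g i j l * D.sh i j ω l - 2 ^ D.g i j l * D.sh i j ω' l| ≤ exp (C * z) * δ
  ofV : ∀ ω ω', 0 < q ω → 0 < q ω' → E ω → E ω' → bb D i j r ω = bb D i j r ω' →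
    D.T ω = D.T ω' → ∀ l, 1 ≤ l → l ≤ n → ∀ δ : ℝ, 0 ≤ δ →
    (∀ k, 1 ≤ k → k ≤ l →
      |2 ^ D.g i j k * D.sh i j ω k - 2 ^ D.g i j k * D.sh i j ω' k| ≤ δ) →
    |ze D i j r P ω l - ze D i j r P ω' l| ≤ exp (C * z) * δ

/-- **Deeper contexts** `(i', j)`, `i ≤ i' < M`, in the units of `(i, j)`: they know the line to the
depth `i' - i`, and the coordinates over the frame and over their visible labels are equivalent. -/
structure Dep (D : NDat2) (n J w₀ z M i j r : ℕ) (C : ℝ) (q : D.Ω → ℝ) (E : D.Ω → Prop)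
    (P : D.Γ × D.Γ → ℕ → PN) : Prop where
  ctx : ∀ i', i ≤ i' → i' < M → ∀ ω ω', 0 < q ω → 0 < q ω' → E ω → E ω' →
    bb D i j r ω = bb D i j r ω' → D.c i' j ω = D.c i' j ω' → ∀ w, w₀ + j * z ≤ w →
    w ≤ w₀ + (j + 1) * z → D.T ω / 2 ^ (J - w) = D.T ω' / 2 ^ (J - w) → ∀ l, 1 ≤ l → l ≤ n →
    |z0 D J w i j r P ω l - z0 D J w i j r P ω' l| ≤ exp (C * z) / 2 ^ ((i' - i) * z) ∧
    |b1 D J w i j r P ω l - b1 D J w i j r P ω' l| ≤ exp (C * z) / 2 ^ ((i' - i) * z) ∧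
    |b2 D J w i j r P ω l - b2 D J w i j r P ω' l| ≤ exp (C * z) / 2 ^ ((i' - i) * z)
  toV : ∀ i', i ≤ i' → i' < M → ∀ ω ω', 0 < q ω → 0 < q ω' → E ω → E ω' →
    bb D i j r ω = bb D i j r ω' → D.c i' j ω = D.c i' j ω' → D.T ω = D.T ω' → ∀ l, 1 ≤ l →
    l ≤ n → ∀ δ : ℝ, 0 ≤ δ →
    (∀ k, 1 ≤ k → k ≤ l → |ze D i j r P ω k - ze D i j r P ω' k| ≤ δ) →
    |2 ^ D.g i j l * D.sh i' j ω l - 2 ^ D.g i j l * D.sh i' j ω' l| ≤ exp (C * z) * δ
  ofV : ∀ i', i ≤ i' → i' < M → ∀ ω ω', 0 < q ω → 0 < q ω' → E ω → E ω' →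
    bb D i j r ω = bb D i j r ω' → D.c i' j ω = D.c i' j ω' → D.T ω = D.T ω' → ∀ l, 1 ≤ l →
    l ≤ n → ∀ δ : ℝ, 0 ≤ δ →
    (∀ k, 1 ≤ k → k ≤ l →
      |2 ^ D.g i j k * D.sh i' j ω k - 2 ^ D.g i j k * D.sh i' j ω' k| ≤ δ) →
    |ze D i j r P ω l - ze D i j r P ω' l| ≤ exp (C * z) * δ

/-! ### The digits -/

/-- The unit of the group. -/
noncomputable def Rg (z : ℕ) (C : ℝ) : ℝ := 2 * exp (3 * C * z)

/-- The data of the line: context, slow coordinates, velocities of the affine coordinates,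
velocities and second velocities of the group. -/
abbrev VT (G : Type) (c k0 k1 : ℕ) : Type :=
  ((G × G) × ℕ) × ((Fin (k0 + k1) → ℤ) × ((Fin k1 → ℤ) × ((Fin c → ℤ) × (Fin c → ℤ))))

/-- The abstract time: context, time, own slopes, slopes of the leaf, velocities of the slopes of
the leaf. -/
abbrev TT (G : Type) (c k0 k1 : ℕ) : Type :=
  ((G × G) × ℕ) × (ℕ × ((Fin c → Fin (k0 + k1) → ℤ) ×
    ((Fin k1 → Fin k0 → ℤ) × (Fin c → Fin k0 → ℤ))))

section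

variable {c k0 k1 : ℕ} (D : NDat2) (J w z i j r X : ℕ) (C : ℝ) (P : D.Γ × D.Γ → ℕ → PN)
  (S : Slo D) (ys : Fin (k0 + k1) → ℕ) (gs : Fin c → ℕ)

/-- The heights of the group at the left end of the window. -/
noncomputable def nuv (ω : D.Ω) (u : Fin c) : ℤ := dg X (z0 D J w i j r P ω (gs u) / Rg z C)

/-- The slow coordinates at the left end of the window. -/
noncomputable def yv (ω : D.Ω) (a : Fin (k0 + k1)) : ℤ :=
  dgp X ((z0 D J w i j r P ω (ys a) + Ry z C) / (2 * Ry z C))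

/-- The velocities of the affine slow coordinates. -/
noncomputable def mv (ω : D.Ω) (l : Fin k1) : ℤ :=
  dg X (b1 D J w i j r P ω (ys (Fin.natAdd k0 l)) / (2 * Ry z C))

/-- The velocities of the group. -/
noncomputable def bev (ω : D.Ω) (u : Fin c) : ℤ := dg X (b1 D J w i j r P ω (gs u) / Rg z C)

/-- The second velocities of the group. -/
noncomputable def be2v (ω : D.Ω) (u : Fin c) : ℤ := dg X (b2 D J w i j r P ω (gs u) / Rg z C)

/-- The own slopes. -/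
noncomputable def Sv (ω : D.Ω) (u : Fin c) (a : Fin (k0 + k1)) : ℤ :=
  dg X (S.S ω (gs u) (ys a) * (2 * Ry z C) / Rg z C)

/-- The slopes of the leaf, affine over constant coordinates. -/
noncomputable def Elv (ω : D.Ω) (l : Fin k1) (a : Fin k0) : ℤ :=
  ⌊2 ^ X * S.El ω (ys (Fin.natAdd k0 l)) (ys (Fin.castAdd k1 a))⌋

/-- The velocities of the slopes of the leaf, group over constant coordinates. -/
noncomputable def Evv (ω : D.Ω) (u : Fin c) (a : Fin k0) : ℤ :=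
  dg X (S.Ev ω (gs u) (ys (Fin.castAdd k1 a)) / 2 ^ w * (2 * Ry z C) / Rg z C)

/-- The data of the line. -/
noncomputable def vv (ω : D.Ω) : VT D.Γ c k0 k1 :=
  (cb D J w i j r ω, (yv D J w z i j r X C P ys ω, (mv D J w z i j r X C P ys ω,
    (bev D J w z i j r X C P gs ω, be2v D J w z i j r X C P gs ω))))

/-- The abstract time. -/
noncomputable def tv (ω : D.Ω) : TT D.Γ c k0 k1 :=
  (cb D J w i j r ω, (D.T ω, (Sv D z X C S ys gs ω, (Elv D X S ys ω, Evv D w z X C S ys gs ω))))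

end

section

variable {G : Type} {c k0 k1 : ℕ} (J w X : ℕ)

/-- The height of the group over the own sheet at the abstract time `t`, without the height at the
left end, in units `2 ^ (-X)`. -/
noncomputable def hR (t : TT G c k0 k1) (v : VT G c k0 k1) (u : Fin c) : ℝ :=
  (tq J w X t.2.1 : ℝ) * ((v.2.2.2.1 u : ℝ) / 2 ^ X) +
    (tq J w X t.2.1 : ℝ) ^ 2 / 2 ^ X * ((v.2.2.2.2 u : ℝ) / 2 ^ X) -
    ∑ a, (t.2.2.1 u a : ℝ) / 2 ^ X * v.2.1 a -
    ∑ l, (t.2.2.1 u (Fin.natAdd k0 l) : ℝ) / 2 ^ X *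
      ((tq J w X t.2.1 : ℝ) * ((v.2.2.1 l : ℝ) / 2 ^ X)) +
    ∑ a, (t.2.2.1 u a : ℝ) / 2

/-- The height of an affine slow coordinate over the leaf at the abstract time `t`, in units
`2 ^ (-X)`. -/
noncomputable def laR (t : TT G c k0 k1) (v : VT G c k0 k1) (l : Fin k1) : ℝ :=
  (v.2.1 (Fin.natAdd k0 l) : ℝ) + (tq J w X t.2.1 : ℝ) * ((v.2.2.1 l : ℝ) / 2 ^ X) -
    ∑ a, (t.2.2.2.1 l a : ℝ) / 2 ^ X * v.2.1 (Fin.castAdd k1 a)

/-- The velocity of the group over the leaf at the abstract time `t`, in units `2 ^ (-X)`. -/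
noncomputable def wR (t : TT G c k0 k1) (v : VT G c k0 k1) (u : Fin c) : ℝ :=
  (v.2.2.2.1 u : ℝ) + 2 * (tq J w X t.2.1 : ℝ) * ((v.2.2.2.2 u : ℝ) / 2 ^ X) -
    ∑ a, (t.2.2.2.2 u a : ℝ) / 2 ^ X * v.2.1 (Fin.castAdd k1 a) -
    ∑ l, (t.2.2.1 u (Fin.natAdd k0 l) : ℝ) / 2 ^ X * v.2.2.1 l

/-- The closed leaf of the line `v` at the abstract time `t`. -/
noncomputable def fR (t : TT G c k0 k1) (v : VT G c k0 k1) : (Fin k1 → ℤ) × (Fin c → ℤ) :=
  (fun l => ⌊laR J w X t v l⌋, fun u => ⌊wR J w X t v u⌋)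

end

section

variable {c k0 k1 : ℕ} (D : NDat2) (J w z i j r X : ℕ) (C : ℝ) (P : D.Γ × D.Γ → ℕ → PN)
  (S : Slo D) (ys : Fin (k0 + k1) → ℕ) (gs : Fin c → ℕ)

/-- **The picture.** -/
noncomputable def qh (q : D.Ω → ℝ) : Pool.QT64.QH c (k0 + k1) where
  Ω := D.Ω
  iΩ := D.fin
  B := (D.Γ × D.Γ) × ℕ
  Vt := VT D.Γ c k0 k1
  Tt := TT D.Γ c k0 k1
  p := q
  b := cb D J w i j r
  nu := nuv D J w z i j r X C P gs
  v := vv D J w z i j r X C P ys gs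
  th := tv D J w z i j r X C S ys gs
  tau := fun t => (tq J w X t.2.1 : ℤ)
  E := fun t a u => (t.2.2.1 u a : ℝ) / 2 ^ X
  y := fun v => v.2.1
  be := fun v u => (v.2.2.2.1 u : ℝ) / 2 ^ X
  g := fun t v u => ⌊hR J w X t v u⌋
  a0 := fun t u => ∑ a, (t.2.2.1 u a : ℝ) / 2
  b0 := fun _ _ => 0

end

end Pool.P5
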