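import Pool.Agent.H14.P5.One
import Pool.Agent.H78.MIC.MicI

/-!
# P5 as a local theorem

`Q5 R n`: the weights are `1`, the slopes are `0`, `1`, `2`, the slope of the target is `2`, the
coordinates outside `R` have slope `1`. This condition is closed. `micX_5`: the local theorem by
`P5Stmt1`.
-/

set_option autoImplicit false

namespace Pool.STAT

open Finset MvPolynomial
open Pool.Agent.H49.Ent Pool.Agent.H32.Dense Pool.STK Pool.KS3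
open Pool.BFL (Pb)
open Pool.P4 (GnL NBT NewLabT NFc1)
open Pool.P5 (P5Stmt1 Gam3)

/-- **The slopes of the cells of P5**, `R` are the rough coordinates. -/
def Q5 (R : ℕ → Prop) (n : ℕ) : CondN := fun lam gam =>
  (∀ l, 1 ≤ l → l ≤ n → lam l = 1) ∧
    (∀ l, 1 ≤ l → l ≤ n → gam l = 0 ∨ gam l = 1 ∨ gam l = 2) ∧
    gam n = 2 ∧ ∀ l, 1 ≤ l → l < n → ¬ R l → gam l = 1

theorem q5_cl (R : ℕ → Prop) {n : ℕ} (hn : 1 ≤ n) : (Q5 R n).Cl n :=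
  (CondN.Cl.all fun _ => CondN.Cl.imp fun h1 => CondN.Cl.imp fun h2 =>
    CondN.Cl.lam_eq h1 h2 1).and ((CondN.Cl.all fun _ => CondN.Cl.imp fun h1 =>
    CondN.Cl.imp fun h2 => (CondN.Cl.gam_eq h1 h2 0).or ((CondN.Cl.gam_eq h1 h2 1).or
      (CondN.Cl.gam_eq h1 h2 2))).and
    ((CondN.Cl.gam_eq hn le_rfl 2).and (CondN.Cl.all fun _ => CondN.Cl.imp fun h1 =>
    CondN.Cl.imp fun h2 => CondN.Cl.imp fun _ => CondN.Cl.gam_eq h1 (le_of_lt h2) 1)))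

/-- **The local theorem for the slopes `0, 1, 2` and the slope `2` of the target**: `δ` depends on
`n`, `B` and a lower bound of the deficit. -/
theorem micX_5 (hP : P5Stmt1) {n B₀ : ℕ} (hn : 1 ≤ n) (hB₀ : 1 ≤ B₀) {h₀ : ℝ}
    (hh₀ : 0 < h₀) : ∃ δ : ℝ, 0 < δ ∧ ∀ (K A : ℕ) (R : ℕ → Prop) (h : ℝ), h₀ ≤ h → h ≤ 1 →
      MicX (XP4 K A R (h + δ)) (Q5 R n) (fun B => B = B₀) n K h := by
  obtain ⟨δ, hδ, H⟩ := hP n B₀ h₀ hn hB₀ hh₀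
  refine ⟨δ, hδ, fun K A R h hh hh1 B lam gam C₁ hB hBB hlam hgam hgn hC₁ hQ => ?_⟩
  subst hBB
  have g3 : Gam3 n gam := ⟨hQ.2.1, hQ.2.2.1⟩
  have hR : ∀ l, 1 ≤ l → l < n → gam l ≠ 1 → R l := fun l h1 h2 h3 => by
    by_contra h4
    exact h3 (hQ.2.2.2 l h1 h2 h4)
  obtain ⟨M, Q, K', η', κ, ϖ, z₀, a1, a2, a3, a4, H⟩ := H K A gam R C₁ h hh hh1 g3
    (fun l hl hln => hR l hl.1 hln (by
      rw [((Pool.P5.gr_iff g3 l).1 hl).2.2]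
      norm_num))
    (fun l hl => hR l hl.1 hl.2.1 (by
      rw [hl.2.2]
      norm_num)) hC₁
  refine ⟨M, Q, K', η', κ, ϖ, z₀, a1, a2, a3, fun J a₀ w₀ z D q hz hO hN hX => ?_⟩
  obtain ⟨x1, x2, U, x3, x4⟩ := hX
  obtain ⟨l, l1, l2, l3, i, hi, j, hj, h3⟩ := H lam J a₀ w₀ z D q U hQ.1 hz hO hN x2 x1 x3
  exact x4 l l1 l2 (l3.imp id fun h => h.1) i hi j hj h3

end Pool.STAT
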