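import Pool.Agent.H78.MIC.ClsF
import Pool.Agent.H12.P5.Mic

/-!
# No boxes with the slopes of P5, if all coordinates are rough

`Sl5`: the slope of the target is `3`, the slopes of the coordinates are at most `1`, or `2`, or `3`,
the coordinates outside `R` have slope `2`. `kp5T`: the windows with these slopes, `kp5`: all
coordinates are rough. `cls_5`, `nok_5`: there are no boxes of this kind, by `P5Stmt1`.
`kp5T_at`, `kp5_at`: windows of these kinds. `has5`: exactness and the closed lower bound on the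
boxes of the kind.
-/

set_option autoImplicit false

namespace Pool.PKG

open MeasureTheory Set Filter Topology
open Pool.Agent.H49.Ent Pool.Agent.H32.Dense Pool.STK Pool.KA Pool.KSAT Pool.K2S Pool.PB
open Pool.GEN Pool.S6C Pool.STAT Pool.CHT Pool.GRW Pool.ONE Pool.STA
open Pool.LBT (LSys ThrOf)
open Pool.LEV (Law Lv)
open Pool.ALL (RateOf)
open Pool.TOP (TopS)
open Pool.RTS (iso Diag)
open Pool.STR (NumI CellD RowD NfB AffB Rle Nw)
open Pool.ISO (ChI)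
open Pool.STAT.CLO Pool.MIC6
open Pool.P4 (NFc1)

variable {n : ℕ} {hn : 2 ≤ n} {S : PCl n} {P : ℝ → ℝ → ℝ} {rr : ℝ → ℝ}
  {P' : ℕ → List (Fin n) × Fin n → ℝ → ℝ → ℝ} {Λ : Finset (Fin n) → Fin n → ℝ → ℝ → ℝ}
  {PB : ℕ → List (Fin n) × Fin n → ℝ → ℝ → ℝ} {PN PC : Od n → ℕ → ℝ → ℝ → ℝ}

/-- **The slopes of P5.** -/
def Sl5 (hn : 2 ≤ n) (P : ℝ → ℝ → ℝ) (P' : ℕ → List (Fin n) × Fin n → ℝ → ℝ → ℝ)
    (R : Finset (Fin n)) (o : Od n) (g : ℝ) : Prop :=
  slN hn P P' o (n - 1) g = 3 ∧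
    (∀ l < n - 1, slN hn P P' o l g ≤ 1 ∨ slN hn P P' o l g = 2 ∨ slN hn P P' o l g = 3) ∧
    ∀ l < n - 1, ¬ InR R l → slN hn P P' o l g = 2

theorem Sl5.le {R : Finset (Fin n)} {o : Od n} {g : ℝ} (h : Sl5 hn P P' R o g) :
    ∀ l < n - 1, slN hn P P' o l g ≤ slN hn P P' o (n - 1) g := by
  intro l hl
  rw [h.1]
  rcases h.2.1 l hl with h1 | h1 | h1 <;> linarith

variable (H : PkT hn S P rr P' Λ PB) {hTop : TopS n} {hF : FZX (n - 1)} {h : ℝ}
  {ρ' : ℝ → ℝ} {hρ : Rle rr ρ'}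

/-- **The windows with the slopes of P5**, `PN` and `PC` are thresholds, `AX` and `ΦX` further
properties. -/
noncomputable def kp5T (H : PkT hn S P rr P' Λ PB) (hTop : TopS n) (hF : FZX (n - 1))
    (hρ : Rle rr ρ') (h : ℝ) (PN PC : Od n → ℕ → ℝ → ℝ → ℝ)
    (AX : ℝ → Finset (Fin n) → Od n → ℝ → Prop) (ΦX : Finset (Fin n) → Od n → ℝ → ℝ → ℝ → Prop)
    (hX : ∀ {R : Finset (Fin n)} {o : Od n} {g r d d' : ℝ}, d ≤ d' → ΦX R o g r d →
      ΦX R o g r d') : NumI.KndP ((H.nk hTop hF).chg hρ H.up) (Finset (Fin n)) where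
  A c R o g := Sl5 hn P P' R o g ∧ AX c R o g
  Φ R o g r d := KnT hn P rr P' h PN PC R o g r d ∧ ΦX R o g r d
  mono hd h := ⟨h.1.mono hd, hX hd h.2⟩

theorem kp5T_at {AX : ℝ → Finset (Fin n) → Od n → ℝ → Prop}
    {ΦX : Finset (Fin n) → Od n → ℝ → ℝ → ℝ → Prop}
    {hX : ∀ {R : Finset (Fin n)} {o : Od n} {g r d d' : ℝ}, d ≤ d' → ΦX R o g r d →
      ΦX R o g r d'} {o : Od n} {g h : ℝ} {R : Finset (Fin n)} (hsl : Sl5 hn P P' R o g)
    (hrow : Sml fun r d => NfB rr h d (P g g - r) (P g g + 3 * r))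
    (hN : ∀ l < n - 1, InR R l → Sml fun r d => Box7 g r fun a w =>
      PN o l a w ≤ dgN hn P P' o l w + (a - w) + d)
    (hC : ∀ l < n - 1, ¬ InR R l → Sml fun r d => Box7 g r fun a w =>
      dgN hn P P' o l w + 2 * (a - w) ≤ PC o l a w + d)
    (hA : ∃ c : ℝ, 0 < c ∧ ∀ c' : ℝ, 0 < c' → c' ≤ c → AX c' R o g)
    (hΦ : Sml fun r d => ΦX R o g r d) :
    (kp5T H hTop hF hρ h PN PC AX ΦX hX).At R
      (show ((H.nk hTop hF).chg hρ H.up).O from o) g := by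
  obtain ⟨c₁, hc₁, hA⟩ := hA
  refine ⟨c₁, hc₁, fun c' hc' hcc => ⟨hsl, hA c' hc' hcc⟩, ?_⟩
  have k2 : Sml fun r d => ∀ l ∈ Finset.range (n - 1), InR R l → Box7 g r fun a w =>
      PN o l a w ≤ dgN hn P P' o l w + (a - w) + d := Sml.all _ fun l hl => by
    by_cases hl' : InR R l
    · exact (hN l (Finset.mem_range.1 hl) hl').mono fun _ _ _ h _ => h
    · exact fun _ _ => ⟨1, one_pos, fun _ _ _ h => absurd h hl'⟩
  have k3 : Sml fun r d => ∀ l ∈ Finset.range (n - 1), ¬ InR R l → Box7 g r fun a w =>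
      dgN hn P P' o l w + 2 * (a - w) ≤ PC o l a w + d := Sml.all _ fun l hl => by
    by_cases hl' : ¬ InR R l
    · exact (hC l (Finset.mem_range.1 hl) hl').mono fun _ _ _ h _ => h
    · exact fun _ _ => ⟨1, one_pos, fun _ _ _ h => absurd h hl'⟩
  exact ((hrow.and (k2.and k3)).and hΦ).mono fun r d _ h => ⟨⟨h.1.1,
    fun l hl hl' => h.1.2.1 l (Finset.mem_range.2 hl) hl',
    fun l hl hl' => h.1.2.2 l (Finset.mem_range.2 hl) hl'⟩, h.2⟩

/-- **The windows with the slopes of P5, all coordinates are rough.** -/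
noncomputable def kp5 (H : PkT hn S P rr P' Λ PB) (hTop : TopS n) (hF : FZX (n - 1))
    (hρ : Rle rr ρ') (h : ℝ) : NumI.KndP ((H.nk hTop hF).chg hρ H.up) (Finset (Fin n)) :=
  kp5T H hTop hF hρ h (fun o l => bet (PB o.2) (cc hn o.1.1) l)
    (fun o l => bet (P' o.2) (cc hn o.1.1) l)
    (fun _ R _ _ => AllR R) (fun _ _ _ _ _ => True) fun _ _ => trivial

/-- The windows with the slopes of P5, all coordinates are rough. -/
theorem kp5_at {o : Od n} {g h : ℝ} (h3 : slN hn P P' o (n - 1) g = 3)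
    (hsl : ∀ l < n - 1, slN hn P P' o l g ≤ 1 ∨ slN hn P P' o l g = 2 ∨ slN hn P P' o l g = 3)
    (hrow : Sml fun r d => NfB rr h d (P g g - r) (P g g + 3 * r))
    (hN : ∀ l < n - 1, Sml fun r d => Box7 g r fun a w =>
      bet (PB o.2) (cc hn o.1.1) l a w ≤ dgN hn P P' o l w + (a - w) + d) :
    (kp5 H hTop hF hρ h).At (Finset.univ : Finset (Fin n))
      (show ((H.nk hTop hF).chg hρ H.up).O from o) g := by
  have hR : AllR (Finset.univ : Finset (Fin n)) := fun l hl =>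
    ⟨⟨l, by omega⟩, Finset.mem_univ _, rfl⟩
  exact kp5T_at H ⟨h3, hsl, fun l hl h1 => absurd (hR l hl) h1⟩ hrow (fun l hl _ => hN l hl)
    (fun l hl h1 => absurd (hR l hl) h1) ⟨1, one_pos, fun _ _ _ => hR⟩
    fun _ _ => ⟨1, one_pos, fun _ _ _ => trivial⟩

/-- The slopes of the cells of the kind satisfy `Q5`. -/
theorem q5_kit {p : ((H.nk hTop hF).chg hρ H.up).Par} {ι : Type} {kd : p.cell.α → ι}
    {c β h' M : ℝ} {x : ι} (hβ : 0 < β) {R : Finset (Fin n)} {RN : ℕ → Prop}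
    (hRN : ∀ l < n - 1, ¬ RN (l + 1) → ¬ InR R l) {q : BS p.cell} {ε : ℝ} (K₀ : ℕ)
    (hA : Sl5 hn P P' R (show Od n from q.k.2) q.g) (hq : IsK p.cell kd c β h' M x ε q) :
    Q5 RN (n - 1 + 1) (fun _ => 1)
      (gamS (n - 1 + 1) ((kitN H p K₀).kit.la q) ((kitN H p K₀).kit.ml q)) := by
  obtain ⟨h3, h4, h5⟩ := hA
  have e0 : gamS (n - 1 + 1) ((kitN H p K₀).kit.la q) ((kitN H p K₀).kit.ml q) (n - 1 + 1) =
      2 := by
    rw [(gamS_tar H hq hβ K₀).1, h3]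
    norm_num
  have e1 : ∀ l, 1 ≤ l → l < n - 1 + 1 → gamS (n - 1 + 1) ((kitN H p K₀).kit.la q)
      ((kitN H p K₀).kit.ml q) l = max 0 (slN hn P P' (show Od n from q.k.2) (l - 1) q.g - 1) :=
    fun l l1 l2 => gamS_kit H hq K₀ l1 l2.le
  refine ⟨fun _ _ _ => rfl, fun l l1 l2 => ?_, e0, fun l l1 l2 l3 => ?_⟩
  · rcases l2.lt_or_eq with l2 | l2
    · rw [e1 l l1 l2]
      rcases h4 (l - 1) (by omega) with h6 | h6 | h6
      · exact Or.inl (max_eq_left (by linarith))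
      · refine Or.inr (Or.inl ?_)
        rw [h6]
        norm_num
      · refine Or.inr (Or.inr ?_)
        rw [h6]
        norm_num
    · rw [l2, e0]
      exact Or.inr (Or.inr rfl)
  · rw [e1 l l1 l2, h5 (l - 1) (by omega) (hRN (l - 1) (by omega) (by
      rwa [Nat.sub_add_cancel l1]))]
    norm_num

/-- **No boxes with the slopes of P5, all the coordinates are rough**: `x'` is the deficit of the
closed rows. -/
theorem cls_5 {x' : ℝ} (hP : ∀ K' : ℕ,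
      MicX (XP4 K' 1 (fun _ => True) x') (Q5 (fun _ => True) (n - 1 + 1))
        (fun B => B = n + 2) (n - 1 + 1) K' h)
    (hh : 0 < h) (hh1 : h ≤ 1) {p : ((H.nk hTop hF).chg hρ H.up).Par}
    (hpI : ∀ c (k : p.α × Od n) Q g ρ, p.Ad' c k Q g ρ → AdI hn S P P' c k.2 g ρ)
    {ι : Type} {kd : p.cell.α → ι} {c β h' M : ℝ} {x : ι}
    (hexn : ExnI H p (IsK p.cell kd c β h' M x)) (hexs : ExsI H p (IsK p.cell kd c β h' M x))
    (hnfc : NfcI H p x' (IsK p.cell kd c β h' M x)) (hc : 0 < c) (hβ : 0 < β)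
    {R : Finset (Fin n)}
    (hR : ∀ l < n - 1, InR R l)
    (hPN : ∀ o : Od n, ∀ l < n - 1, PN o l = bet (PB o.2) (cc hn o.1.1) l)
    (hA : ∀ ε q, IsK p.cell kd c β h' M x ε q → Sl5 hn P P' R (show Od n from q.k.2) q.g)
    (hΦ : ∀ ε' : ℝ, 0 < ε' → EvP (IsK p.cell kd c β h' M x) fun q =>
      KnT hn P rr P' h PN PC R (show Od n from q.k.2) q.g q.r (ε' * q.r)) :
    EvP (IsK p.cell kd c β h' M x) fun _ => False := by
  have hI' := isK_mono p.cell kd c β h' M x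
  have hsub := isK_sub p.cell kd c β h' M x
  refine cls_mic H hh hh1 hpI hexn hexs hc hβ (fun ε' hε' => (hΦ ε' hε').mono fun q h => h.row)
    (X := fun K' => XP4 K' 1 (fun _ => True) x')
    (fun K' => xP4_mono K' 1 _ x') (q5_cl (fun _ => True) (by omega))
    hP (fun q ε K₀ hq => q5_kit H hβ (R := R) (fun l _ h1 => absurd trivial h1) K₀
      (hA ε q hq) hq)
    fun K₀ K' s₁ sh hK₀ hK' W her hWs => ?_
  have hfc := hnfc K₀ K' s₁ sh hK₀ hK'
  refine ext_P hI' H.tmh ((kitN H p K₀).kit.setW W her)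
    (kit_cel H hpI (kd := kd) (h' := h') (M := M) hc hβ x K₀) hK'
    (be := fun q => bi P' (show Od n from q.k.2).2)
    (P := fun q => PB (show Od n from q.k.2).2) (fun q => H.thb _)
    (fun q l hl a w _ _ _ => (kit_Lb H q hl a w).le)
    (fun l hl ε' hε' => ?_) le_rfl ?_
  · rcases Nat.lt_or_ge l (n - 1) with hl' | hl'
    · refine ((hΦ ε' hε').and hI' (EvP.self _ one_pos)).mono fun q hq z hz => ?_
      obtain ⟨hΦ, hq⟩ := hq
      have hr := hq.is.r0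
      have h1 := hΦ.rgh l hl' (hR l hl')
      rw [hPN _ l hl'] at h1
      have h2 : ∀ a w : ℝ, 0 ≤ w → w ≤ a → a ≤ 1 →
          bet (PB (show Od n from q.k.2).2) (cc hn (show Od n from q.k.2).1.1) l a w ≤ 1 :=
        fun a w k1 k2 k3 => (H.thb _).up _ a w k1 k2 k3
      have h3 := box_le h2 hr hq.is.g0 hq.is.g1 h1 (mul_pos hε' hr).le hz
      have h4 : (kitN H p K₀).kit.L q l = iso (dgN hn P P' (show Od n from q.k.2) l) := by
        show iso ((kitN H p K₀).Dg q l) = _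
        rw [kit_dg H q l]
      show Nw (bet (PB (show Od n from q.k.2).2) (cc hn (show Od n from q.k.2).1.1) l) z ≤
        Nw ((kitN H p K₀).kit.L q l) z + ε' * q.r
      rw [h4]
      exact h3
    · obtain rfl : l = n - 1 := by omega
      exact (kit_thr H ε' hε').sub hsub
  · obtain ⟨C₄, h1⟩ := hfc
    exact ⟨C₄, fun C₁ hC₁ B _ hB M' => by
      subst hB
      exact (h1 C₁ hC₁ M').mono fun N θ q h2 => h2.setW (hWs q N M' θ)
        fun _ _ _ _ _ _ h3 => h3⟩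

variable {H} in
/-- **No boxes with the slopes of P5**, if all coordinates are rough. -/
theorem nok_5 {x' : ℝ} (hP : ∀ K' : ℕ,
      MicX (XP4 K' 1 (fun _ => True) x') (Q5 (fun _ => True) (n - 1 + 1))
        (fun B => B = n + 2) (n - 1 + 1) K' h)
    (hh : 0 < h) (hh1 : h ≤ 1) :
    NoKd H (kp5 H hTop hF hρ h) (HypP _ x') := by
  intro p hp κ kd y R c β h₁ M hc hβ hK hy
  by_cases hR : AllR R
  · exact cls_5 H hP hh hh1 hp hy.1 hy.2.1 hy.2.2 hc hβ hR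
      (PN := fun o l => bet (PB o.2) (cc hn o.1.1) l)
      (PC := fun o l => bet (P' o.2) (cc hn o.1.1) l) (fun _ _ _ => rfl)
      (fun ε q hq => (hK.A ε q hq).1) fun ε' hε' => (hK.Φ ε' hε').mono fun q h1 => h1.1
  · exact ⟨1, one_pos, fun q hq => hR (hK.A _ q hq).2⟩

variable {H} in
/-- **No boxes with the slopes of P5**, all coordinates are rough, from `P5Stmt1`: `δ` depends on
`n` and a lower bound of the deficit. -/
theorem nok_5' (hP : Pool.P5.P5Stmt1) (n : ℕ) {h₀ : ℝ} (hh₀ : 0 < h₀) :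
    ∃ δ : ℝ, 0 < δ ∧ ∀ {hn : 2 ≤ n} {S : PCl n} {P : ℝ → ℝ → ℝ} {rr : ℝ → ℝ}
      {P' : ℕ → List (Fin n) × Fin n → ℝ → ℝ → ℝ} {Λ : Finset (Fin n) → Fin n → ℝ → ℝ → ℝ}
      {PB : ℕ → List (Fin n) × Fin n → ℝ → ℝ → ℝ} {H : PkT hn S P rr P' Λ PB} {hTop : TopS n}
      {hF : FZX (n - 1)} {ρ' : ℝ → ℝ} {hρ : Rle rr ρ'} {h : ℝ}, h₀ ≤ h → h ≤ 1 →
      NoKd H (kp5 H hTop hF hρ h) (HypP _ (h + δ)) := by
  obtain ⟨δ, hδ, h1⟩ := micX_5 hP (n := n - 1 + 1) (B₀ := n + 2) (by omega) (by omega) hh₀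
  exact ⟨δ, hδ, fun hh hh1 => nok_5 (fun K' => h1 K' 1 _ _ hh hh1) (hh₀.trans_le hh) hh1⟩

variable {H} in
/-- The closed lower bound on the boxes of the rows is the closed lower bound on the boxes of the
windows with the slopes of P5. -/
theorem has5 {x' : ℝ} (hV : HasK H (kp5 H hTop hF hρ h) (HypV _))
    (hE : ∀ p : ((H.nk hTop hF).chg hρ H.up).Par, AdP H p → NfcN H p x') :
    HasK H (kp5 H hTop hF hρ h) (HypP _ x') := by
  intro p hp κ kd y R c β h₁ M hc hβ hK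
  obtain ⟨h1, h2⟩ := hV p hp kd y R c β h₁ M hc hβ hK
  exact ⟨h1, h2, (hE p hp c β h₁ M hc hβ).sub fun ε q hq =>
    ⟨isK_sub _ _ _ _ _ _ _ _ _ hq, (hK.A ε q hq).1.le⟩⟩

end Pool.PKG
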