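import Pool.Agent.H78.MIC.ClsG
import Pool.Agent.H12.P5.Kd5

/-!
# No boxes with the slopes of P5, one coordinate has labels with gain

`SlC5`: the slope of the target is `3`, the slopes of the coordinates are at most `1`, or `2`, or
`3`, the coordinate with labels with gain has the slope `2`. `nok_C5`, `nok_C5'`: there are no boxes
of this kind, by `P5Stmt1`. `slC5_at`: the slopes of a window. `hasC5`: exactness and the closed
lower bound on the boxes of the kind.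
-/

set_option autoImplicit false

namespace Pool.PKG

open MeasureTheory Set Filter Topology
open Pool.Agent.H49.Ent Pool.Agent.H32.Dense Pool.STK Pool.KA Pool.KSAT Pool.K2S Pool.PB
open Pool.GEN Pool.S6C Pool.STAT Pool.CHT Pool.GRW Pool.ONE Pool.STA
open Pool.LBT (LSys ThrOf)
open Pool.TOP (TopS)
open Pool.STR (NumI Rle)
open Pool.CHB (chsysB)
open Pool.STAT.CLO Pool.MIC6

variable {n : ℕ} {hn : 2 ≤ n} {S : PCl n} {P : ℝ → ℝ → ℝ} {rr : ℝ → ℝ}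
  {P' : ℕ → List (Fin n) × Fin n → ℝ → ℝ → ℝ} {Λ : Finset (Fin n) → Fin n → ℝ → ℝ → ℝ}
  {PB : ℕ → List (Fin n) × Fin n → ℝ → ℝ → ℝ}

/-- **The slopes of P5**, the coordinate `l₀` has labels with gain. -/
def SlC5 (hn : 2 ≤ n) (P : ℝ → ℝ → ℝ) (P' : ℕ → List (Fin n) × Fin n → ℝ → ℝ → ℝ) (_ : ℝ)
    (l₀ : ℕ) (o : Od n) (g : ℝ) : Prop :=
  slN hn P P' o l₀ g = 2 ∧ slN hn P P' o (n - 1) g = 3 ∧
    ∀ l < n - 1, slN hn P P' o l g ≤ 1 ∨ slN hn P P' o l g = 2 ∨ slN hn P P' o l g = 3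

theorem SlC5.le {c : ℝ} {l₀ : ℕ} {o : Od n} {g : ℝ} (h : SlC5 hn P P' c l₀ o g) :
    ∀ l < n - 1, slN hn P P' o l g ≤ slN hn P P' o (n - 1) g := by
  intro l hl
  rw [h.2.1]
  rcases h.2.2 l hl with h1 | h1 | h1 <;> linarith

/-- The slopes of a window. -/
theorem slC5_at {o : Od n} {g : ℝ} {l₀ : ℕ} (h2 : slN hn P P' o l₀ g = 2)
    (h3 : slN hn P P' o (n - 1) g = 3)
    (hsl : ∀ l < n - 1, slN hn P P' o l g ≤ 1 ∨ slN hn P P' o l g = 2 ∨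
      slN hn P P' o l g = 3) :
    ∃ c : ℝ, 0 < c ∧ ∀ c' : ℝ, 0 < c' → c' ≤ c → SlC5 hn P P' c' l₀ o g :=
  ⟨1, one_pos, fun _ _ _ => ⟨h2, h3, hsl⟩⟩

variable {H : PkT hn S P rr P' Λ PB} {hTop : TopS n} {hF : FZX (n - 1)} {h : ℝ}
  {ρ' : ℝ → ℝ} {hρ : Rle rr ρ'}

/-- **No boxes with the slopes of P5, one coordinate has labels with gain.** -/
theorem nok_C5 {x' : ℝ} {PW : ℕ → List (Fin n) × Fin n → ℝ → ℝ → ℝ}
    (hPW : ∀ j, ThrOf (chsysB n none (P' j)) S (PW j))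
    (hP : ∀ (K' : ℕ) (R : ℕ → Prop), MicX (XP4 K' 1 R x')
      (Q5 R (n - 1 + 1)) (fun B => B = n + 2) (n - 1 + 1) K' h)
    (hh : 0 < h) (hh1 : h ≤ 1) :
    NoKd H (kpC H hTop hF hρ h PW (SlC5 hn P P')) (HypP _ x') := by
  refine nok_Cg hPW (Qc := fun _ _ l₀ => Q5 (fun u => u ≠ l₀ + 1) (n - 1 + 1))
    (fun c β l₀ => q5_cl _ (by omega)) (fun K' c β l₀ _ _ _ => hP K' _)
    (fun c β l₀ o g gam hc hβ hl₀ hA _ hgam => ?_) hh hh1
  obtain ⟨h2, h3, hsl⟩ := hA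
  have e1 : gam (n - 1 + 1) = 2 := by
    rw [hgam (n - 1 + 1) (by omega) le_rfl, Nat.add_sub_cancel, h3]
    norm_num
  refine ⟨fun _ _ _ => rfl, fun l l1 l2 => ?_, e1, fun l l1 l2 h4 => ?_⟩
  · rcases l2.lt_or_eq with l2 | l2
    · rw [hgam l l1 l2.le]
      rcases hsl (l - 1) (by omega) with h6 | h6 | h6
      · exact Or.inl (max_eq_left (by linarith))
      · refine Or.inr (Or.inl ?_)
        rw [h6]
        norm_num
      · refine Or.inr (Or.inr ?_)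
        rw [h6]
        norm_num
    · rw [l2, e1]
      exact Or.inr (Or.inr rfl)
  · have h5 : l = l₀ + 1 := by
      by_contra h6
      exact h4 h6
    rw [hgam l l1 l2.le, h5, Nat.add_sub_cancel, h2]
    norm_num

/-- **No boxes with the slopes of P5, one coordinate has labels with gain**, from `P5Stmt1`: `δ`
depends on `n` and a lower bound of the deficit. -/
theorem nok_C5' (hP : Pool.P5.P5Stmt1) (n : ℕ) {h₀ : ℝ} (hh₀ : 0 < h₀) :
    ∃ δ : ℝ, 0 < δ ∧ ∀ {hn : 2 ≤ n} {S : PCl n} {P : ℝ → ℝ → ℝ} {rr : ℝ → ℝ}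
      {P' : ℕ → List (Fin n) × Fin n → ℝ → ℝ → ℝ} {Λ : Finset (Fin n) → Fin n → ℝ → ℝ → ℝ}
      {PB : ℕ → List (Fin n) × Fin n → ℝ → ℝ → ℝ} {H : PkT hn S P rr P' Λ PB} {hTop : TopS n}
      {hF : FZX (n - 1)} {ρ' : ℝ → ℝ} {hρ : Rle rr ρ'} {h : ℝ}
      {PW : ℕ → List (Fin n) × Fin n → ℝ → ℝ → ℝ},
      (∀ j, ThrOf (chsysB n none (P' j)) S (PW j)) → h₀ ≤ h → h ≤ 1 →
      NoKd H (kpC H hTop hF hρ h PW (SlC5 hn P P')) (HypP _ (h + δ)) := by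
  obtain ⟨δ, hδ, h1⟩ := micX_5 hP (n := n - 1 + 1) (B₀ := n + 2) (by omega) (by omega) hh₀
  exact ⟨δ, hδ, fun hPW hh hh1 => nok_C5 hPW (fun K' R => h1 K' 1 R _ hh hh1)
    (hh₀.trans_le hh) hh1⟩

/-- The closed lower bound on the boxes of the rows is the closed lower bound on the boxes of the
windows with the slopes of P5, one coordinate has labels with gain. -/
theorem hasC5 {x' : ℝ} {PW : ℕ → List (Fin n) × Fin n → ℝ → ℝ → ℝ}
    (hV : HasK H (kpC H hTop hF hρ h PW (SlC5 hn P P')) (HypV _))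
    (hE : ∀ p : ((H.nk hTop hF).chg hρ H.up).Par, AdP H p → NfcN H p x') :
    HasK H (kpC H hTop hF hρ h PW (SlC5 hn P P')) (HypP _ x') := by
  intro p hp κ kd y l₀ c β h₁ M hc hβ hK
  obtain ⟨h1, h2⟩ := hV p hp kd y l₀ c β h₁ M hc hβ hK
  exact ⟨h1, h2, (hE p hp c β h₁ M hc hβ).sub fun ε q hq =>
    ⟨isK_sub _ _ _ _ _ _ _ _ _ hq, (hK.A ε q hq).1.le⟩⟩

end Pool.PKG
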