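import Pool.Agent.H12.P5.LfS
import Pool.Agent.H25.P4.LinA
import Pool.Agent.H35.MICA.Pth

/-!
# P5: leaf points as polynomials of the time
-/

set_option autoImplicit false

namespace Pool.P5L

open Finset Real MvPolynomial
open Pool.Agent.H49.Ent Pool.Agent.H32.Dense Pool.STK Pool.STAT Pool.MIC.Frm Pool.MIC7 Pool.FRM
open Pool.P4O (Sy Cls Lv lc lc0)

/-! ### One variable -/

/-- The first coefficient and the increments of a polynomial which is bounded on an interval. -/
theorem mk1 (N : ℕ) : ∃ C : ℝ, 1 ≤ C ∧ ∀ (p : Polynomial ℝ) (ρ A : ℝ), p.natDegree ≤ N →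
    0 < ρ → (∀ h, |h| ≤ ρ → |p.eval h| ≤ A) → |p.coeff 1| * ρ ≤ C * A ∧
    ∀ h, |h| ≤ ρ → |p.eval h - p.eval 0| * ρ ≤ C * A * |h| := by
  obtain ⟨C, hC, hcb⟩ := Pool.KAL.TAY.coef_bound N
  refine ⟨(N + 1) * C + 1, by
    have : 0 ≤ ((N : ℝ) + 1) * C := by positivity
    linarith, ?_⟩
  intro p ρ A hN hρ hA
  have hA0 : 0 ≤ A := (abs_nonneg _).trans (hA 0 (by rw [abs_zero]; exact hρ.le))
  obtain ⟨q, hq⟩ : ∃ q : Polynomial ℝ, q = p.comp (Polynomial.C ρ * Polynomial.X) := ⟨_, rfl⟩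
  have hev : ∀ u, q.eval u = p.eval (ρ * u) := fun u => by
    rw [hq, Polynomial.eval_comp, Polynomial.eval_mul, Polynomial.eval_C, Polynomial.eval_X]
  have hqc : ∀ m, q.coeff m = p.coeff m * ρ ^ m := fun m => by
    rw [hq, Polynomial.comp_C_mul_X_coeff]
  have hqd : q.natDegree ≤ N := by
    rw [hq]
    refine Polynomial.natDegree_comp_le.trans ?_
    calc p.natDegree * _ ≤ N * 1 := Nat.mul_le_mul hN
          ((Polynomial.natDegree_C_mul_le _ _).trans Polynomial.natDegree_X_le)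
      _ = N := mul_one N
  have hco : ∀ m, |q.coeff m| ≤ C * A := by
    intro m
    rcases Nat.lt_or_ge N m with h | h
    · rw [Polynomial.coeff_eq_zero_of_natDegree_lt (hqd.trans_lt h), abs_zero]
      positivity
    · refine hcb q A hqd (fun u u0 u1 => ?_) m h
      rw [hev]
      refine hA _ ?_
      rw [abs_mul, abs_of_pos hρ, abs_of_nonneg u0]
      exact mul_le_of_le_one_right hρ.le u1
  have hCA : 0 ≤ C * A := by positivity
  have hc1 : C * A ≤ ((N + 1) * C + 1) * A := by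
    have h1 : 0 ≤ (N : ℝ) * (C * A) := by positivity
    nlinarith
  constructor
  · have h1 := hco 1
    rw [hqc, pow_one, abs_mul, abs_of_pos hρ] at h1
    exact h1.trans hc1
  · intro h hh
    obtain ⟨e, he⟩ : ∃ e, e = |h| / ρ := ⟨_, rfl⟩
    have he0 : 0 ≤ e := by rw [he]; positivity
    have he1 : e ≤ 1 := by rw [he, div_le_one hρ]; exact hh
    have hhe : |h| = e * ρ := by rw [he]; field_simp
    have E1 : p.eval h - p.eval 0 = ∑ m ∈ range (N + 1), p.coeff m * (h ^ m - 0 ^ m) := by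
      rw [Polynomial.eval_eq_sum_range' (Nat.lt_succ_of_le hN),
        Polynomial.eval_eq_sum_range' (Nat.lt_succ_of_le hN), ← Finset.sum_sub_distrib]
      exact Finset.sum_congr rfl fun m _ => by ring
    have key : ∀ m ∈ range (N + 1), |p.coeff m * (h ^ m - 0 ^ m)| ≤ C * A * e := by
      intro m _
      rcases Nat.eq_zero_or_pos m with h0 | h0
      · rw [h0, pow_zero, pow_zero, sub_self, mul_zero, abs_zero]
        positivity
      · rw [zero_pow h0.ne', sub_zero, abs_mul, abs_pow, hhe, mul_pow]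
        have h1 := hco m
        rw [hqc, abs_mul, abs_of_pos (pow_pos hρ m)] at h1
        have h2 : e ^ m ≤ e := by
          calc e ^ m ≤ e ^ 1 := pow_le_pow_of_le_one he0 he1 h0
            _ = e := pow_one e
        calc |p.coeff m| * (e ^ m * ρ ^ m) = (|p.coeff m| * ρ ^ m) * e ^ m := by ring
          _ ≤ (C * A) * e := mul_le_mul h1 h2 (by positivity) hCA
    rw [E1]
    have h3 := (Finset.abs_sum_le_sum_abs _ _).trans (Finset.sum_le_sum key)
    rw [Finset.sum_const, card_range, nsmul_eq_mul] at h3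
    push_cast at h3
    calc |∑ m ∈ range (N + 1), p.coeff m * (h ^ m - 0 ^ m)| * ρ
        ≤ ((N + 1) * (C * A * e)) * ρ := mul_le_mul_of_nonneg_right h3 hρ.le
      _ = ((N + 1) * C) * A * (e * ρ) := by ring
      _ ≤ ((N + 1) * C + 1) * A * |h| := by
          rw [hhe]
          refine mul_le_mul_of_nonneg_right ?_ (by positivity)
          nlinarith

/-! ### Leaf points -/

open Classical in
/-- The system of the leaf: `P` in `So`, `V` in the other coordinates, the time centred at `T`. -/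
noncomputable def lfs (So : ℕ → Prop) (T : ℝ) (P V : ℕ → PN) (l : ℕ) : PN :=
  if l = 0 then C T else if So l then P l else V l

open Classical in
/-- The coordinates of a leaf point. -/
noncomputable def lfz (g : ℕ → ℕ) (So : ℕ → Prop) (ζ : ℕ → ℝ) (l : ℕ) : ℝ :=
  if So l then ζ l / 2 ^ g l else 0

/-- The leaf point over `ζ` at the time `T + h`. -/
noncomputable def lfb (g : ℕ → ℕ) (So : ℕ → Prop) (T : ℝ) (P V : ℕ → PN) (ζ : ℕ → ℝ)
    (h : ℝ) : ℕ → ℝ :=
  ps (lfs So T P V) (Function.update (lfz g So ζ) 0 h)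

section

variable {g : ℕ → ℕ} {So : ℕ → Prop} {T : ℝ} {P V : ℕ → PN}

theorem lfs_tri (hP : TriN P) (hV : TriN V) : TriN (lfs So T P V) := by
  intro l
  unfold lfs
  split_ifs with h1 h2
  · rw [vars_C]
    exact Finset.empty_subset _
  · exact hP l
  · exact hV l

theorem lfs_deg {K : ℕ} (hP : ∀ l, (P l).totalDegree ≤ K) (hV : ∀ l, (V l).totalDegree ≤ K)
    (l : ℕ) : (lfs So T P V l).totalDegree ≤ K := by
  unfold lfs
  split_ifs with h1 h2
  · rw [totalDegree_C]
    exact Nat.zero_le _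
  · exact hP l
  · exact hV l

theorem lfb_eq (hP : TriN P) (hV : TriN V) (ζ : ℕ → ℝ) (h : ℝ) (l : ℕ) :
    lfb g So T P V ζ h l = eval (lfb g So T P V ζ h) (lfs So T P V l) +
      Function.update (lfz g So ζ) 0 h l := ps_eq (lfs_tri hP hV) _ l

theorem lfb_zero (hP : TriN P) (hV : TriN V) (ζ : ℕ → ℝ) (h : ℝ) :
    lfb g So T P V ζ h 0 = T + h := by
  rw [lfb_eq hP hV, Function.update_self]
  unfold lfs
  rw [if_pos rfl, eval_C]

theorem lfb_so (hP : TriN P) (hV : TriN V) (ζ : ℕ → ℝ) (h : ℝ) {l : ℕ} (hl : 1 ≤ l)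
    (hs : So l) : nat g P (lfb g So T P V ζ h) l = ζ l := by
  unfold nat
  rw [lfb_eq hP hV, Function.update_of_ne (by omega)]
  unfold lfs lfz
  rw [if_neg (by omega), if_pos hs, if_pos hs, add_sub_cancel_left]
  field_simp

theorem lfb_gr (hP : TriN P) (hV : TriN V) (ζ : ℕ → ℝ) (h : ℝ) {l : ℕ} (hl : 1 ≤ l)
    (hs : ¬ So l) : lfb g So T P V ζ h l = eval (lfb g So T P V ζ h) (V l) := by
  have e := lfb_eq (g := g) (So := So) (T := T) hP hV ζ h l
  rw [Function.update_of_ne (by omega)] at e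
  unfold lfs lfz at e
  rw [if_neg (by omega), if_neg hs, if_neg hs, add_zero] at e
  exact e

/-- The leaf point, at one time. -/
theorem lfb_lf (hP : TriN P) (hV : TriN V) (ζ : ℕ → ℝ) (h : ℝ) :
    Lfb g So (fz (T + h) P) (fz (T + h) V) (T + h) ζ (lfb g So T P V ζ h) := by
  have h0 := lfb_zero (g := g) (So := So) (T := T) hP hV ζ h
  refine ⟨h0, fun l hl hs => ?_, fun l hl hs => ?_⟩
  · rw [nat_fz' g P h0 hl]
    exact lfb_so hP hV ζ h hl hs
  · rw [eval_fz' V h0 hl]
    exact lfb_gr hP hV ζ h hl hs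

/-- A polynomial at the leaf points, as a polynomial of the time. -/
noncomputable def lfF (g : ℕ → ℕ) (So : ℕ → Prop) (T : ℝ) (P V : ℕ → PN) (ζ : ℕ → ℝ)
    (F : PN) : Polynomial ℝ :=
  aeval (fun i => if i = 0 then Polynomial.X else Polynomial.C (lfz g So ζ i))
    (chr (lfs So T P V) F)

theorem lfF_eval (ζ : ℕ → ℝ) (F : PN) (h : ℝ) :
    (lfF g So T P V ζ F).eval h = eval (lfb g So T P V ζ h) F := by
  unfold lfF lfb
  rw [Pool.PTH.eval_aev, ← chr_eval']
  congr 1
  congr 1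
  funext i
  by_cases hi : i = 0
  · subst hi
    simp
  · rw [if_neg hi, Function.update_of_ne hi, Polynomial.eval_C]

theorem lfF_deg {K K' m : ℕ} (hP : TriN P) (hV : TriN V) (dP : ∀ l, (P l).totalDegree ≤ K)
    (dV : ∀ l, (V l).totalDegree ≤ K) (ζ : ℕ → ℝ) {F : PN} (hv : F.vars ⊆ range m)
    (hF : F.totalDegree ≤ K') : (lfF g So T P V ζ F).natDegree ≤ K' * (K + 1) ^ m := by
  unfold lfF
  refine (Pool.PTH.natDegree_aeval_le' (K := 1) _ _ (fun i => ?_)
    (chr_deg (m := m) (lfs_tri hP hV) (fun i _ => lfs_deg dP dV i) hv hF)).trans (by omega)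
  split_ifs
  · exact Polynomial.natDegree_X_le
  · rw [Polynomial.natDegree_C]
    omega

/-- The natural coordinates of the leaf points, as polynomials of the time. -/
noncomputable def lfq (g : ℕ → ℕ) (So : ℕ → Prop) (T : ℝ) (P V : ℕ → PN) (ζ : ℕ → ℝ)
    (u : ℕ) : Polynomial ℝ := lfF g So T P V ζ (C (2 ^ g u) * (X u - P u))

theorem lfq_eval (ζ : ℕ → ℝ) (u : ℕ) (h : ℝ) :
    (lfq g So T P V ζ u).eval h = nat g P (lfb g So T P V ζ h) u := by
  unfold lfq nat
  rw [lfF_eval, map_mul, map_sub, eval_C, eval_X]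

theorem lfq_deg {K : ℕ} (hP : TriN P) (hV : TriN V) (dP : ∀ l, (P l).totalDegree ≤ K)
    (dV : ∀ l, (V l).totalDegree ≤ K) (ζ : ℕ → ℝ) {u n : ℕ} (hu : u ≤ n) :
    (lfq g So T P V ζ u).natDegree ≤ (K + 1) * (K + 1) ^ (n + 1) := by
  unfold lfq
  refine (lfF_deg (K' := K + 1) (m := u + 1) hP hV dP dV ζ ?_ ?_).trans ?_
  · refine AdxRow.vars_mul_le (AdxRow.vars_C_le _) (AdxRow.vars_sub_le
      (AdxRow.vars_X_le (Nat.lt_succ_self u)) ?_)
    exact (hP u).trans (Finset.range_mono (Nat.le_succ u))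
  · refine (totalDegree_mul _ _).trans ?_
    rw [totalDegree_C, zero_add]
    refine (totalDegree_sub _ _).trans (max_le ?_ ((dP u).trans (by omega)))
    exact (totalDegree_X u).le.trans (by omega)
  · exact Nat.mul_le_mul_left _ (Nat.pow_le_pow_right (by omega) (by omega))

/-- The leaf points depend only on the coordinates before. -/
theorem lfb_congr (hP : TriN P) (hV : TriN V) {ζ ζ' : ℕ → ℝ} {h : ℝ} :
    ∀ u, (∀ l ≤ u, 1 ≤ l → So l → ζ l = ζ' l) →
      lfb g So T P V ζ h u = lfb g So T P V ζ' h u := by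
  intro u
  induction u using Nat.strong_induction_on with
  | _ u ih =>
    intro hz
    rw [lfb_eq hP hV, lfb_eq hP hV ζ']
    congr 1
    · refine Pool.SYS35.eval_congr (lfs_tri hP hV u) fun l hl => ?_
      exact ih l hl fun k hk => hz k (by omega)
    · rcases Nat.eq_zero_or_pos u with h0 | h0
      · rw [h0, Function.update_self, Function.update_self]
      · rw [Function.update_of_ne (by omega), Function.update_of_ne (by omega)]
        unfold lfz
        split_ifs with hs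
        · rw [hz u le_rfl h0 hs]
        · rfl

theorem lfq_congr (hP : TriN P) (hV : TriN V) {ζ ζ' : ℕ → ℝ} {u : ℕ}
    (hz : ∀ l ≤ u, 1 ≤ l → So l → ζ l = ζ' l) :
    lfq g So T P V ζ u = lfq g So T P V ζ' u := by
  refine Polynomial.funext fun h => ?_
  rw [lfq_eval, lfq_eval]
  unfold nat
  rw [lfb_congr hP hV u hz]
  congr 2
  exact Pool.SYS35.eval_congr (hP u) fun l hl => lfb_congr hP hV l fun k hk => hz k (by omega)

end

end Pool.P5L
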