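import Pool.Agent.H12.P5.LfA

/-!
# P5: leaf points, variation with the time
-/

set_option autoImplicit false

namespace Pool.P5L

open Finset Real MvPolynomial
open Pool.Agent.H49.Ent Pool.Agent.H32.Dense Pool.STK Pool.STAT Pool.MIC.Frm Pool.MIC7 Pool.FRM
open Pool.P4O (Sy Cls Lv lc lc0 SS lin pw pw1 aff)

open Classical in
/-- **The linear lemma with the time.** -/
theorem alg1 (n N : ℕ) : ∃ C : ℝ, 1 ≤ C ∧ ∀ (So Sl : ℕ → Prop) (A ρ θ ε₁ ε₂ : ℝ)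
    (x : ℕ → Polynomial ℝ) (c : ℝ → ℕ → ℕ → ℝ), (∀ l, So l → 1 ≤ l ∧ l < n) →
    (∀ l, Sl l → 1 ≤ l ∧ l < n) → 1 ≤ A → 0 < ρ → 0 ≤ θ → 0 ≤ ε₁ → 0 ≤ ε₂ →
    (∀ u ≤ n, (x u).natDegree ≤ N) →
    (∀ h, |h| ≤ ρ → ∀ u, 1 ≤ u → u ≤ n → ∀ m, |c h u m| ≤ A) →
    (∀ h, |h| ≤ ρ → ∀ u, 1 ≤ u → u ≤ n → ∀ m, 1 ≤ m → m < u → |c h u m - c 0 u m| ≤ θ) →
    (∀ h, |h| ≤ ρ → ∀ k, So k → (x k).eval h = 0) →
    (∀ h, |h| ≤ ρ → ∀ u, 1 ≤ u → u ≤ n → ¬ So u →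
      |(x u).eval h - ∑ m ∈ Finset.Ico 1 u, c h u m * (x m).eval h| ≤ ε₁) →
    (∀ h, |h| ≤ ρ → ∀ u, 1 ≤ u → u ≤ n → ¬ Sl u →
      |(x u).eval h - ∑ m ∈ Finset.Ico 1 u, c h u m * (x m).eval h| ≤ ε₂) →
    (∀ h, |h| ≤ ρ → ∀ u, 1 ≤ u → u ≤ n → |(x u).eval h| ≤ ((n + 2) * A) ^ n * ε₁) ∧
    ∀ u, 1 ≤ u → u ≤ n → ¬ Sl u →
      |(x u).coeff 1 - ∑ k ∈ (range n).filter Sl, SS n Sl (c 0) u k * (x k).coeff 1| * ρ ≤
        C * (((n + 2) * A) ^ n * (ε₂ + n * θ * (((n + 2) * A) ^ n * ε₁))) := by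
  obtain ⟨C, hC, h1⟩ := mk1 N
  refine ⟨C, hC, ?_⟩
  intro So Sl A ρ θ ε₁ ε₂ x c hSo hSl hA hρ hθ he₁ he₂ hN hc hcv hx0 hx1 hx2
  obtain ⟨B, hB⟩ : ∃ B : ℝ, B = ((n + 2) * A) ^ n := ⟨_, rfl⟩
  have hB0 : 0 ≤ B := by rw [hB]; positivity
  rw [← hB]
  have key : ∀ h, |h| ≤ ρ → ∀ u, 1 ≤ u → u ≤ n → |(x u).eval h| ≤ B * ε₁ := by
    intro h hh u hu1 hun
    by_cases hs : So u
    · rw [hx0 h hh u hs, abs_zero]
      positivity
    · have e1 := lin hSo hA (hc h hh) (x := fun m => (x m).eval h) he₁ (hx1 h hh) u hu1 hun hs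
      have e2 : ∑ k ∈ (range n).filter So, SS n So (c h) u k * (x k).eval h = 0 :=
        Finset.sum_eq_zero fun k hk => by
          rw [hx0 h hh k (Finset.mem_filter.1 hk).2, mul_zero]
      rw [e2, sub_zero, ← hB] at e1
      exact e1
  refine ⟨key, fun u hu1 hun hSu => ?_⟩
  have h0 : |(0 : ℝ)| ≤ ρ := by rw [abs_zero]; exact hρ.le
  obtain ⟨e, he⟩ : ∃ e : ℝ, e = ε₂ + n * θ * (B * ε₁) := ⟨_, rfl⟩
  have he0 : 0 ≤ e := by rw [he]; positivity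
  have k2 : ∀ h, |h| ≤ ρ → ∀ u, 1 ≤ u → u ≤ n → ¬ Sl u →
      |(x u).eval h - ∑ m ∈ Finset.Ico 1 u, c 0 u m * (x m).eval h| ≤ e := by
    intro h hh u hu1 hun hSu
    have e1 : (x u).eval h - ∑ m ∈ Finset.Ico 1 u, c 0 u m * (x m).eval h =
        ((x u).eval h - ∑ m ∈ Finset.Ico 1 u, c h u m * (x m).eval h) +
        ∑ m ∈ Finset.Ico 1 u, (c h u m - c 0 u m) * (x m).eval h := by
      simp_rw [sub_mul]
      rw [Finset.sum_sub_distrib]
      ring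
    rw [e1, he]
    refine (abs_add_le _ _).trans (add_le_add (hx2 h hh u hu1 hun hSu) ?_)
    refine (Finset.abs_sum_le_sum_abs _ _).trans ?_
    refine Pool.P4O.sum_le hun (by positivity) hθ fun m hm1 hm2 => ?_
    rw [abs_mul]
    exact mul_le_mul (hcv h hh u hu1 hun m hm1 hm2) (key h hh m hm1 (by omega))
      (abs_nonneg _) hθ
  obtain ⟨p, hp⟩ : ∃ p : Polynomial ℝ, p = x u - ∑ k ∈ (range n).filter Sl,
    Polynomial.C (SS n Sl (c 0) u k) * x k := ⟨_, rfl⟩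
  have pe : ∀ h, p.eval h = (x u).eval h - ∑ k ∈ (range n).filter Sl,
      SS n Sl (c 0) u k * (x k).eval h := fun h => by
    rw [hp, Polynomial.eval_sub, Polynomial.eval_finsetSum]
    congr 1
    exact Finset.sum_congr rfl fun k _ => by rw [Polynomial.eval_mul, Polynomial.eval_C]
  have pc : p.coeff 1 = (x u).coeff 1 - ∑ k ∈ (range n).filter Sl,
      SS n Sl (c 0) u k * (x k).coeff 1 := by
    rw [hp, Polynomial.coeff_sub, Polynomial.finsetSum_coeff]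
    congr 1
    exact Finset.sum_congr rfl fun k _ => by rw [Polynomial.coeff_C_mul]
  have pd : p.natDegree ≤ N := by
    rw [hp]
    refine (Polynomial.natDegree_sub_le _ _).trans (max_le (hN u hun) ?_)
    refine Polynomial.natDegree_sum_le_of_forall_le _ _ fun k hk => ?_
    refine (Polynomial.natDegree_C_mul_le _ _).trans (hN k ?_)
    have := mem_range.1 (Finset.mem_filter.1 hk).1
    omega
  have k3 := (h1 p ρ (B * e) pd hρ fun h hh => by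
    rw [pe, hB]
    exact lin hSl hA (hc 0 h0) (x := fun m => (x m).eval h) he0 (k2 h hh) u hu1 hun hSu).1
  rw [pc, he] at k3
  exact k3

/-- **The linear coefficients vary slowly with the time.** -/
theorem lc_var (n K a : ℕ) : ∃ (a' : ℕ) (c₀ : ℝ), ∀ (E T σ : ℝ) (g g₀ : ℕ → ℕ)
    (P V : ℕ → PN), 1 ≤ E → c₀ ≤ E → 1 ≤ σ → TriN P → TriN V →
    (∀ l, (P l).totalDegree ≤ K) → (∀ l, (V l).totalDegree ≤ K) →
    (∀ h : ℝ, |h| ≤ 1 / 2 ^ g 0 →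
      Fr n K a E (T + h) σ g g₀ (fz (T + h) P) (fz (T + h) V)) →
    ∀ h : ℝ, |h| ≤ 1 / 2 ^ g 0 → ∀ u, 1 ≤ u → u ≤ n → ∀ m, 1 ≤ m → m < u →
      |lc g (fz (T + h) P) (fz (T + h) V) u m - lc g (fz (T + 0) P) (fz (T + 0) V) u m| ≤
        E ^ a' * (2 ^ g 0 * |h| + 1 / σ) := by
  obtain ⟨a₁, c₁, h1⟩ := aff n K a
  obtain ⟨Cm, hCm, h2⟩ := mk1 (K * (K + 1) ^ (n + 1))
  refine ⟨a₁ + 1, max (max c₁ 4) (2 * Cm * (n + 2)), ?_⟩
  intro E T σ g g₀ P V hE hc hσ hP hV dP dV hF h hh u hu1 hun m hm1 hmu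
  have hcA := (le_max_left _ _).trans hc
  have hc1 : c₁ ≤ E := (le_max_left _ _).trans hcA
  have hc2 : (4 : ℝ) ≤ E := (le_max_right _ _).trans hcA
  have hc3 : 2 * Cm * (n + 2) ≤ E := (le_max_right _ _).trans hc
  have hσ0 : 0 < σ := by linarith
  have q1 : (1 : ℝ) ≤ E ^ a₁ := pw1 hE a₁
  have hg0 : (0 : ℝ) < 1 / 2 ^ g 0 := by positivity
  -- the values at the points with given coordinates
  obtain ⟨f, hf⟩ : ∃ f : (ℕ → ℝ) → Polynomial ℝ, f = fun ζ =>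
    lfF g (fun _ => True) T P P ζ (C (2 ^ g u) * (V u - P u)) := ⟨_, rfl⟩
  have fd : ∀ ζ, (f ζ).natDegree ≤ K * (K + 1) ^ (n + 1) := fun ζ => by
    rw [hf]
    dsimp only
    refine (lfF_deg (K' := K) (m := u) hP hP dP dP ζ ?_ ?_).trans ?_
    · exact AdxRow.vars_mul_le (AdxRow.vars_C_le _) (AdxRow.vars_sub_le (hV u) (hP u))
    · refine (totalDegree_mul _ _).trans ?_
      rw [totalDegree_C, zero_add]
      exact (totalDegree_sub _ _).trans (max_le (dV u) (dP u))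
    · exact Nat.mul_le_mul_left _ (Nat.pow_le_pow_right (by omega) (by omega))
  -- the affine approximation
  have ap : ∀ s : ℝ, |s| ≤ 1 / 2 ^ g 0 → ∀ ζ : ℕ → ℝ, (∀ l, |ζ l| ≤ 1) →
      |(f ζ).eval s - (lc0 g (fz (T + s) P) (fz (T + s) V) u + ∑ m ∈ Finset.Ico 1 u,
        lc g (fz (T + s) P) (fz (T + s) V) u m * ζ m)| ≤ E ^ a₁ / σ ∧
      |(f ζ).eval s| ≤ (n + 2) * E ^ a₁ := by
    intro s hs ζ hζ
    have hfr := hF s hs
    obtain ⟨b, hb⟩ : ∃ b : ℕ → ℝ, b = lfb g (fun _ => True) T P P ζ s := ⟨_, rfl⟩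
    have b0 : b 0 = T + s := by rw [hb]; exact lfb_zero hP hP ζ s
    have bs : ∀ l, 1 ≤ l → nat g P b l = ζ l := fun l hl => by
      rw [hb]
      exact lfb_so hP hP ζ s hl trivial
    have bs' : ∀ l, 1 ≤ l → nat g (fz (T + s) P) b l = ζ l := fun l hl => by
      rw [nat_fz' g P b0 hl]
      exact bs l hl
    obtain ⟨k1, k2, k3⟩ := h1 E (T + s) σ g g₀ (fz (T + s) P) (fz (T + s) V) hE hc1 hσ hfr.hP
      hfr.hV hfr.PV hfr.PV0 hfr.lv u hu1 hun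
    have k4 := k3 b b0 fun l hl _ => by
      rw [bs' l hl]
      exact (hζ l).trans (pw1 hE a)
    rw [eval_fz' V b0 hu1, eval_fz' P b0 hu1] at k4
    have e1 : (f ζ).eval s = 2 ^ g u * (eval b (V u) - eval b (P u)) := by
      rw [hf]
      dsimp only
      rw [lfF_eval, ← hb, map_mul, map_sub, eval_C]
    have e2 : ∑ m ∈ Finset.Ico 1 u, lc g (fz (T + s) P) (fz (T + s) V) u m *
        nat g (fz (T + s) P) b m = ∑ m ∈ Finset.Ico 1 u,
        lc g (fz (T + s) P) (fz (T + s) V) u m * ζ m :=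
      Finset.sum_congr rfl fun l hl => by rw [bs' l (Finset.mem_Ico.1 hl).1]
    rw [e2, ← e1] at k4
    refine ⟨k4, ?_⟩
    have e3 : |∑ m ∈ Finset.Ico 1 u, lc g (fz (T + s) P) (fz (T + s) V) u m * ζ m| ≤
        n * 1 * E ^ a₁ := by
      refine (Finset.abs_sum_le_sum_abs _ _).trans ?_
      refine Pool.P4O.sum_le hun (by positivity) zero_le_one fun l hl1 hl2 => ?_
      rw [abs_mul, mul_comm 1 (E ^ a₁)]
      exact mul_le_mul (k1 l) (hζ l) (abs_nonneg _) (by positivity)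
    have e4 : E ^ a₁ / σ ≤ E ^ a₁ := div_le_self (by positivity) hσ
    have e5 : (f ζ).eval s = ((f ζ).eval s - (lc0 g (fz (T + s) P) (fz (T + s) V) u +
        ∑ m ∈ Finset.Ico 1 u, lc g (fz (T + s) P) (fz (T + s) V) u m * ζ m)) +
        (lc0 g (fz (T + s) P) (fz (T + s) V) u + ∑ m ∈ Finset.Ico 1 u,
          lc g (fz (T + s) P) (fz (T + s) V) u m * ζ m) := by ring
    rw [e5]
    refine (abs_add_le _ _).trans ((add_le_add k4 ((abs_add_le _ _).trans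
      (add_le_add k2 e3))).trans ?_)
    nlinarith
  -- the difference of two values
  have hz0 : ∀ l : ℕ, |(0 : ℝ)| ≤ 1 := fun _ => by rw [abs_zero]; exact zero_le_one
  have hz1 : ∀ l : ℕ, |(if l = m then (1 : ℝ) else 0)| ≤ 1 := fun l => by
    split_ifs
    · rw [abs_one]
    · rw [abs_zero]
      exact zero_le_one
  obtain ⟨d, hd⟩ : ∃ d : Polynomial ℝ, d = f (fun l => if l = m then 1 else 0) -
    f (fun _ => 0) := ⟨_, rfl⟩
  have de : ∀ s : ℝ, |s| ≤ 1 / 2 ^ g 0 →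
      |d.eval s - lc g (fz (T + s) P) (fz (T + s) V) u m| ≤ 2 * (E ^ a₁ / σ) ∧
      |d.eval s| ≤ 2 * ((n + 2) * E ^ a₁) := by
    intro s hs
    obtain ⟨e1, e1'⟩ := ap s hs _ hz1
    obtain ⟨e2, e2'⟩ := ap s hs (fun _ => 0) hz0
    have e3 : ∑ l ∈ Finset.Ico 1 u, lc g (fz (T + s) P) (fz (T + s) V) u l *
        (if l = m then (1 : ℝ) else 0) = lc g (fz (T + s) P) (fz (T + s) V) u m := by
      rw [Finset.sum_eq_single m]
      · rw [if_pos rfl, mul_one]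
      · intro l _ hl
        rw [if_neg hl, mul_zero]
      · intro hl
        exact absurd (Finset.mem_Ico.2 ⟨hm1, hmu⟩) hl
    have e4 : ∑ l ∈ Finset.Ico 1 u, lc g (fz (T + s) P) (fz (T + s) V) u l * (0 : ℝ) = 0 :=
      Finset.sum_eq_zero fun l _ => mul_zero _
    rw [e3] at e1
    rw [e4] at e2
    rw [hd, Polynomial.eval_sub]
    constructor
    · rw [abs_le] at e1 e2 ⊢
      constructor <;> linarith [e1.1, e1.2, e2.1, e2.2]
    · rw [abs_le] at e1' e2' ⊢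
      constructor <;> linarith [e1'.1, e1'.2, e2'.1, e2'.2]
  have dd : d.natDegree ≤ K * (K + 1) ^ (n + 1) := by
    rw [hd]
    exact (Polynomial.natDegree_sub_le _ _).trans (max_le (fd _) (fd _))
  have k := (h2 d (1 / 2 ^ g 0) (2 * ((n + 2) * E ^ a₁)) dd hg0 fun s hs => (de s hs).2).2 h hh
  have k' : |d.eval h - d.eval 0| ≤ Cm * (2 * ((n + 2) * E ^ a₁)) * (2 ^ g 0 * |h|) := by
    rw [mul_one_div, div_le_iff₀ (by positivity)] at k
    calc |d.eval h - d.eval 0| ≤ Cm * (2 * ((n + 2) * E ^ a₁)) * |h| * 2 ^ g 0 := k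
      _ = _ := by ring
  have k0 := (de 0 (by rw [abs_zero]; exact hg0.le)).1
  have kh := (de h hh).1
  have e6 : lc g (fz (T + h) P) (fz (T + h) V) u m - lc g (fz (T + 0) P) (fz (T + 0) V) u m =
      (d.eval h - d.eval 0) - (d.eval h - lc g (fz (T + h) P) (fz (T + h) V) u m) +
      (d.eval 0 - lc g (fz (T + 0) P) (fz (T + 0) V) u m) := by ring
  rw [e6]
  refine (abs_add_le _ _).trans ((add_le_add ((abs_sub _ _).trans (add_le_add k' kh)) k0).trans ?_)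
  have e7 : Cm * (2 * ((n + 2) * E ^ a₁)) * (2 ^ g 0 * |h|) ≤ E ^ (a₁ + 1) * (2 ^ g 0 * |h|) := by
    refine mul_le_mul_of_nonneg_right ?_ (by positivity)
    rw [pow_succ, mul_comm (E ^ a₁) E]
    calc Cm * (2 * ((n + 2) * E ^ a₁)) = (2 * Cm * (n + 2)) * E ^ a₁ := by ring
      _ ≤ E * E ^ a₁ := mul_le_mul_of_nonneg_right hc3 (by positivity)
  have e8 : 2 * (E ^ a₁ / σ) + 2 * (E ^ a₁ / σ) ≤ E ^ (a₁ + 1) * (1 / σ) := by
    have : 2 * (E ^ a₁ / σ) + 2 * (E ^ a₁ / σ) = 4 * E ^ a₁ * (1 / σ) := by ring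
    rw [this, pow_succ, mul_comm (E ^ a₁) E]
    exact mul_le_mul_of_nonneg_right (mul_le_mul_of_nonneg_right hc2 (by positivity))
      (by positivity)
  rw [mul_add]
  linarith

end Pool.P5L
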