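import Pool.Agent.H12.P5.LfB

/-!
# P5: the velocities of the leaf points
-/

set_option autoImplicit false

namespace Pool.P5L

open Finset Real MvPolynomial
open Pool.Agent.H49.Ent Pool.Agent.H32.Dense Pool.STK Pool.STAT Pool.MIC.Frm Pool.MIC7 Pool.FRM
open Pool.P4O (Sy Cls Lv lc lc0 SS lin pw pw1 aff lin_bd SS_le)

/-- The frames at all times of the window. -/
structure Sg (n K a : ℕ) (E T σ : ℝ) (g g₀ : ℕ → ℕ) (P V : ℕ → PN) : Prop where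
  tP : TriN P
  tV : TriN V
  dP : ∀ l, (P l).totalDegree ≤ K
  dV : ∀ l, (V l).totalDegree ≤ K
  fr : ∀ h : ℝ, |h| ≤ 1 / 2 ^ g 0 → Fr n K a E (T + h) σ g g₀ (fz (T + h) P) (fz (T + h) V)

/-- The velocity of a leaf point. -/
noncomputable def vl (g : ℕ → ℕ) (So : ℕ → Prop) (T : ℝ) (P V : ℕ → PN) (ζ : ℕ → ℝ)
    (u : ℕ) : ℝ := (lfq g So T P V ζ u).coeff 1

/-- Coordinate vectors. -/
noncomputable def ek (k l : ℕ) : ℝ := if l = k then 1 else 0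

theorem ek_le (k l : ℕ) : |ek k l| ≤ 1 := by
  unfold ek
  split_ifs
  · rw [abs_one]
  · rw [abs_zero]
    exact zero_le_one

theorem vl_so {g : ℕ → ℕ} {So : ℕ → Prop} {T : ℝ} {P V : ℕ → PN} (hP : TriN P) (hV : TriN V)
    (ζ : ℕ → ℝ) {u : ℕ} (hu : 1 ≤ u) (hs : So u) : vl g So T P V ζ u = 0 := by
  have e : lfq g So T P V ζ u = Polynomial.C (ζ u) := Polynomial.funext fun h => by
    rw [lfq_eval, lfb_so hP hV ζ h hu hs, Polynomial.eval_C]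
  unfold vl
  rw [e, Polynomial.coeff_C, if_neg one_ne_zero]

theorem zero_lea {n a : ℕ} {E : ℝ} (hE : 1 ≤ E) {So : ℕ → Prop} :
    ∀ l, So l → |(fun _ : ℕ => (0 : ℝ)) l| ≤ E ^ a := fun _ _ => by
  rw [abs_zero]
  positivity

open Classical in
/-- **One frame.** -/
theorem sg1 (hB : B3) (n K a : ℕ) : ∃ (a' : ℕ) (c₀ : ℝ), ∀ (E T σ : ℝ) (g g₀ : ℕ → ℕ)
    (So : ℕ → Prop) (P V : ℕ → PN), 1 ≤ E → c₀ ≤ E → 1 ≤ σ → (∀ l, So l → 1 ≤ l ∧ l < n) →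
    Sg n K a E T σ g g₀ P V → ∀ ζ : ℕ → ℝ, (∀ l, So l → |ζ l| ≤ E ^ a) → ∀ u, 1 ≤ u → u ≤ n →
    (∀ h, |h| ≤ 1 / 2 ^ g 0 → |(lfq g So T P V ζ u).eval h| ≤ E ^ a') ∧
    |vl g So T P V ζ u| ≤ E ^ a' * 2 ^ g 0 ∧
    |vl g So T P V ζ u - vl g So T P V (fun _ => 0) u - ∑ k ∈ (range n).filter So,
      ζ k * (vl g So T P V (ek k) u - vl g So T P V (fun _ => 0) u)| ≤ E ^ a' / σ * 2 ^ g 0 := by
  obtain ⟨a₁, c₁, h1⟩ := hB n K a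
  obtain ⟨Cm, hCm, h2⟩ := mk1 ((K + 1) * (K + 1) ^ (n + 1))
  refine ⟨a₁ + 1, max c₁ Cm, ?_⟩
  intro E T σ g g₀ So P V hE hc hσ hSo hS ζ hζ u hu1 hun
  have hc1 : c₁ ≤ E := (le_max_left _ _).trans hc
  have hc2 : Cm ≤ E := (le_max_right _ _).trans hc
  have hρ : (0 : ℝ) < 1 / 2 ^ g 0 := by positivity
  have hσ0 : 0 < σ := by linarith
  have key : ∀ h : ℝ, |h| ≤ 1 / 2 ^ g 0 → |(lfq g So T P V ζ u).eval h| ≤ E ^ a₁ ∧
      |((lfq g So T P V ζ u).eval h - (lfq g So T P V (fun _ => 0) u).eval h) -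
        ∑ k ∈ (range n).filter So, ζ k * ((lfq g So T P V (ek k) u).eval h -
          (lfq g So T P V (fun _ => 0) u).eval h)| ≤ E ^ a₁ / σ := by
    intro h hh
    have k := h1 E (T + h) σ g g₀ So (fz (T + h) P) (fz (T + h) V) hE hc1 hσ hSo (hS.fr h hh) ζ
      (lfb g So T P V ζ h) (lfb g So T P V (fun _ => 0) h) (fun k => lfb g So T P V (ek k) h) hζ
      (lfb_lf hS.tP hS.tV ζ h) (lfb_lf hS.tP hS.tV _ h) (fun k _ => lfb_lf hS.tP hS.tV (ek k) h)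
      u hu1 hun
    have e : ∀ ζ' : ℕ → ℝ, nat g (fz (T + h) P) (lfb g So T P V ζ' h) u =
        (lfq g So T P V ζ' u).eval h := fun ζ' => by
      rw [nat_fz' g P (lfb_zero hS.tP hS.tV ζ' h) hu1, lfq_eval]
    simp only [e] at k
    exact k
  have d0 : ∀ ζ' : ℕ → ℝ, (lfq g So T P V ζ' u).natDegree ≤ (K + 1) * (K + 1) ^ (n + 1) :=
    fun ζ' => lfq_deg hS.tP hS.tV hS.dP hS.dV ζ' hun
  have q1 : E ^ a₁ ≤ E ^ (a₁ + 1) := pw hE (by omega)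
  have q2 : Cm * E ^ a₁ ≤ E ^ (a₁ + 1) := by
    rw [pow_succ, mul_comm (E ^ a₁)]
    exact mul_le_mul_of_nonneg_right hc2 (by positivity)
  have pg : (0 : ℝ) < 2 ^ g 0 := by positivity
  refine ⟨fun h hh => (key h hh).1.trans q1, ?_, ?_⟩
  · have k := (h2 _ (1 / 2 ^ g 0) (E ^ a₁) (d0 ζ) hρ fun h hh => (key h hh).1).1
    rw [mul_one_div, div_le_iff₀ pg] at k
    exact k.trans (mul_le_mul_of_nonneg_right q2 pg.le)
  · obtain ⟨p, hp⟩ : ∃ p : Polynomial ℝ, p = (lfq g So T P V ζ u - lfq g So T P V (fun _ => 0) u) -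
      ∑ k ∈ (range n).filter So, Polynomial.C (ζ k) * (lfq g So T P V (ek k) u -
        lfq g So T P V (fun _ => 0) u) := ⟨_, rfl⟩
    have pd : p.natDegree ≤ (K + 1) * (K + 1) ^ (n + 1) := by
      rw [hp]
      refine (Polynomial.natDegree_sub_le _ _).trans (max_le
        ((Polynomial.natDegree_sub_le _ _).trans (max_le (d0 _) (d0 _))) ?_)
      refine Polynomial.natDegree_sum_le_of_forall_le _ _ fun k _ => ?_
      exact (Polynomial.natDegree_C_mul_le _ _).trans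
        ((Polynomial.natDegree_sub_le _ _).trans (max_le (d0 _) (d0 _)))
    have k := (h2 p (1 / 2 ^ g 0) (E ^ a₁ / σ) pd hρ fun h hh => by
      have k0 := (key h hh).2
      rw [hp, Polynomial.eval_sub, Polynomial.eval_sub, Polynomial.eval_finsetSum]
      simp only [Polynomial.eval_mul, Polynomial.eval_C, Polynomial.eval_sub]
      exact k0).1
    have pc : p.coeff 1 = vl g So T P V ζ u - vl g So T P V (fun _ => 0) u -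
        ∑ k ∈ (range n).filter So,
          ζ k * (vl g So T P V (ek k) u - vl g So T P V (fun _ => 0) u) := by
      rw [hp, Polynomial.coeff_sub, Polynomial.coeff_sub, Polynomial.finsetSum_coeff]
      simp only [Polynomial.coeff_C_mul, Polynomial.coeff_sub]
      rfl
    rw [pc, mul_one_div, div_le_iff₀ pg] at k
    refine k.trans (mul_le_mul_of_nonneg_right ?_ pg.le)
    rw [← mul_div_assoc]
    exact div_le_div_of_nonneg_right q2 hσ0.le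

open Classical in
/-- **The linear lemma for two frames.** -/
theorem prx (n K a : ℕ) : ∃ (a' : ℕ) (c₀ : ℝ), ∀ (E T σ Y : ℝ) (g g₀ : ℕ → ℕ)
    (So Sl : ℕ → Prop) (P V : ℕ → PN) (x : ℕ → Polynomial ℝ) (p : ℕ), 1 ≤ E → c₀ ≤ E → 1 ≤ Y →
    Y ^ 2 ≤ σ → (∀ l, So l → 1 ≤ l ∧ l < n) → (∀ l, Sl l → 1 ≤ l ∧ l < n) →
    Sg n K a E T σ g g₀ P V → (∀ u ≤ n, (x u).natDegree ≤ (K + 1) * (K + 1) ^ (n + 1)) →
    (∀ h, |h| ≤ 1 / (Y ^ 2 * 2 ^ g 0) → ∀ k, So k → (x k).eval h = 0) →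
    (∀ h, |h| ≤ 1 / (Y ^ 2 * 2 ^ g 0) → ∀ u, 1 ≤ u → u ≤ n → ¬ So u →
      |(x u).eval h - ∑ m ∈ Finset.Ico 1 u, lc g (fz (T + h) P) (fz (T + h) V) u m *
        (x m).eval h| ≤ E ^ a / Y ^ p) →
    (∀ h, |h| ≤ 1 / (Y ^ 2 * 2 ^ g 0) → ∀ u, 1 ≤ u → u ≤ n → ¬ Sl u →
      |(x u).eval h - ∑ m ∈ Finset.Ico 1 u, lc g (fz (T + h) P) (fz (T + h) V) u m *
        (x m).eval h| ≤ E ^ a / Y ^ (p + 2)) →
    ∀ u, 1 ≤ u → u ≤ n → ¬ Sl u → |(x u).coeff 1 - ∑ k ∈ (range n).filter Sl,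
      SS n Sl (lc g (fz (T + 0) P) (fz (T + 0) V)) u k * (x k).coeff 1| ≤
      E ^ a' / Y ^ p * 2 ^ g 0 := by
  obtain ⟨a₁, c₁, h1⟩ := aff n K a
  obtain ⟨a₂, c₂, h2⟩ := lc_var n K a
  obtain ⟨Cm, hCm, h3⟩ := alg1 n ((K + 1) * (K + 1) ^ (n + 1))
  obtain ⟨b₀, hb₀⟩ : ∃ b₀ : ℕ, b₀ = (a₁ + 1) * n := ⟨_, rfl⟩
  refine ⟨1 + b₀ + (a + (2 + (a₂ + (b₀ + a)))), max (max c₁ c₂) (max (Cm + n + 2) 4), ?_⟩
  intro E T σ Y g g₀ So Sl P V x p hE hc hY hYσ hSo hSl hS hN hx0 hx1 hx2 u hu1 hun hSu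
  obtain ⟨hcA, hcB⟩ := max_le_iff.1 hc
  obtain ⟨hc1, hc2⟩ := max_le_iff.1 hcA
  obtain ⟨hc3, hc4⟩ := max_le_iff.1 hcB
  have hn0 : (0 : ℝ) ≤ n := Nat.cast_nonneg n
  have hY0 : 0 < Y := by linarith
  have hY2 : 1 ≤ Y ^ 2 := one_le_pow₀ hY
  have hσ : 1 ≤ σ := hY2.trans hYσ
  have pg : (0 : ℝ) < 2 ^ g 0 := by positivity
  have hρ : 0 < 1 / (Y ^ 2 * 2 ^ g 0) := by positivity
  have hρ1 : 1 / (Y ^ 2 * 2 ^ g 0) ≤ 1 / 2 ^ g 0 := by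
    refine one_div_le_one_div_of_le pg ?_
    exact le_mul_of_one_le_left pg.le hY2
  have q1 : (1 : ℝ) ≤ E ^ a₁ := pw1 hE a₁
  have hA : ∀ h, |h| ≤ 1 / (Y ^ 2 * 2 ^ g 0) → ∀ u, 1 ≤ u → u ≤ n → ∀ m,
      |lc g (fz (T + h) P) (fz (T + h) V) u m| ≤ E ^ a₁ := fun h hh u hu hun =>
    have hf := hS.fr h (hh.trans hρ1)
    (h1 E (T + h) σ g g₀ _ _ hE hc1 hσ hf.hP hf.hV hf.PV hf.PV0 hf.lv u hu hun).1
  have hv : ∀ h, |h| ≤ 1 / (Y ^ 2 * 2 ^ g 0) → ∀ u, 1 ≤ u → u ≤ n → ∀ m, 1 ≤ m → m < u →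
      |lc g (fz (T + h) P) (fz (T + h) V) u m - lc g (fz (T + 0) P) (fz (T + 0) V) u m| ≤
        E ^ a₂ * (2 / Y ^ 2) := fun h hh u hu hun m hm1 hm2 => by
    refine (h2 E T σ g g₀ P V hE hc2 hσ hS.tP hS.tV hS.dP hS.dV hS.fr h (hh.trans hρ1) u hu hun m
      hm1 hm2).trans (mul_le_mul_of_nonneg_left ?_ (by positivity))
    have e1 : 2 ^ g 0 * |h| ≤ 1 / Y ^ 2 := by
      calc 2 ^ g 0 * |h| ≤ 2 ^ g 0 * (1 / (Y ^ 2 * 2 ^ g 0)) :=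
            mul_le_mul_of_nonneg_left hh pg.le
        _ = 1 / Y ^ 2 := by field_simp
    have e2 : 1 / σ ≤ 1 / Y ^ 2 := one_div_le_one_div_of_le (by positivity) hYσ
    have e3 : (2 : ℝ) / Y ^ 2 = 1 / Y ^ 2 + 1 / Y ^ 2 := by ring
    linarith
  have k := (h3 So Sl (E ^ a₁) (1 / (Y ^ 2 * 2 ^ g 0)) (E ^ a₂ * (2 / Y ^ 2)) (E ^ a / Y ^ p)
    (E ^ a / Y ^ (p + 2)) x (fun h => lc g (fz (T + h) P) (fz (T + h) V)) hSo hSl q1 hρ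
    (by positivity) (by positivity) (by positivity) hN hA hv hx0 hx1 hx2).2 u hu1 hun hSu
  obtain ⟨B, hB⟩ : ∃ B : ℝ, B = (((n : ℝ) + 2) * E ^ a₁) ^ n := ⟨_, rfl⟩
  have hB0 : 0 ≤ B := by rw [hB]; positivity
  have hBE : B ≤ E ^ b₀ := by
    rw [hB, hb₀]
    exact lin_bd hE le_rfl (by linarith)
  rw [← hB, mul_one_div, div_le_iff₀ (by positivity)] at k
  refine k.trans ?_
  have qb : (1 : ℝ) ≤ E ^ b₀ := pw1 hE b₀
  have qa : (1 : ℝ) ≤ E ^ a := pw1 hE a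
  have qa2 : (1 : ℝ) ≤ E ^ a₂ := pw1 hE a₂
  have e1 : n * (E ^ a₂ * (2 / Y ^ 2)) * (B * (E ^ a / Y ^ p)) =
      (2 * n * (E ^ a₂ * (B * E ^ a))) / Y ^ (p + 2) := by
    rw [pow_add Y p 2]
    field_simp
  have e2 : 2 * n * (E ^ a₂ * (B * E ^ a)) ≤ E ^ (1 + (a₂ + (b₀ + a))) * 2 := by
    rw [pow_add, pow_one, pow_add, pow_add]
    have h5 : E ^ a₂ * (B * E ^ a) ≤ E ^ a₂ * (E ^ b₀ * E ^ a) :=
      mul_le_mul_of_nonneg_left (mul_le_mul_of_nonneg_right hBE (by positivity)) (by positivity)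
    have h6 : (0 : ℝ) ≤ E ^ a₂ * (E ^ b₀ * E ^ a) := by positivity
    have h7 : (n : ℝ) ≤ E := by linarith
    calc 2 * (n : ℝ) * (E ^ a₂ * (B * E ^ a)) ≤ 2 * n * (E ^ a₂ * (E ^ b₀ * E ^ a)) :=
          mul_le_mul_of_nonneg_left h5 (by positivity)
      _ ≤ 2 * E * (E ^ a₂ * (E ^ b₀ * E ^ a)) :=
          mul_le_mul_of_nonneg_right (by linarith) h6
      _ = _ := by ring
  have e3 : E ^ a / Y ^ (p + 2) + n * (E ^ a₂ * (2 / Y ^ 2)) * (B * (E ^ a / Y ^ p)) ≤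
      E ^ (a + (2 + (a₂ + (b₀ + a)))) / Y ^ (p + 2) := by
    rw [e1, ← add_div]
    refine div_le_div_of_nonneg_right ?_ (by positivity)
    have h5 : E ^ (a + (2 + (a₂ + (b₀ + a)))) = E ^ a * (E * E ^ (1 + (a₂ + (b₀ + a)))) := by
      rw [← pow_succ', ← pow_add]
      congr 1
      omega
    have h6 : (1 : ℝ) ≤ E ^ (1 + (a₂ + (b₀ + a))) := pw1 hE _
    have h7 : (0 : ℝ) < E ^ a * E ^ (1 + (a₂ + (b₀ + a))) := by positivity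
    have h8 : E ^ a ≤ E ^ a * E ^ (1 + (a₂ + (b₀ + a))) :=
      le_mul_of_one_le_right (by positivity) h6
    have h9 : E ^ (1 + (a₂ + (b₀ + a))) ≤ E ^ a * E ^ (1 + (a₂ + (b₀ + a))) :=
      le_mul_of_one_le_left (by positivity) qa
    rw [h5]
    nlinarith
  have e4 : E ^ (1 + b₀ + (a + (2 + (a₂ + (b₀ + a))))) / Y ^ p * 2 ^ g 0 =
      (E * (E ^ b₀ * (E ^ (a + (2 + (a₂ + (b₀ + a)))) / Y ^ (p + 2)))) * (Y ^ 2 * 2 ^ g 0) := by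
    rw [pow_add E (1 + b₀), pow_add E 1 b₀, pow_one, pow_add Y p 2]
    field_simp
  rw [e4]
  refine mul_le_mul_of_nonneg_right ?_ (by positivity)
  refine mul_le_mul (by linarith) ?_ (by positivity) (by linarith)
  exact mul_le_mul hBE e3 (by positivity) (by positivity)

end Pool.P5L
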