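import Pool.Agent.H12.P5.LfC

/-!
# P5: the velocities of the leaves of two close frames, of a path
-/

set_option autoImplicit false

namespace Pool.P5L

open Finset Real MvPolynomial
open Pool.Agent.H49.Ent Pool.Agent.H32.Dense Pool.STK Pool.STAT Pool.MIC.Frm Pool.MIC7 Pool.FRM
open Pool.P4O (Sy Cls Lv lc lc0 SS lin pw pw1 aff lin_bd SS_le)

theorem Fr.mono {n K a a' : ℕ} {E t σ : ℝ} {g g₀ : ℕ → ℕ} {P V : ℕ → PN} (hE : 1 ≤ E)
    (hσ : 0 ≤ σ) (h : Fr n K a E t σ g g₀ P V) (ha : a ≤ a') : Fr n K a' E t σ g g₀ P V :=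
  ⟨h.hP, h.hV, h.PV.mono (pw hE ha), h.PV0.mono (pw hE ha), h.lv.mono hσ (pw hE ha)⟩

theorem Sg.mono {n K a a' : ℕ} {E T σ : ℝ} {g g₀ : ℕ → ℕ} {P V : ℕ → PN} (hE : 1 ≤ E)
    (hσ : 0 ≤ σ) (h : Sg n K a E T σ g g₀ P V) (ha : a ≤ a') : Sg n K a' E T σ g g₀ P V :=
  ⟨h.tP, h.tV, h.dP, h.dV, fun s hs => (h.fr s hs).mono hE hσ ha⟩

theorem lfq_nat {g : ℕ → ℕ} {So : ℕ → Prop} {T : ℝ} {P V : ℕ → PN} (hP : TriN P) (hV : TriN V)
    (ζ : ℕ → ℝ) (h : ℝ) {u : ℕ} (hu : 1 ≤ u) :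
    nat g (fz (T + h) P) (lfb g So T P V ζ h) u = (lfq g So T P V ζ u).eval h := by
  rw [nat_fz' g P (lfb_zero hP hV ζ h) hu, lfq_eval]

theorem lfq_so {g : ℕ → ℕ} {So : ℕ → Prop} {T : ℝ} {P V : ℕ → PN} (hP : TriN P) (hV : TriN V)
    (ζ : ℕ → ℝ) (h : ℝ) {u : ℕ} (hu : 1 ≤ u) (hs : So u) :
    (lfq g So T P V ζ u).eval h = ζ u := by
  rw [lfq_eval, lfb_so hP hV ζ h hu hs]

/-- Numbers. -/
theorem two_pw {E : ℝ} (hE : 2 ≤ E) (a : ℕ) : 2 * E ^ a ≤ E ^ (a + 1) := by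
  rw [pow_succ, mul_comm (E ^ a)]
  exact mul_le_mul_of_nonneg_right hE (by positivity)

open Classical in
/-- **Two frames which are close at `R2`.** -/
theorem pr1 (hB : B4) (n K a : ℕ) : ∃ (a' : ℕ) (c₀ : ℝ), ∀ (E T σ Y : ℝ) (g g₀ gR : ℕ → ℕ)
    (So Sl : ℕ → Prop) (P V V' : ℕ → PN), 1 ≤ E → c₀ ≤ E → 1 ≤ Y → Y ^ 3 ≤ σ →
    (∀ l, So l → 1 ≤ l ∧ l < n) → (∀ l, Sl l → 1 ≤ l ∧ l < n) →
    Sg n K a E T σ g g₀ P V → Sg n K a E T σ g g₀ P V' → (2 : ℝ) ^ gR 0 = Y ^ 2 * 2 ^ g 0 →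
    (∀ h : ℝ, |h| ≤ 1 / 2 ^ gR 0 → Cls n gR (E ^ a) (fz (T + h) V) (fz (T + h) V')) →
    (∀ k, So k → (2 : ℝ) ^ gR k ≤ E ^ a * 2 ^ g k) →
    (∀ u, 1 ≤ u → u ≤ n → ¬ So u → Y * 2 ^ g u ≤ E ^ a * 2 ^ gR u) →
    (∀ u, 1 ≤ u → u ≤ n → ¬ Sl u → Y ^ 3 * 2 ^ g u ≤ E ^ a * 2 ^ gR u) →
    (∀ l, So l → Sl l) → ∀ ζ : ℕ → ℝ, (∀ l, So l → |ζ l| ≤ E ^ a) →
    ∀ u, 1 ≤ u → u ≤ n → ¬ Sl u → |(vl g So T P V ζ u - vl g So T P V' ζ u) -
      ∑ k ∈ (range n).filter Sl, SS n Sl (lc g (fz (T + 0) P) (fz (T + 0) V')) u k *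
        (vl g So T P V ζ k - vl g So T P V' ζ k)| ≤ E ^ a' / Y * 2 ^ g 0 := by
  obtain ⟨a₁, c₁, h1⟩ := hB n K a
  obtain ⟨a₂, c₂, h2⟩ := prx n K (a₁ + a + 1)
  refine ⟨a₂, max (max c₁ c₂) 2, ?_⟩
  intro E T σ Y g g₀ gR So Sl P V V' hE hc hY hYσ hSo hSl hS hS' hg0 hcl hlS hl1 hl2 hsub ζ hζ
    u hu1 hun hSu
  obtain ⟨hcA, hc3⟩ := max_le_iff.1 hc
  obtain ⟨hc1, hc2⟩ := max_le_iff.1 hcA
  have hY0 : 0 < Y := by linarith
  have hσ : 1 ≤ σ := (one_le_pow₀ hY).trans hYσ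
  have hσ0 : 0 < σ := by linarith
  have hY2σ : Y ^ 2 ≤ σ := (pow_le_pow_right₀ hY (by omega)).trans hYσ
  have hY1σ : Y ≤ σ := by
    refine le_trans ?_ hYσ
    calc Y = Y ^ 1 := (pow_one Y).symm
      _ ≤ Y ^ 3 := pow_le_pow_right₀ hY (by omega)
  have pg : (0 : ℝ) < 2 ^ g 0 := by positivity
  have hρ1 : (1 : ℝ) / 2 ^ gR 0 ≤ 1 / 2 ^ g 0 := by
    rw [hg0]
    refine one_div_le_one_div_of_le pg ?_
    exact le_mul_of_one_le_left pg.le (one_le_pow₀ hY)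
  have key : ∀ h, |h| ≤ 1 / (Y ^ 2 * 2 ^ g 0) → ∀ u, 1 ≤ u → u ≤ n → ¬ So u →
      |((lfq g So T P V ζ u) - (lfq g So T P V' ζ u)).eval h - ∑ m ∈ Finset.Ico 1 u,
        lc g (fz (T + h) P) (fz (T + h) V') u m *
          ((lfq g So T P V ζ m) - (lfq g So T P V' ζ m)).eval h| ≤
        E ^ a₁ * (2 ^ g u / 2 ^ gR u + 1 / σ) := by
    intro h hh u hu1 hun hsu
    rw [← hg0] at hh
    have k := h1 E (T + h) σ g g₀ gR So (fz (T + h) P) (fz (T + h) V) (fz (T + h) V') hE hc1 hσ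
      hSo (hS.fr h (hh.trans hρ1)) (hS'.fr h (hh.trans hρ1)) (hcl h hh) hlS ζ
      (lfb g So T P V ζ h) (lfb g So T P V' ζ h) hζ (lfb_lf hS.tP hS.tV ζ h)
      (lfb_lf hS'.tP hS'.tV ζ h) u hu1 hun hsu
    rw [lfq_nat hS.tP hS.tV ζ h hu1, lfq_nat hS'.tP hS'.tV ζ h hu1] at k
    rw [Polynomial.eval_sub]
    have e : ∑ m ∈ Finset.Ico 1 u, lc g (fz (T + h) P) (fz (T + h) V') u m *
        (nat g (fz (T + h) P) (lfb g So T P V ζ h) m - nat g (fz (T + h) P)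
          (lfb g So T P V' ζ h) m) = ∑ m ∈ Finset.Ico 1 u,
        lc g (fz (T + h) P) (fz (T + h) V') u m *
          ((lfq g So T P V ζ m) - (lfq g So T P V' ζ m)).eval h :=
      Finset.sum_congr rfl fun m hm => by
        rw [Finset.mem_Ico] at hm
        rw [lfq_nat hS.tP hS.tV ζ h hm.1, lfq_nat hS'.tP hS'.tV ζ h hm.1, Polynomial.eval_sub]
    rw [e] at k
    exact k
  have num : ∀ (q : ℕ) (s : ℝ), Y ^ q ≤ σ → Y ^ q * s ≤ E ^ a → 0 ≤ s →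
      E ^ a₁ * (s + 1 / σ) ≤ E ^ (a₁ + a + 1) / Y ^ q := by
    intro q s hq hs hs0
    have hq0 : 0 < Y ^ q := by positivity
    have e1 : s ≤ E ^ a / Y ^ q := by
      rw [le_div_iff₀ hq0]
      linarith
    have e2 : 1 / σ ≤ E ^ a / Y ^ q :=
      div_le_div₀ (by positivity) (pw1 hE a) hq0 hq
    calc E ^ a₁ * (s + 1 / σ) ≤ E ^ a₁ * (E ^ a / Y ^ q + E ^ a / Y ^ q) :=
          mul_le_mul_of_nonneg_left (add_le_add e1 e2) (by positivity)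
      _ = (2 * E ^ (a₁ + a)) / Y ^ q := by
          rw [pow_add]
          ring
      _ ≤ _ := div_le_div_of_nonneg_right (two_pw hc3 _) hq0.le
  have fin := h2 E T σ Y g g₀ So Sl P V' (fun u => lfq g So T P V ζ u - lfq g So T P V' ζ u) 1 hE
    hc2 hY hY2σ hSo hSl (hS'.mono hE hσ0.le (by omega)) (fun u hu =>
      (Polynomial.natDegree_sub_le _ _).trans (max_le (lfq_deg hS.tP hS.tV hS.dP hS.dV ζ hu)
        (lfq_deg hS'.tP hS'.tV hS'.dP hS'.dV ζ hu)))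
    (fun h _ k hk => by
      rw [Polynomial.eval_sub, lfq_so hS.tP hS.tV ζ h (hSo k hk).1 hk,
        lfq_so hS'.tP hS'.tV ζ h (hSo k hk).1 hk, sub_self])
    (fun h hh u hu1 hun hsu => (key h hh u hu1 hun hsu).trans (num 1 _ (by rwa [pow_one]) (by
      rw [pow_one, ← mul_div_assoc, div_le_iff₀ (by positivity)]
      exact hl1 u hu1 hun hsu) (by positivity)))
    (fun h hh u hu1 hun hsu => (key h hh u hu1 hun fun hs => hsu (hsub u hs)).trans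
      (num 3 _ hYσ (by
        rw [← mul_div_assoc, div_le_iff₀ (by positivity)]
        exact hl2 u hu1 hun hsu) (by positivity))) u hu1 hun hSu
  simp only [Polynomial.coeff_sub, pow_one] at fin
  exact fin

open Classical in
/-- **Two frames which are close at `R''`.** -/
theorem pr2 (hB : B5) (n K a : ℕ) : ∃ (a' : ℕ) (c₀ : ℝ), ∀ (E T σ Y : ℝ) (g g₀ gS : ℕ → ℕ)
    (So Sl : ℕ → Prop) (P V V' : ℕ → PN), 1 ≤ E → c₀ ≤ E → 1 ≤ Y → Y ^ 4 ≤ σ →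
    (∀ l, So l → 1 ≤ l ∧ l < n) → (∀ l, Sl l → 1 ≤ l ∧ l < n) →
    Sg n K a E T σ g g₀ P V → Sg n K a E T σ g g₀ P V' → (2 : ℝ) ^ gS 0 = Y ^ 2 * 2 ^ g 0 →
    (∀ h : ℝ, |h| ≤ 1 / 2 ^ gS 0 → Cls n gS (E ^ a) (fz (T + h) V) (fz (T + h) V')) →
    (∀ k, So k → (2 : ℝ) ^ gS k ≤ E ^ a * 2 ^ g k) →
    (∀ u k, 1 ≤ u → u ≤ n → ¬ So u → So k →
      (2 : ℝ) ^ g u / 2 ^ gS u * (2 ^ gS k / 2 ^ g k) ≤ E ^ a / Y ^ 2) →
    (∀ u k, 1 ≤ u → u ≤ n → ¬ Sl u → So k →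
      (2 : ℝ) ^ g u / 2 ^ gS u * (2 ^ gS k / 2 ^ g k) ≤ E ^ a / Y ^ 4) →
    (∀ l, So l → Sl l) → ∀ ζ ζ₀ : ℕ → ℝ, (∀ l, So l → |ζ l| ≤ E ^ a ∧ |ζ₀ l| ≤ E ^ a) →
    ∀ u, 1 ≤ u → u ≤ n → ¬ Sl u →
      |((vl g So T P V ζ u - vl g So T P V ζ₀ u) - (vl g So T P V' ζ u - vl g So T P V' ζ₀ u)) -
      ∑ k ∈ (range n).filter Sl, SS n Sl (lc g (fz (T + 0) P) (fz (T + 0) V')) u k *
        ((vl g So T P V ζ k - vl g So T P V ζ₀ k) - (vl g So T P V' ζ k - vl g So T P V' ζ₀ k))| ≤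
        E ^ a' / Y * 2 ^ g 0 := by
  obtain ⟨a₁, c₁, h1⟩ := hB n K a
  obtain ⟨a₂, c₂, h2⟩ := prx n K (a₁ + a + 1)
  refine ⟨a₂, max (max c₁ c₂) 2, ?_⟩
  intro E T σ Y g g₀ gS So Sl P V V' hE hc hY hYσ hSo hSl hS hS' hg0 hcl hlS hl1 hl2 hsub ζ ζ₀ hζ
    u hu1 hun hSu
  obtain ⟨hcA, hc3⟩ := max_le_iff.1 hc
  obtain ⟨hc1, hc2⟩ := max_le_iff.1 hcA
  have hY0 : 0 < Y := by linarith
  have hσ : 1 ≤ σ := (one_le_pow₀ hY).trans hYσ
  have hσ0 : 0 < σ := by linarith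
  have hY2σ : Y ^ 2 ≤ σ := (pow_le_pow_right₀ hY (by omega)).trans hYσ
  have pg : (0 : ℝ) < 2 ^ g 0 := by positivity
  have hρ1 : (1 : ℝ) / 2 ^ gS 0 ≤ 1 / 2 ^ g 0 := by
    rw [hg0]
    refine one_div_le_one_div_of_le pg ?_
    exact le_mul_of_one_le_left pg.le (one_le_pow₀ hY)
  obtain ⟨x, hx⟩ : ∃ x : ℕ → Polynomial ℝ, x = fun u =>
    (lfq g So T P V ζ u - lfq g So T P V ζ₀ u) - (lfq g So T P V' ζ u - lfq g So T P V' ζ₀ u) :=
    ⟨_, rfl⟩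
  have xe : ∀ u h, (x u).eval h = ((lfq g So T P V ζ u).eval h - (lfq g So T P V ζ₀ u).eval h) -
      ((lfq g So T P V' ζ u).eval h - (lfq g So T P V' ζ₀ u).eval h) := fun u h => by
    rw [hx]
    simp only [Polynomial.eval_sub]
  have key : ∀ h, |h| ≤ 1 / (Y ^ 2 * 2 ^ g 0) → ∀ u, 1 ≤ u → u ≤ n → ¬ So u → ∀ θ : ℝ, 0 ≤ θ →
      (∀ k, So k → (2 : ℝ) ^ g u / 2 ^ gS u * (2 ^ gS k / 2 ^ g k) ≤ θ) →
      |(x u).eval h - ∑ m ∈ Finset.Ico 1 u,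
        lc g (fz (T + h) P) (fz (T + h) V') u m * (x m).eval h| ≤ E ^ a₁ * (θ + 1 / σ) := by
    intro h hh u hu1 hun hsu θ hθ hθ1
    rw [← hg0] at hh
    have k := h1 E (T + h) σ g g₀ gS So (fz (T + h) P) (fz (T + h) V) (fz (T + h) V') hE hc1 hσ
      hSo (hS.fr h (hh.trans hρ1)) (hS'.fr h (hh.trans hρ1)) (hcl h hh) hlS ζ ζ₀
      (lfb g So T P V ζ h) (lfb g So T P V ζ₀ h) (lfb g So T P V' ζ h) (lfb g So T P V' ζ₀ h) hζ
      (lfb_lf hS.tP hS.tV ζ h) (lfb_lf hS.tP hS.tV ζ₀ h)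
      (lfb_lf hS'.tP hS'.tV ζ h) (lfb_lf hS'.tP hS'.tV ζ₀ h) u hu1 hun hsu θ hθ hθ1
    have e0 : ∀ m, 1 ≤ m → ((nat g (fz (T + h) P) (lfb g So T P V ζ h) m - nat g (fz (T + h) P)
        (lfb g So T P V ζ₀ h) m) - (nat g (fz (T + h) P) (lfb g So T P V' ζ h) m -
        nat g (fz (T + h) P) (lfb g So T P V' ζ₀ h) m)) = (x m).eval h := fun m hm => by
      rw [xe, lfq_nat hS.tP hS.tV ζ h hm, lfq_nat hS'.tP hS'.tV ζ h hm,
        lfq_nat hS.tP hS.tV ζ₀ h hm, lfq_nat hS'.tP hS'.tV ζ₀ h hm]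
    rw [e0 u hu1] at k
    have e : ∑ m ∈ Finset.Ico 1 u, lc g (fz (T + h) P) (fz (T + h) V') u m *
        ((nat g (fz (T + h) P) (lfb g So T P V ζ h) m - nat g (fz (T + h) P)
        (lfb g So T P V ζ₀ h) m) - (nat g (fz (T + h) P) (lfb g So T P V' ζ h) m -
        nat g (fz (T + h) P) (lfb g So T P V' ζ₀ h) m)) = ∑ m ∈ Finset.Ico 1 u,
        lc g (fz (T + h) P) (fz (T + h) V') u m * (x m).eval h :=
      Finset.sum_congr rfl fun m hm => by rw [e0 m (Finset.mem_Ico.1 hm).1]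
    rw [e] at k
    exact k
  have num : ∀ (q : ℕ), Y ^ q ≤ σ →
      E ^ a₁ * (E ^ a / Y ^ q + 1 / σ) ≤ E ^ (a₁ + a + 1) / Y ^ q := by
    intro q hq
    have hq0 : 0 < Y ^ q := by positivity
    have e2 : 1 / σ ≤ E ^ a / Y ^ q :=
      div_le_div₀ (by positivity) (pw1 hE a) hq0 hq
    calc E ^ a₁ * (E ^ a / Y ^ q + 1 / σ) ≤ E ^ a₁ * (E ^ a / Y ^ q + E ^ a / Y ^ q) :=
          mul_le_mul_of_nonneg_left (add_le_add le_rfl e2) (by positivity)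
      _ = (2 * E ^ (a₁ + a)) / Y ^ q := by
          rw [pow_add]
          ring
      _ ≤ _ := div_le_div_of_nonneg_right (two_pw hc3 _) hq0.le
  have fin := h2 E T σ Y g g₀ So Sl P V' x 2 hE
    hc2 hY hY2σ hSo hSl (hS'.mono hE hσ0.le (by omega)) (fun u hu => by
      rw [hx]
      exact (Polynomial.natDegree_sub_le _ _).trans (max_le
        ((Polynomial.natDegree_sub_le _ _).trans (max_le (lfq_deg hS.tP hS.tV hS.dP hS.dV ζ hu)
          (lfq_deg hS.tP hS.tV hS.dP hS.dV ζ₀ hu)))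
        ((Polynomial.natDegree_sub_le _ _).trans (max_le (lfq_deg hS'.tP hS'.tV hS'.dP hS'.dV ζ hu)
          (lfq_deg hS'.tP hS'.tV hS'.dP hS'.dV ζ₀ hu)))))
    (fun h _ k hk => by
      rw [xe, lfq_so hS.tP hS.tV ζ h (hSo k hk).1 hk, lfq_so hS'.tP hS'.tV ζ h (hSo k hk).1 hk,
        lfq_so hS.tP hS.tV ζ₀ h (hSo k hk).1 hk, lfq_so hS'.tP hS'.tV ζ₀ h (hSo k hk).1 hk,
        sub_self])
    (fun h hh u hu1 hun hsu => (key h hh u hu1 hun hsu _ (by positivity)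
      fun k hk => hl1 u k hu1 hun hsu hk).trans (num 2 hY2σ))
    (fun h hh u hu1 hun hsu => (key h hh u hu1 hun (fun hs => hsu (hsub u hs)) _ (by positivity)
      fun k hk => hl2 u k hu1 hun hsu hk).trans (num 4 hYσ)) u hu1 hun hSu
  have ec : ∀ m, (x m).coeff 1 = (vl g So T P V ζ m - vl g So T P V ζ₀ m) -
      (vl g So T P V' ζ m - vl g So T P V' ζ₀ m) := fun m => by
    rw [hx]
    simp only [Polynomial.coeff_sub]
    rfl
  simp only [ec] at fin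
  refine fin.trans (mul_le_mul_of_nonneg_right ?_ pg.le)
  refine div_le_div_of_nonneg_left (by positivity) hY0 ?_
  calc Y = Y ^ 1 := (pow_one Y).symm
    _ ≤ Y ^ 2 := pow_le_pow_right₀ hY (by omega)

open Classical in
/-- **A path which is close to the own frame.** -/
theorem pth (hB : B3) (n K a N : ℕ) : ∃ (a' : ℕ) (c₀ : ℝ), ∀ (E T σ Y : ℝ) (g g₀ : ℕ → ℕ)
    (So : ℕ → Prop) (P V : ℕ → PN) (R : ℕ → Polynomial ℝ) (b : ℝ → ℕ → ℝ) (ζ : ℕ → ℝ),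
    1 ≤ E → c₀ ≤ E → 1 ≤ Y → Y ≤ σ → (∀ l, So l → 1 ≤ l ∧ l < n) →
    Sg n K a E T σ g g₀ P V → (∀ l, (R l).natDegree ≤ N) →
    (∀ h : ℝ, |h| ≤ 1 / 2 ^ g 0 → b h 0 = T + h) →
    (∀ h : ℝ, |h| ≤ 1 / 2 ^ g 0 → ∀ l, 1 ≤ l → l ≤ n → nat g P (b h) l = (R l).eval h ∧
      |(R l).eval h| ≤ E ^ a) →
    (∀ h : ℝ, |h| ≤ 1 / 2 ^ g 0 → ∀ l, 1 ≤ l → l ≤ n → ¬ So l →
      2 ^ g l * |b h l - eval (b h) (V l)| ≤ E ^ a / Y) →
    (∀ h : ℝ, |h| ≤ 1 / 2 ^ g 0 → ∀ k, So k → |(R k).eval h - ζ k| ≤ E ^ a / Y) →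
    (∀ k, So k → |ζ k| ≤ E ^ a) → ∀ u, 1 ≤ u → u ≤ n →
    |(R u).coeff 1 - vl g So T P V ζ u| ≤ E ^ a' / Y * 2 ^ g 0 := by
  obtain ⟨a₃, c₃, h3⟩ := sg1 hB n K a
  obtain ⟨a₁, c₁, h1⟩ := aff n K (a + a₃)
  obtain ⟨Cm, hCm, h2⟩ := mk1 (N + (K + 1) * (K + 1) ^ (n + 1))
  obtain ⟨b₀, hb₀⟩ : ∃ b₀ : ℕ, b₀ = (a₁ + 1) * n := ⟨_, rfl⟩
  refine ⟨1 + (b₀ + (a + a₁ + 3)), max (max c₁ c₃) (max (Cm + n + 2) 4), ?_⟩
  intro E T σ Y g g₀ So P V R b ζ hE hc hY hYσ hSo hS hN hb0 hbR hbV hbk hζ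
  obtain ⟨hcA, hcB⟩ := max_le_iff.1 hc
  obtain ⟨hc1, hc3⟩ := max_le_iff.1 hcA
  obtain ⟨hcn, hc4⟩ := max_le_iff.1 hcB
  have hn0 : (0 : ℝ) ≤ n := Nat.cast_nonneg n
  have hY0 : 0 < Y := by linarith
  have hσ : 1 ≤ σ := hY.trans hYσ
  have hσ0 : 0 < σ := by linarith
  have pg : (0 : ℝ) < 2 ^ g 0 := by positivity
  have hρ : (0 : ℝ) < 1 / 2 ^ g 0 := by positivity
  have q1 : (1 : ℝ) ≤ E ^ a₁ := pw1 hE a₁
  have qa : (1 : ℝ) ≤ E ^ a := pw1 hE a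
  obtain ⟨B, hBd⟩ : ∃ B : ℝ, B = (((n : ℝ) + 2) * E ^ a₁) ^ n := ⟨_, rfl⟩
  have hB0 : 0 ≤ B := by rw [hBd]; positivity
  have hBE : B ≤ E ^ b₀ := by
    rw [hBd, hb₀]
    exact lin_bd hE le_rfl (by linarith)
  -- the difference
  have key : ∀ h, |h| ≤ 1 / 2 ^ g 0 → ∀ u, 1 ≤ u → u ≤ n →
      |(R u).eval h - (lfq g So T P V ζ u).eval h| ≤ E ^ (b₀ + (a + a₁ + 3)) / Y := by
    intro h hh
    obtain ⟨t, ht⟩ : ∃ t : ℝ, t = T + h := ⟨_, rfl⟩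
    have hf := hS.fr h hh
    have hfA := hf.mono hE hσ0.le (show a ≤ a + a₃ by omega)
    obtain ⟨β, hβ⟩ : ∃ β : ℕ → ℝ, β = lfb g So T P V ζ h := ⟨_, rfl⟩
    have β0 : β 0 = T + h := by rw [hβ]; exact lfb_zero hS.tP hS.tV ζ h
    have βn : ∀ l, 1 ≤ l → nat g (fz (T + h) P) β l = (lfq g So T P V ζ l).eval h := fun l hl => by
      rw [hβ]
      exact lfq_nat hS.tP hS.tV ζ h hl
    have bn : ∀ l, 1 ≤ l → l ≤ n → nat g (fz (T + h) P) (b h) l = (R l).eval h :=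
      fun l hl hln => by
      rw [nat_fz' g P (hb0 h hh) hl]
      exact (hbR h hh l hl hln).1
    have fx : ∀ u, 1 ≤ u → u ≤ n → ¬ So u → |((R u).eval h - (lfq g So T P V ζ u).eval h) -
        ∑ m ∈ Finset.Ico 1 u, lc g (fz (T + h) P) (fz (T + h) V) u m *
          ((R m).eval h - (lfq g So T P V ζ m).eval h)| ≤ (E ^ a + 2 * E ^ a₁) / Y := by
      intro u hu1 hun hsu
      obtain ⟨-, -, k⟩ := h1 E (T + h) σ g g₀ (fz (T + h) P) (fz (T + h) V) hE hc1 hσ hfA.hP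
        hfA.hV hfA.PV hfA.PV0 hfA.lv u hu1 hun
      have k1 := k (b h) (hb0 h hh) fun m hm1 hm2 => by
        rw [bn m hm1 (by omega)]
        exact (hbR h hh m hm1 (by omega)).2.trans (pw hE (by omega))
      have k2 := k β β0 fun m hm1 hm2 => by
        rw [βn m hm1]
        exact ((h3 E T σ g g₀ So P V hE hc3 hσ hSo hS ζ hζ m hm1 (by omega)).1 h hh).trans
          (pw hE (by omega))
      have e1 : ∑ m ∈ Finset.Ico 1 u, lc g (fz (T + h) P) (fz (T + h) V) u m *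
          nat g (fz (T + h) P) (b h) m = ∑ m ∈ Finset.Ico 1 u,
          lc g (fz (T + h) P) (fz (T + h) V) u m * (R m).eval h :=
        Finset.sum_congr rfl fun m hm => by
          rw [Finset.mem_Ico] at hm
          rw [bn m hm.1 (by omega)]
      have e2 : ∑ m ∈ Finset.Ico 1 u, lc g (fz (T + h) P) (fz (T + h) V) u m *
          nat g (fz (T + h) P) β m = ∑ m ∈ Finset.Ico 1 u,
          lc g (fz (T + h) P) (fz (T + h) V) u m * (lfq g So T P V ζ m).eval h :=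
        Finset.sum_congr rfl fun m hm => by
          rw [Finset.mem_Ico] at hm
          rw [βn m hm.1]
      rw [e1, eval_fz' V (hb0 h hh) hu1, eval_fz' P (hb0 h hh) hu1] at k1
      rw [e2, eval_fz' V β0 hu1, eval_fz' P β0 hu1] at k2
      have e3 : (R u).eval h = 2 ^ g u * (eval (b h) (V u) - eval (b h) (P u)) +
          2 ^ g u * (b h u - eval (b h) (V u)) := by
        rw [← (hbR h hh u hu1 hun).1]
        unfold nat
        ring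
      have e4 : (lfq g So T P V ζ u).eval h = 2 ^ g u * (eval β (V u) - eval β (P u)) := by
        rw [lfq_eval, ← hβ]
        unfold nat
        have e5 : β u = eval β (V u) := by
          rw [hβ]
          exact lfb_gr hS.tP hS.tV ζ h hu1 hsu
        rw [← e5]
      have e5 : |2 ^ g u * (b h u - eval (b h) (V u))| ≤ E ^ a / Y := by
        rw [abs_mul, abs_of_pos (show (0 : ℝ) < 2 ^ g u by positivity)]
        exact hbV h hh u hu1 hun hsu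
      have e6 : ((R u).eval h - (lfq g So T P V ζ u).eval h) -
          ∑ m ∈ Finset.Ico 1 u, lc g (fz (T + h) P) (fz (T + h) V) u m *
            ((R m).eval h - (lfq g So T P V ζ m).eval h) =
          2 ^ g u * (b h u - eval (b h) (V u)) +
          (2 ^ g u * (eval (b h) (V u) - eval (b h) (P u)) -
            (lc0 g (fz (T + h) P) (fz (T + h) V) u + ∑ m ∈ Finset.Ico 1 u,
              lc g (fz (T + h) P) (fz (T + h) V) u m * (R m).eval h)) -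
          (2 ^ g u * (eval β (V u) - eval β (P u)) -
            (lc0 g (fz (T + h) P) (fz (T + h) V) u + ∑ m ∈ Finset.Ico 1 u,
              lc g (fz (T + h) P) (fz (T + h) V) u m * (lfq g So T P V ζ m).eval h)) := by
        rw [e3, e4]
        simp_rw [mul_sub (lc g (fz (T + h) P) (fz (T + h) V) u _)]
        rw [Finset.sum_sub_distrib]
        ring
      rw [e6]
      have e7 : E ^ a₁ / σ ≤ E ^ a₁ / Y := div_le_div_of_nonneg_left (by positivity) hY0 hYσ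
      refine (abs_sub _ _).trans ((add_le_add ((abs_add_le _ _).trans
        (add_le_add e5 (k1.trans e7))) (k2.trans e7)).trans (le_of_eq ?_))
      ring
    -- the linear lemma
    have hA : ∀ u, 1 ≤ u → u ≤ n → ∀ m, |lc g (fz (T + h) P) (fz (T + h) V) u m| ≤ E ^ a₁ :=
      fun u hu hun => (h1 E (T + h) σ g g₀ (fz (T + h) P) (fz (T + h) V) hE hc1 hσ hfA.hP
        hfA.hV hfA.PV hfA.PV0 hfA.lv u hu hun).1
    have xk : ∀ k, So k → |(R k).eval h - (lfq g So T P V ζ k).eval h| ≤ E ^ a / Y :=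
      fun k hk => by
      rw [lfq_so hS.tP hS.tV ζ h (hSo k hk).1 hk]
      exact hbk h hh k hk
    have qE : E ^ (b₀ + (a + a₁ + 3)) = E ^ b₀ * (E ^ a * E ^ a₁ * E ^ 3) := by
      rw [pow_add, pow_add, pow_add]
    have qb : (1 : ℝ) ≤ E ^ b₀ := pw1 hE b₀
    have qaa : E ^ a ≤ E ^ a * E ^ a₁ := le_mul_of_one_le_right (by positivity) q1
    have qaa' : E ^ a₁ ≤ E ^ a * E ^ a₁ := le_mul_of_one_le_left (by positivity) qa
    have q3 : (n : ℝ) + 3 ≤ E ^ 3 := by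
      have : (4 : ℝ) * 4 ≤ E ^ 2 := by nlinarith
      nlinarith
    intro u hu1 hun
    by_cases hsu : So u
    · refine (xk u hsu).trans (div_le_div_of_nonneg_right ?_ hY0.le)
      exact pw hE (by omega)
    · have l1 := lin hSo q1 hA (x := fun m => (R m).eval h - (lfq g So T P V ζ m).eval h)
        (e := (E ^ a + 2 * E ^ a₁) / Y) (by positivity) fx u hu1 hun hsu
      have l2 : |∑ k ∈ (range n).filter So, SS n So (lc g (fz (T + h) P) (fz (T + h) V)) u k *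
          ((R k).eval h - (lfq g So T P V ζ k).eval h)| ≤ n * (B * (E ^ a / Y)) := by
        refine (Finset.abs_sum_le_sum_abs _ _).trans ?_
        have l3 : ∀ k ∈ (range n).filter So, |SS n So (lc g (fz (T + h) P) (fz (T + h) V)) u k *
            ((R k).eval h - (lfq g So T P V ζ k).eval h)| ≤ B * (E ^ a / Y) := fun k hk => by
          rw [abs_mul]
          refine mul_le_mul ?_ (xk k (Finset.mem_filter.1 hk).2) (abs_nonneg _) hB0
          rw [hBd]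
          exact SS_le q1 hA u k
        refine (Finset.sum_le_sum l3).trans ?_
        rw [Finset.sum_const, nsmul_eq_mul]
        refine mul_le_mul_of_nonneg_right ?_ (by positivity)
        have := (Finset.card_filter_le (range n) So)
        rw [card_range] at this
        exact_mod_cast this
      rw [← hBd] at l1
      have l4 : |(R u).eval h - (lfq g So T P V ζ u).eval h| ≤
          B * ((E ^ a + 2 * E ^ a₁) / Y) + n * (B * (E ^ a / Y)) := by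
        have l5 : (R u).eval h - (lfq g So T P V ζ u).eval h =
            ((R u).eval h - (lfq g So T P V ζ u).eval h - ∑ k ∈ (range n).filter So,
              SS n So (lc g (fz (T + h) P) (fz (T + h) V)) u k *
                ((R k).eval h - (lfq g So T P V ζ k).eval h)) +
            ∑ k ∈ (range n).filter So, SS n So (lc g (fz (T + h) P) (fz (T + h) V)) u k *
                ((R k).eval h - (lfq g So T P V ζ k).eval h) := by ring
        rw [l5]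
        exact (abs_add_le _ _).trans (add_le_add l1 l2)
      refine l4.trans ?_
      have l6 : B * ((E ^ a + 2 * E ^ a₁) / Y) + n * (B * (E ^ a / Y)) =
          (B * (E ^ a + 2 * E ^ a₁ + n * E ^ a)) / Y := by ring
      rw [l6, qE]
      refine div_le_div_of_nonneg_right ?_ hY0.le
      refine mul_le_mul hBE ?_ (by positivity) (by positivity)
      have l7 : (0 : ℝ) < E ^ a * E ^ a₁ := by positivity
      have l8 : E ^ a + 2 * E ^ a₁ + n * E ^ a ≤ (n + 3) * (E ^ a * E ^ a₁) := by nlinarith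
      refine l8.trans ?_
      rw [mul_comm ((n : ℝ) + 3)]
      exact mul_le_mul_of_nonneg_left q3 l7.le
  intro u hu1 hun
  have k := (h2 (R u - lfq g So T P V ζ u) (1 / 2 ^ g 0) (E ^ (b₀ + (a + a₁ + 3)) / Y)
    ((Polynomial.natDegree_sub_le _ _).trans (max_le ((hN u).trans (Nat.le_add_right _ _))
      ((lfq_deg hS.tP hS.tV hS.dP hS.dV ζ hun).trans (Nat.le_add_left _ _)))) hρ fun h hh => by
      rw [Polynomial.eval_sub]
      exact key h hh u hu1 hun).1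
  rw [Polynomial.coeff_sub, mul_one_div, div_le_iff₀ pg] at k
  refine k.trans (mul_le_mul_of_nonneg_right ?_ pg.le)
  rw [← mul_div_assoc]
  refine div_le_div_of_nonneg_right ?_ hY0.le
  rw [pow_add E 1, pow_one]
  exact mul_le_mul_of_nonneg_right (by linarith) (by positivity)

end Pool.P5L
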