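import Pool.Agent.H12.P5.LfD
import Pool.Agent.H25.P4.LinD
import Pool.Agent.H38.P4.Nea

/-!
# P5: the frames of a cell at all times
-/

set_option autoImplicit false

namespace Pool.P5L

open Finset Real MvPolynomial
open Pool.Agent.H49.Ent Pool.Agent.H32.Dense Pool.STK Pool.STAT Pool.MIC.Frm Pool.MIC7 Pool.FRM
open Pool.GSD
open Pool.P4O (Sy Cls Lv lc lc0 SS lin pw pw1 aff lin_bd SS_le exp_pow lev_le cls_nrm cls_fr
  cls_sym cls_trans sy_fz)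
open Pool.P4 (FrP)
open Pool.P5 (Gam3 Stp Plc sl gr sl0 sl1)

/-- An own closed frame. -/
structure OwF (D : NDat2) (n K' M z : ℕ) (C : ℝ) (ω : D.Ω) (V : ℕ → PN) : Prop where
  tri : TriN V
  deg : ∀ l, (V l).totalDegree ≤ K'
  own : ∀ l ≤ n, eval (D.X ω) (V l) = D.X ω l
  near : ∀ i < M, ∀ j < M, ∀ l ≤ n,
    nrm (D.g i j) (1 / 2) (chr V (D.Φ i j ω l - V l)) ≤ exp (C * z) / 2 ^ D.g i j l

theorem OwF.zero {D : NDat2} {n K' M z : ℕ} {C : ℝ} {ω : D.Ω} {V : ℕ → PN}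
    (h : OwF D n K' M z C ω V) (b : ℕ → ℝ) : eval b (V 0) = D.X ω 0 := by
  rw [← h.own 0 (Nat.zero_le _)]
  exact Pool.SYS35.eval_congr (h.tri 0) fun i hi => absurd hi (Nat.not_lt_zero _)

/-! ### Closeness -/

/-- Two systems which are near to a third one, at all times. -/
theorem near_cls (n K c : ℕ) : ∃ (a : ℕ) (c₀ : ℝ), ∀ (E : ℝ) (g : ℕ → ℕ) (Φ P Q : ℕ → PN),
    1 ≤ E → c₀ ≤ E → TriN Φ → TriN P → TriN Q → (∀ l, (Φ l).totalDegree ≤ K) →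
    (∀ l, (P l).totalDegree ≤ K) → (∀ l, (Q l).totalDegree ≤ K) →
    (∀ l ≤ n, nrm g (1 / 2) (chr P (Φ l - P l)) ≤ E ^ c / 2 ^ g l) →
    (∀ l ≤ n, nrm g (1 / 2) (chr Q (Φ l - Q l)) ≤ E ^ c / 2 ^ g l) →
    (∀ b b', 2 ^ g 0 * |eval b (P 0) - eval b' (Q 0)| ≤ E ^ a) ∧
    ∀ t : ℝ, (∀ b, 2 ^ g 0 * |t - eval b (Q 0)| ≤ E ^ c) →
      Cls n g (E ^ a) (fz t P) (fz t Q) := by
  obtain ⟨Cs, N, hCs, h1⟩ := Pool.P4L.sys_near K (n + 1)
  obtain ⟨a', h2⟩ := cls_nrm n K (c + (c * N + 1) + 1)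
  refine ⟨a' + (c * N + 1) + 1, max Cs 2, ?_⟩
  intro E g Φ P Q hE hc hΦ hP hQ dΦ dP dQ nP nQ
  obtain ⟨hc1, hc2⟩ := max_le_iff.1 hc
  have hB : (1 : ℝ) ≤ E ^ c := pw1 hE c
  have k : ∀ l < n + 1, nrm g (1 / 2) (chr P (Q l - P l)) ≤ Cs * (E ^ c) ^ N / 2 ^ g l :=
    h1 g Φ Q P (E ^ c) hΦ hQ hP dΦ dQ dP hB (fun l hl => nQ l (by omega))
      (fun l hl => nP l (by omega))
  have kE : Cs * (E ^ c) ^ N ≤ E ^ (c * N + 1) := by
    rw [← pow_mul, pow_succ, mul_comm (E ^ (c * N))]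
    exact mul_le_mul_of_nonneg_right hc1 (by positivity)
  have pg : (0 : ℝ) < 2 ^ g 0 := by positivity
  have z0 : ∀ b b' : ℕ → ℝ, 2 ^ g 0 * |eval b (P 0) - eval b' (Q 0)| ≤ E ^ (c * N + 1) := by
    intro b b'
    have e0 : eval b' (Q 0) = eval b (Q 0) :=
      Pool.SYS35.eval_congr (hQ 0) fun i hi => absurd hi (Nat.not_lt_zero _)
    have e1 := eval_le_nrm (n := 0) (K := (chr P (Q 0 - P 0)).totalDegree)
      (F := chr P (Q 0 - P 0)) (chr_vars hP (AdxRow.vars_sub_le (hQ 0) (hP 0))) le_rfl g (B := 1)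
      le_rfl (b := zs P b) (fun i hi => absurd hi (Nat.not_lt_zero _))
    rw [chr_eval hP, map_sub, one_pow, one_mul] at e1
    have e2 := e1.trans (k 0 (by omega))
    rw [le_div_iff₀ pg] at e2
    rw [e0, abs_sub_comm, mul_comm]
    exact e2.trans kE
  refine ⟨fun b b' => (z0 b b').trans (pw hE (by omega)), fun t ht => ?_⟩
  refine Cls.mono (h2 E t g P Q (fz t Q) hE hP hQ dP dQ (fun l hl b => eval_fz t Q b hl)
    (fun b => ?_) fun l hl1 hln => ?_) (pw hE (by omega))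
  · have e1 := ht b
    have e2 := z0 b b
    have e3 : |t - eval b (P 0)| ≤ |t - eval b (Q 0)| + |eval b (P 0) - eval b (Q 0)| := by
      rw [abs_sub_comm (eval b (P 0))]
      have : t - eval b (P 0) = (t - eval b (Q 0)) + (eval b (Q 0) - eval b (P 0)) := by ring
      rw [this]
      exact abs_add_le _ _
    have e4 : E ^ c + E ^ (c * N + 1) ≤ E ^ (c + (c * N + 1) + 1) := by
      have h5 : E ^ c ≤ E ^ (c + (c * N + 1)) := pw hE (by omega)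
      have h6 : E ^ (c * N + 1) ≤ E ^ (c + (c * N + 1)) := pw hE (by omega)
      rw [pow_succ E (c + (c * N + 1))]
      nlinarith
    calc 2 ^ g 0 * |t - eval b (P 0)| ≤ 2 ^ g 0 * (|t - eval b (Q 0)| +
          |eval b (P 0) - eval b (Q 0)|) := mul_le_mul_of_nonneg_left e3 pg.le
      _ = 2 ^ g 0 * |t - eval b (Q 0)| + 2 ^ g 0 * |eval b (P 0) - eval b (Q 0)| := by ring
      _ ≤ E ^ c + E ^ (c * N + 1) := add_le_add e1 e2
      _ ≤ _ := e4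
  · exact (k l (by omega)).trans (div_le_div_of_nonneg_right (kE.trans (pw hE (by omega)))
      (by positivity))

section cell

variable {D : NDat2} {n K K' J a₀ w₀ z M : ℕ} {lam gam : ℕ → ℝ} {κ C₁ C : ℝ} {q : D.Ω → ℝ}
  {y r r2 r' r'' aa i j : ℕ}

/-! ### Levels -/

/-- The levels of two places. -/
theorem lv_p (hC₁ : 0 ≤ C₁) {c : ℕ} (hc : 4 * C₁ ≤ c) (hlam : ∀ l, 1 ≤ l → l ≤ n → lam l = 1)
    (hO : D.Ok2 n K J a₀ w₀ z M lam gam κ C₁ q) {i₁ j₁ i₂ j₂ l s : ℕ} (hi₁ : i₁ ≤ M)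
    (hj₁ : j₁ ≤ M) (hi₂ : i₂ ≤ M) (hj₂ : j₂ ≤ M) (l1 : 1 ≤ l) (ln : l ≤ n)
    (h : (i₁ : ℝ) + gam l * j₁ + s ≤ i₂ + gam l * j₂) :
    (2 : ℝ) ^ (s * z) * 2 ^ D.g i₁ j₁ l ≤ exp z ^ c * 2 ^ D.g i₂ j₂ l := by
  have hz : (0 : ℝ) ≤ z := Nat.cast_nonneg z
  have e1 := (abs_le.1 (Pool.P4L.lv_ok hO hlam hi₁ hj₁ hi₂ hj₂ l1 ln)).2
  have e2 := mul_le_mul_of_nonneg_right h hz
  have e3 := lev_le (p := s * z + D.g i₁ j₁ l) (q := D.g i₂ j₂ l) (s := 2 * C₁ * z)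
    (by push_cast; nlinarith) (by positivity)
  rw [pow_add] at e3
  refine e3.trans (mul_le_mul_of_nonneg_right ?_ (by positivity))
  refine (Real.exp_le_exp.2 ?_).trans (exp_pow z hc)
  nlinarith [mul_nonneg hC₁ hz]

/-- The levels of two coordinates at two places. -/
theorem lv_q (hC₁ : 0 ≤ C₁) {c : ℕ} (hc : 4 * C₁ ≤ c) (hlam : ∀ l, 1 ≤ l → l ≤ n → lam l = 1)
    (hO : D.Ok2 n K J a₀ w₀ z M lam gam κ C₁ q) {i₁ j₁ i₂ j₂ u k s : ℕ} (hi₁ : i₁ ≤ M)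
    (hj₁ : j₁ ≤ M) (hi₂ : i₂ ≤ M) (hj₂ : j₂ ≤ M) (u1 : 1 ≤ u) (un : u ≤ n) (k1 : 1 ≤ k)
    (kn : k ≤ n) (h : gam u * j₁ + gam k * j₂ + s ≤ gam u * j₂ + gam k * j₁) :
    (2 : ℝ) ^ D.g i₁ j₁ u / 2 ^ D.g i₂ j₂ u * (2 ^ D.g i₂ j₂ k / 2 ^ D.g i₁ j₁ k) ≤
      exp z ^ c / 2 ^ (s * z) := by
  have hz : (0 : ℝ) ≤ z := Nat.cast_nonneg z
  have e1 := (abs_le.1 (Pool.P4L.lv_ok hO hlam hi₁ hj₁ hi₂ hj₂ u1 un)).2
  have e2 := (abs_le.1 (Pool.P4L.lv_ok hO hlam hi₂ hj₂ hi₁ hj₁ k1 kn)).2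
  have e4 := mul_le_mul_of_nonneg_right h hz
  have e3 := lev_le (p := s * z + D.g i₁ j₁ u + D.g i₂ j₂ k)
    (q := D.g i₂ j₂ u + D.g i₁ j₁ k) (s := 4 * C₁ * z)
    (by push_cast; nlinarith) (by positivity)
  rw [pow_add, pow_add, pow_add] at e3
  rw [le_div_iff₀ (by positivity), div_mul_div_comm, div_mul_eq_mul_div,
    div_le_iff₀ (by positivity)]
  calc (2 : ℝ) ^ D.g i₁ j₁ u * 2 ^ D.g i₂ j₂ k * 2 ^ (s * z)
      = 2 ^ (s * z) * 2 ^ D.g i₁ j₁ u * 2 ^ D.g i₂ j₂ k := by ring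
    _ ≤ exp (4 * C₁ * z) * (2 ^ D.g i₂ j₂ u * 2 ^ D.g i₁ j₁ k) := e3
    _ ≤ exp z ^ c * (2 ^ D.g i₂ j₂ u * 2 ^ D.g i₁ j₁ k) :=
        mul_le_mul_of_nonneg_right (exp_pow z hc) (by positivity)

theorem gam_gr (h : Gam3 n gam) {u : ℕ} (u1 : 1 ≤ u) (un : u ≤ n) (hu : ¬ sl gam n u) :
    gam u = 2 := by
  rcases h.g u u1 un with h1 | h1 | h1
  · exfalso
    rcases Nat.lt_or_ge u n with h2 | h2
    · exact hu ((Pool.P5.sl_iff h u).2 (Or.inl ⟨u1, h2, h1⟩))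
    · have h3 : u = n := by omega
      rw [h3, h.gn] at h1
      norm_num at h1
  · exfalso
    rcases Nat.lt_or_ge u n with h2 | h2
    · exact hu ((Pool.P5.sl_iff h u).2 (Or.inr ⟨u1, h2, h1⟩))
    · have h3 : u = n := by omega
      rw [h3, h.gn] at h1
      norm_num at h1
  · exact h1

theorem gam_so (h : Gam3 n gam) {u : ℕ} (u1 : 1 ≤ u) (un : u ≤ n) (hu : ¬ sl0 gam n u) :
    1 ≤ gam u := by
  rcases h.g u u1 un with h1 | h1 | h1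
  · exfalso
    rcases Nat.lt_or_ge u n with h2 | h2
    · exact hu ⟨u1, h2, h1⟩
    · have h3 : u = n := by omega
      rw [h3, h.gn] at h1
      norm_num at h1
  · rw [h1]
  · rw [h1]
    norm_num

/-- The levels of `(i, j)` and `(0, j)`. -/
theorem lv_zero (hC₁ : 0 ≤ C₁) {c : ℕ} (hc : 4 * C₁ ≤ c)
    (hlam : ∀ l, 1 ≤ l → l ≤ n → lam l = 1) (hO : D.Ok2 n K J a₀ w₀ z M lam gam κ C₁ q)
    (hi : i ≤ M) (hj : j ≤ M) : Lv n (D.g i j) (D.g 0 j) (2 ^ (i * z)) (exp z ^ c) := by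
  intro m hm1 hmn
  constructor
  · have hz : (0 : ℝ) ≤ z := Nat.cast_nonneg z
    have e1 := (abs_le.1 (Pool.P4L.lv_ok hO hlam hi hj (Nat.zero_le M) hj hm1 hmn)).2
    have e3 := lev_le (p := D.g i j m) (q := i * z + D.g 0 j m) (s := 2 * C₁ * z)
      (by push_cast at e1 ⊢; nlinarith) (by positivity)
    rw [pow_add] at e3
    rw [mul_assoc]
    refine e3.trans (mul_le_mul_of_nonneg_right ?_ (by positivity))
    refine (Real.exp_le_exp.2 ?_).trans (exp_pow z hc)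
    nlinarith [mul_nonneg hC₁ hz]
  · have := lv_p (s := i) hC₁ hc hlam hO (Nat.zero_le M) hj hi hj hm1 hmn (by push_cast; linarith)
    exact this

/-- The times of the places of the window `j + r`. -/
theorem time_lv (hpl : Plc n gam y r r2 r' r'' aa M i j)
    (hO : D.Ok2 n K J a₀ w₀ z M lam gam κ C₁ q) (i' : ℕ) :
    (2 : ℝ) ^ D.g i' (j + r) 0 = (2 ^ (y * z)) ^ 2 * 2 ^ D.g i j 0 := by
  rw [hO.g_zero, hO.g_zero, ← pow_mul, ← pow_add, hpl.stp.er]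
  congr 1
  ring

/-! ### Frames -/

/-- **The frames at all times.** -/
theorem sg_cell (n K K' : ℕ) (C₁ C : ℝ) (hC₁ : 1 ≤ C₁) (hC : 0 ≤ C) : ∃ (a : ℕ) (c₀ : ℝ),
    ∀ (lam gam : ℕ → ℝ) (J a₀ w₀ z M i j : ℕ) (D : NDat2) (q : D.Ω → ℝ) (κ : ℝ) (r : ℕ)
      (P V : ℕ → PN) (ω : D.Ω), (∀ l, 1 ≤ l → l ≤ n → lam l = 1) → c₀ ≤ exp z → i < M → j < M →
      D.Ok2 n K J a₀ w₀ z M lam gam κ C₁ q → OwF D n K' M z C ω V →
      FrP D n K' z i j r C P ω →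
      Sg n (max K K') a (exp z) (D.X ω 0) (2 ^ (i * z)) (D.g i j) (D.g 0 j) P V := by
  obtain ⟨KK, hKK⟩ : ∃ KK : ℕ, KK = max K K' := ⟨_, rfl⟩
  have hK1 : K ≤ KK := by rw [hKK]; exact le_max_left _ _
  have hK2 : K' ≤ KK := by rw [hKK]; exact le_max_right _ _
  obtain ⟨c, hc⟩ := exists_nat_ge C
  obtain ⟨c4, hc4⟩ := exists_nat_ge (4 * C₁)
  obtain ⟨a₁, c₁, h1⟩ := near_cls n KK c
  refine ⟨a₁ + c4, c₁, ?_⟩
  intro lam gam J a₀ w₀ z M i j D q κ r P V ω hlam hc₀ hi hj hO hV hP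
  rw [← hKK]
  have hE : 1 ≤ exp (z : ℝ) := Real.one_le_exp (Nat.cast_nonneg z)
  have hCz : exp (C * z) ≤ exp z ^ c := exp_pow z hc
  refine ⟨hP.tri, hV.tri, fun l => (hP.deg l).trans hK2, fun l => (hV.deg l).trans hK2,
    fun h hh => ?_⟩
  have key : ∀ i' ≤ i, Cls n (D.g i' j) (exp z ^ a₁) (fz (D.X ω 0 + h) P)
      (fz (D.X ω 0 + h) V) := by
    intro i' hi'
    refine (h1 (exp z) (D.g i' j) (D.Φ i' j ω) P V hE hc₀ (hO.P_tri _ _ _) hP.tri hV.tri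
      (fun l => (hO.P_deg _ _ _ l).trans hK1) (fun l => (hP.deg l).trans hK2)
      (fun l => (hV.deg l).trans hK2) (fun l hl => ((hP.near i' hi' l hl).1).trans
        (div_le_div_of_nonneg_right hCz (by positivity)))
      (fun l hl => (hV.near i' (by omega) j hj l hl).trans
        (div_le_div_of_nonneg_right hCz (by positivity)))).2 _ fun b => ?_
    rw [hV.zero, add_sub_cancel_left, hO.g_zero, ← hO.g_zero i j]
    have pg : (0 : ℝ) < 2 ^ D.g i j 0 := by positivity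
    have e1 : 2 ^ D.g i j 0 * |h| ≤ 1 := by
      calc 2 ^ D.g i j 0 * |h| ≤ 2 ^ D.g i j 0 * (1 / 2 ^ D.g i j 0) :=
            mul_le_mul_of_nonneg_left hh pg.le
        _ = 1 := by field_simp
    exact e1.trans (pw1 hE c)
  refine ⟨sy_fz hP.tri (fun l => (hP.deg l).trans hK2) _,
    sy_fz hV.tri (fun l => (hV.deg l).trans hK2) _, (key i le_rfl).mono (pw hE (by omega)),
    (key 0 (Nat.zero_le _)).mono (pw hE (by omega)), ?_⟩
  exact (lv_zero (by linarith) hc4 hlam hO hi.le hj.le).mono (by positivity) (pw hE (by omega))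

/-- **Two own frames over a common label.** -/
theorem vv_cell (n K K' : ℕ) (C : ℝ) : ∃ (a : ℕ) (c₀ : ℝ),
    ∀ (lam gam : ℕ → ℝ) (C₁ : ℝ) (J a₀ w₀ z M i' j' : ℕ) (D : NDat2) (q : D.Ω → ℝ) (κ : ℝ)
      (V V' : ℕ → PN) (ω ω' : D.Ω), c₀ ≤ exp z → i' < M → j' < M →
      D.Ok2 n K J a₀ w₀ z M lam gam κ C₁ q → OwF D n K' M z C ω V → OwF D n K' M z C ω' V' →
      D.T ω = D.T ω' → D.c i' j' ω = D.c i' j' ω' → ∀ h : ℝ, |h| ≤ 1 / 2 ^ D.g i' j' 0 →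
      Cls n (D.g i' j') (exp z ^ a) (fz (D.X ω 0 + h) V) (fz (D.X ω 0 + h) V') := by
  obtain ⟨KK, hKK⟩ : ∃ KK : ℕ, KK = max K K' := ⟨_, rfl⟩
  have hK1 : K ≤ KK := by rw [hKK]; exact le_max_left _ _
  have hK2 : K' ≤ KK := by rw [hKK]; exact le_max_right _ _
  obtain ⟨c, hc⟩ := exists_nat_ge C
  obtain ⟨a₁, c₁, h1⟩ := near_cls n KK c
  refine ⟨a₁, c₁, ?_⟩
  intro lam gam C₁ J a₀ w₀ z M i' j' D q κ V V' ω ω' hc₀ hi hj hO hV hV' hT hcc h hh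
  have hE : 1 ≤ exp (z : ℝ) := Real.one_le_exp (Nat.cast_nonneg z)
  have hCz : exp (C * z) ≤ exp z ^ c := exp_pow z hc
  have hX : D.X ω' 0 = D.X ω 0 := by rw [hO.X_zero, hO.X_zero, hT]
  have hΦ : D.Φ i' j' ω' = D.Φ i' j' ω := by
    unfold NDat2.Φ
    rw [hcc]
  refine (h1 (exp z) (D.g i' j') (D.Φ i' j' ω) V V' hE hc₀ (hO.P_tri _ _ _) hV.tri hV'.tri
    (fun l => (hO.P_deg _ _ _ l).trans hK1) (fun l => (hV.deg l).trans hK2)
    (fun l => (hV'.deg l).trans hK2) (fun l hl => (hV.near i' hi j' hj l hl).trans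
      (div_le_div_of_nonneg_right hCz (by positivity)))
    (fun l hl => by
      rw [← hΦ]
      exact (hV'.near i' hi j' hj l hl).trans
        (div_le_div_of_nonneg_right hCz (by positivity)))).2 _ fun b => ?_
  rw [hV'.zero, hX, add_sub_cancel_left]
  have pg : (0 : ℝ) < 2 ^ D.g i' j' 0 := by positivity
  have e1 : 2 ^ D.g i' j' 0 * |h| ≤ 1 := by
    calc 2 ^ D.g i' j' 0 * |h| ≤ 2 ^ D.g i' j' 0 * (1 / 2 ^ D.g i' j' 0) :=
          mul_le_mul_of_nonneg_left hh pg.le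
      _ = 1 := by field_simp
  exact e1.trans (pw1 hE c)

/-- **The own frame and the visible labels.** -/
theorem vf_cell (n K K' : ℕ) (C : ℝ) : ∃ (a : ℕ) (c₀ : ℝ),
    ∀ (lam gam : ℕ → ℝ) (C₁ : ℝ) (J a₀ w₀ z M i' j' : ℕ) (D : NDat2) (q : D.Ω → ℝ) (κ : ℝ)
      (V : ℕ → PN) (ω : D.Ω), c₀ ≤ exp z → i' < M → j' < M → 0 < q ω →
      D.Ok2 n K J a₀ w₀ z M lam gam κ C₁ q → OwF D n K' M z C ω V →
      Cls n (D.g i' j') (exp z ^ a) (fz (D.X ω 0) V) (fr D (i', j') ω) := by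
  obtain ⟨KK, hKK⟩ : ∃ KK : ℕ, KK = max K K' := ⟨_, rfl⟩
  have hK1 : K ≤ KK := by rw [hKK]; exact le_max_left _ _
  have hK2 : K' ≤ KK := by rw [hKK]; exact le_max_right _ _
  obtain ⟨c, hc⟩ := exists_nat_ge C
  obtain ⟨a₁, h1⟩ := cls_nrm n KK c
  obtain ⟨a₂, c₂, h2⟩ := cls_sym n KK 0
  obtain ⟨a₃, c₃, h3⟩ := cls_trans n KK (a₁ + a₂)
  refine ⟨a₃, max c₂ c₃, ?_⟩
  intro lam gam C₁ J a₀ w₀ z M i' j' D q κ V ω hc₀ hi hj hω hO hV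
  obtain ⟨hc2, hc3⟩ := max_le_iff.1 hc₀
  have hE : 1 ≤ exp (z : ℝ) := Real.one_le_exp (Nat.cast_nonneg z)
  have hCz : exp (C * z) ≤ exp z ^ c := exp_pow z hc
  have syV : Sy KK (D.X ω 0) (fz (D.X ω 0) V) := sy_fz hV.tri (fun l => (hV.deg l).trans hK2) _
  have syF : Sy KK (D.X ω 0) (fz (D.X ω 0) (D.Φ i' j' ω)) :=
    sy_fz (hO.P_tri _ _ _) (fun l => (hO.P_deg _ _ _ l).trans hK1) _
  have syR : Sy KK (D.X ω 0) (fr D (i', j') ω) :=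
    sy_fz (hO.G_tri _ _ _) (fun l => (hO.G_deg _ _ _ l).trans hK1) _
  have e1 : Cls n (D.g i' j') (exp z ^ a₁) (fz (D.X ω 0) V) (fz (D.X ω 0) (D.Φ i' j' ω)) := by
    refine h1 (exp z) (D.X ω 0) (D.g i' j') V (D.Φ i' j' ω) _ hE hV.tri (hO.P_tri _ _ _)
      (fun l => (hV.deg l).trans hK2) (fun l => (hO.P_deg _ _ _ l).trans hK1)
      (fun l hl b => eval_fz _ _ b hl) (fun b => ?_) (fun l _ hln => ?_)
    · rw [hV.zero, sub_self, abs_zero, mul_zero]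
      positivity
    · exact (hV.near i' hi j' hj l hln).trans (div_le_div_of_nonneg_right hCz (by positivity))
  have e2 : Cls n (D.g i' j') (exp z ^ a₂) (fz (D.X ω 0) (D.Φ i' j' ω)) (fr D (i', j') ω) := by
    refine h2 (exp z) (D.X ω 0) (D.g i' j') (fr D (i', j') ω) _ hE hc2 syR syF ?_
    rw [pow_zero]
    exact cls_fr hO hi.le hj.le hω
  exact h3 _ _ _ _ _ _ hE hc3 syV syF syR (e1.mono (pw hE (by omega)))
    (e2.mono (pw hE (by omega)))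

end cell

end Pool.P5L
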