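import Pool.Agent.H12.P5.LfE
import Pool.Agent.H25.P4.LinE

/-!
# P5: the velocities of the line over the closed leaf
-/

set_option autoImplicit false

namespace Pool.P5L

open Finset Real MvPolynomial
open Pool.Agent.H49.Ent Pool.Agent.H32.Dense Pool.STK Pool.STAT Pool.MIC.Frm Pool.MIC7 Pool.FRM
open Pool.GSD
open Pool.P4O (Sy Cls Lv lc lc0 SS lin pw pw1 aff lin_bd SS_le exp_pow)
open Pool.P4 (FrP PthC pp ze bb rt GoodS)
open Pool.P5 (Gam3 Stp Plc sl gr sl0 sl1 b1 b2 VelStmt)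

/-! ### Real numbers -/

/-- The velocity over the leaf, numbers. -/
theorem alg_d {A B : Finset ℕ} {W s e bu vu : ℝ} {b v ze S vku : ℕ → ℝ}
    {vk : ℕ → ℕ → ℝ} (hs : ∀ l ∈ B, |S l| ≤ s)
    (hu : |bu - vu / W - ∑ k ∈ A, ze k * ((vku k - vu) / W)| ≤ e)
    (hp : ∀ l ∈ B, |b l - v l / W - ∑ k ∈ A, ze k * ((vk k l - v l) / W)| ≤ e) :
    |(bu - ∑ k ∈ A, ((vku k - vu) - ∑ l ∈ B, S l * (vk k l - v l)) / W * ze k -
      ∑ l ∈ B, S l * b l) - (vu - ∑ l ∈ B, S l * v l) / W| ≤ (1 + B.card * s) * e := by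
  have e1 : ∑ k ∈ A, ((vku k - vu) - ∑ l ∈ B, S l * (vk k l - v l)) / W * ze k =
      ∑ k ∈ A, ze k * ((vku k - vu) / W) -
      ∑ l ∈ B, S l * ∑ k ∈ A, ze k * ((vk k l - v l) / W) := by
    simp_rw [Finset.mul_sum]
    rw [Finset.sum_comm, ← Finset.sum_sub_distrib]
    refine Finset.sum_congr rfl fun k _ => ?_
    rw [sub_div, sub_mul, Finset.sum_div, Finset.sum_mul]
    congr 1
    · ring
    · exact Finset.sum_congr rfl fun l _ => by ring
  have e2 : (vu - ∑ l ∈ B, S l * v l) / W = vu / W - ∑ l ∈ B, S l * (v l / W) := by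
    rw [sub_div, Finset.sum_div]
    congr 1
    exact Finset.sum_congr rfl fun l _ => by ring
  have e3 : (bu - ∑ k ∈ A, ((vku k - vu) - ∑ l ∈ B, S l * (vk k l - v l)) / W * ze k -
      ∑ l ∈ B, S l * b l) - (vu - ∑ l ∈ B, S l * v l) / W =
      (bu - vu / W - ∑ k ∈ A, ze k * ((vku k - vu) / W)) -
      ∑ l ∈ B, S l * (b l - v l / W - ∑ k ∈ A, ze k * ((vk k l - v l) / W)) := by
    rw [e1, e2]
    simp_rw [mul_sub]
    rw [Finset.sum_sub_distrib, Finset.sum_sub_distrib]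
    ring
  rw [e3]
  have e4 : |∑ l ∈ B, S l * (b l - v l / W - ∑ k ∈ A, ze k * ((vk k l - v l) / W))| ≤
      B.card * (s * e) := by
    refine (Finset.abs_sum_le_sum_abs _ _).trans ?_
    rw [← nsmul_eq_mul]
    refine Finset.sum_le_card_nsmul _ _ _ fun l hl => ?_
    rw [abs_mul]
    exact mul_le_mul (hs l hl) (hp l hl) (abs_nonneg _) ((abs_nonneg _).trans (hs l hl))
  refine (abs_sub _ _).trans ((add_le_add hu e4).trans (le_of_eq ?_))
  ring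

open Classical in
/-- The velocities of two frames, numbers. -/
theorem alg_t {n : ℕ} {Sl B : Finset ℕ} (hB : B ⊆ Sl) {e G b du du' : ℝ} {d d' S S' s' : ℕ → ℝ}
    (he : 0 ≤ e) (hb : 0 ≤ b) (hG : 0 ≤ G) (hn : (B.card : ℝ) ≤ n)
    (h0 : ∀ l ∈ Sl, l ∉ B → d l = 0 ∧ d' l = 0)
    (hd : ∀ l ∈ B, |d l| ≤ b * G ∧ |d' l| ≤ b * G)
    (hS : ∀ l ∈ B, |S l - S' l| ≤ e ∧ |S' l - s' l| ≤ e)
    (hu : |(du - du') - ∑ k ∈ Sl, s' k * (d k - d' k)| ≤ e * G) :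
    |(du - ∑ l ∈ B, S l * d l) - (du' - ∑ l ∈ B, S' l * d' l)| ≤ (1 + 3 * n * b) * e * G := by
  have e1 : ∑ k ∈ Sl, s' k * (d k - d' k) = ∑ k ∈ B, s' k * (d k - d' k) := by
    symm
    refine Finset.sum_subset hB fun l h1 h2 => ?_
    rw [(h0 l h1 h2).1, (h0 l h1 h2).2, sub_zero, mul_zero]
  have e2 : (du - ∑ l ∈ B, S l * d l) - (du' - ∑ l ∈ B, S' l * d' l) =
      ((du - du') - ∑ k ∈ Sl, s' k * (d k - d' k)) -
      ∑ l ∈ B, ((S l - s' l) * d l - (S' l - s' l) * d' l) := by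
    rw [e1]
    have e3 : ∑ l ∈ B, ((S l - s' l) * d l - (S' l - s' l) * d' l) =
        ∑ l ∈ B, S l * d l - ∑ l ∈ B, S' l * d' l - ∑ k ∈ B, s' k * (d k - d' k) := by
      rw [← Finset.sum_sub_distrib, ← Finset.sum_sub_distrib]
      exact Finset.sum_congr rfl fun l _ => by ring
    rw [e3]
    ring
  rw [e2]
  have e4 : |∑ l ∈ B, ((S l - s' l) * d l - (S' l - s' l) * d' l)| ≤
      B.card * (3 * e * (b * G)) := by
    refine (Finset.abs_sum_le_sum_abs _ _).trans ?_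
    rw [← nsmul_eq_mul]
    refine Finset.sum_le_card_nsmul _ _ _ fun l hl => ?_
    obtain ⟨h1, h2⟩ := hd l hl
    obtain ⟨h3, h4⟩ := hS l hl
    have h5 : |S l - s' l| ≤ 2 * e := by
      have : S l - s' l = (S l - S' l) + (S' l - s' l) := by ring
      rw [this]
      exact (abs_add_le _ _).trans (by linarith)
    refine (abs_sub _ _).trans ?_
    rw [abs_mul, abs_mul]
    have h6 : |S l - s' l| * |d l| ≤ 2 * e * (b * G) :=
      mul_le_mul h5 h1 (abs_nonneg _) (by positivity)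
    have h7 : |S' l - s' l| * |d' l| ≤ e * (b * G) := mul_le_mul h4 h2 (abs_nonneg _) he
    linarith
  refine (abs_sub _ _).trans ((add_le_add hu e4).trans ?_)
  have h8 : (B.card : ℝ) * (3 * e * (b * G)) ≤ n * (3 * e * (b * G)) :=
    mul_le_mul_of_nonneg_right hn (by positivity)
  calc e * G + (B.card : ℝ) * (3 * e * (b * G)) ≤ e * G + n * (3 * e * (b * G)) := by linarith
    _ = _ := by ring

/-! ### The path over the own frame -/

/-- **The path over the own frame.** -/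
theorem pv_cell (n K K' : ℕ) (C₁ C : ℝ) (hC₁ : 1 ≤ C₁) : ∃ (a : ℕ) (c₀ : ℝ),
    ∀ (lam gam : ℕ → ℝ) (J a₀ w₀ z M i j y : ℕ) (D : NDat2) (q : D.Ω → ℝ) (κ : ℝ) (V : ℕ → PN)
      (ω : D.Ω), (∀ l, 1 ≤ l → l ≤ n → lam l = 1) → c₀ ≤ exp z → i + y < M → j < M →
      D.Ok2 n K J a₀ w₀ z M lam gam κ C₁ q → OwF D n K' M z C ω V → PthC D n w₀ z M 1 ω →
      ∀ h : ℝ, |h| ≤ 1 / 2 ^ D.g i j 0 → ∀ l, 1 ≤ l → l ≤ n →
        2 ^ D.g i j l * |pp D (D.ln ω) (D.X ω 0 + h) l -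
          eval (pp D (D.ln ω) (D.X ω 0 + h)) (V l)| ≤ exp z ^ a / 2 ^ (y * z) := by
  obtain ⟨KK, hKK⟩ : ∃ KK : ℕ, KK = max K K' := ⟨_, rfl⟩
  have hK1 : K ≤ KK := by rw [hKK]; exact le_max_left _ _
  have hK2 : K' ≤ KK := by rw [hKK]; exact le_max_right _ _
  obtain ⟨c, hc⟩ := exists_nat_ge C
  obtain ⟨c4, hc4⟩ := exists_nat_ge (4 * C₁)
  refine ⟨(c + 2) * dd (KK * (KK + 1) ^ n) n + c4, 4, ?_⟩
  intro lam gam J a₀ w₀ z M i j y D q κ V ω hlam hc₀ hi hj hO hV hω h hh l hl1 hln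
  have hE : 1 ≤ exp (z : ℝ) := Real.one_le_exp (Nat.cast_nonneg z)
  have hCz : exp (C * z) ≤ exp z ^ c := exp_pow z hc
  have q1 : exp (z : ℝ) ^ c ≤ exp z ^ (c + 1) := pw hE (by omega)
  have h1 := Pool.P4L.in_box hO hK1 hV.tri (fun l => (hV.deg l).trans hK2) (i := i + y) (j := j)
    (by omega) (by omega) (E := exp z ^ (c + 1)) (le_self_pow₀ hE (by omega)) hω
    (fun l hl => (hV.near (i + y) hi j hj l hl).trans
      (div_le_div_of_nonneg_right (hCz.trans q1) (by positivity)))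
    (t := D.X ω 0 + h) (by rw [add_sub_cancel_left]; rwa [hO.g_zero] at hh) l hln
  have h2 := lv_p (s := y) (i₁ := i) (j₁ := j) (i₂ := i + y) (j₂ := j) (by linarith) hc4 hlam hO
    (by omega) (by omega) (by omega) (by omega) hl1 hln (by push_cast; linarith)
  have h3 : (4 * exp (z : ℝ) ^ (c + 1)) ^ dd (KK * (KK + 1) ^ n) n ≤
      exp z ^ ((c + 2) * dd (KK * (KK + 1) ^ n) n) := by
    rw [pow_mul]
    refine pow_le_pow_left₀ (by positivity) ?_ _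
    rw [pow_succ (exp (z : ℝ)) (c + 1), mul_comm (exp (z : ℝ) ^ (c + 1))]
    exact mul_le_mul_of_nonneg_right hc₀ (by positivity)
  unfold zs at h1
  have pY : (0 : ℝ) < 2 ^ (y * z) := by positivity
  have pg : (0 : ℝ) < 2 ^ D.g (i + y) j l := by positivity
  rw [le_div_iff₀ pg] at h1
  rw [le_div_iff₀ pY]
  calc 2 ^ D.g i j l * |pp D (D.ln ω) (D.X ω 0 + h) l -
        eval (pp D (D.ln ω) (D.X ω 0 + h)) (V l)| * 2 ^ (y * z)
      = (2 ^ (y * z) * 2 ^ D.g i j l) * |pp D (D.ln ω) (D.X ω 0 + h) l -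
        eval (pp D (D.ln ω) (D.X ω 0 + h)) (V l)| := by ring
    _ ≤ (exp z ^ c4 * 2 ^ D.g (i + y) j l) * |pp D (D.ln ω) (D.X ω 0 + h) l -
        eval (pp D (D.ln ω) (D.X ω 0 + h)) (V l)| := mul_le_mul_of_nonneg_right h2 (abs_nonneg _)
    _ = exp z ^ c4 * (|pp D (D.ln ω) (D.X ω 0 + h) l -
        eval (pp D (D.ln ω) (D.X ω 0 + h)) (V l)| * 2 ^ D.g (i + y) j l) := by ring
    _ ≤ exp z ^ c4 * exp z ^ ((c + 2) * dd (KK * (KK + 1) ^ n) n) :=
        mul_le_mul_of_nonneg_left (h1.trans h3) (by positivity)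
    _ = _ := by rw [← pow_add, add_comm c4]

end Pool.P5L
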