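import Pool.Agent.H12.P5.LfF

/-!
# P5: the velocities of the closed leaf
-/

set_option autoImplicit false

namespace Pool.P5L

open Finset Real MvPolynomial
open Pool.Agent.H49.Ent Pool.Agent.H32.Dense Pool.STK Pool.STAT Pool.MIC.Frm Pool.MIC7 Pool.FRM
open Pool.GSD
open Pool.P4O (Sy Cls Lv lc lc0 SS lin pw pw1 aff lin_bd SS_le exp_pow)
open Pool.P4 (FrP PthC pp ze bb rt GoodS)
open Pool.P5 (Gam3 Stp Plc sl gr sl0 sl1 b1 b2 VelStmt)

/-- The velocity of the leaf point over `ζ` at the own time. -/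
noncomputable def vz (D : NDat2) (n i j : ℕ) (gam : ℕ → ℝ) (P V : ℕ → PN) (ω : D.Ω)
    (ζ : ℕ → ℝ) (u : ℕ) : ℝ :=
  vl (D.g i j) (sl0 gam n) (D.X ω 0) P V ζ u

theorem sl0_lt {n : ℕ} {gam : ℕ → ℝ} : ∀ l, sl0 gam n l → 1 ≤ l ∧ l < n := fun _ h => ⟨h.1, h.2.1⟩

theorem sl_lt {n : ℕ} {gam : ℕ → ℝ} : ∀ l, sl gam n l → 1 ≤ l ∧ l < n := fun _ h => ⟨h.1, h.2.1⟩

theorem sl1_lt {n : ℕ} {gam : ℕ → ℝ} : ∀ l, sl1 gam n l → 1 ≤ l ∧ l < n := fun _ h => ⟨h.1, h.2.1⟩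

open Classical in
/-- **One sample.** Bounds of the velocities of the leaf, and the velocity of the line over the
leaf. -/
theorem one_cell (hB : B3) (hVel : VelStmt) (n K K' : ℕ) (lam gam : ℕ → ℝ) (C₁ C : ℝ)
    (hn : 1 ≤ n) (hC₁ : 1 ≤ C₁) (hC : 0 ≤ C) (hlam : ∀ l, 1 ≤ l → l ≤ n → lam l = 1) :
    ∃ N : ℕ, ∀ (y r r2 r' r'' aa M : ℕ), ∃ z₀ : ℕ, ∀ (J a₀ w₀ z i j : ℕ) (D : NDat2)
      (q : D.Ω → ℝ) (κ : ℝ), z₀ ≤ z → Plc n gam y r r2 r' r'' aa M i j →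
      D.Ok2 n K J a₀ w₀ z M lam gam κ C₁ q → ∀ (P V : ℕ → PN) (ω : D.Ω), 0 < q ω →
      GoodS D n K' w₀ z M C ω → OwF D n K' M z C ω V → FrP D n K' z i j r C P ω →
      (∀ u, 1 ≤ u → u ≤ n → |vz D n i j gam P V ω (fun _ => 0) u| ≤
          exp z ^ N * 2 ^ (w₀ + j * z) ∧
        ∀ k, |vz D n i j gam P V ω (ek k) u| ≤ exp z ^ N * 2 ^ (w₀ + j * z)) ∧
      ∀ (S : ℕ → ℝ) (w u : ℕ), (∀ l, |S l| ≤ exp (C * z)) → w₀ + j * z ≤ w →
        w ≤ w₀ + (j + 1) * z → gr gam n u →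
        |(b1 D J w i j r (fun _ => P) ω u + 2 * rt D J w ω * b2 D J w i j r (fun _ => P) ω u -
          ∑ k ∈ (range n).filter (sl0 gam n),
            ((vz D n i j gam P V ω (ek k) u - vz D n i j gam P V ω (fun _ => 0) u) -
              ∑ l ∈ (range n).filter (sl1 gam n), S l * (vz D n i j gam P V ω (ek k) l -
                vz D n i j gam P V ω (fun _ => 0) l)) / 2 ^ w * ze D i j r (fun _ => P) ω k -
          ∑ l ∈ (range n).filter (sl1 gam n), S l * b1 D J w i j r (fun _ => P) ω l) -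
          (vz D n i j gam P V ω (fun _ => 0) u - ∑ l ∈ (range n).filter (sl1 gam n),
            S l * vz D n i j gam P V ω (fun _ => 0) l) / 2 ^ w| ≤ exp z ^ N / 2 ^ (y * z) := by
  obtain ⟨Cv, hCv, h0⟩ := hVel n K K' lam gam C₁ C hn hC₁ hC hlam
  obtain ⟨cv, hcv⟩ := exists_nat_ge Cv
  obtain ⟨c, hc⟩ := exists_nat_ge C
  obtain ⟨aG, cG, hG⟩ := sg_cell n K K' C₁ C hC₁ hC
  obtain ⟨aP, cP, hPV⟩ := pv_cell n K K' C₁ C hC₁
  obtain ⟨a, ha⟩ : ∃ a : ℕ, a = aG + aP + cv := ⟨_, rfl⟩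
  obtain ⟨a₁, c₁, h1⟩ := sg1 hB n (max K K') a
  obtain ⟨a₂, c₂, h2⟩ := pth hB n (max K K') a ((K' + 1) * (K + 1))
  obtain ⟨b, hb⟩ : ∃ b : ℕ, b = a₁ + a₂ + cv + 2 := ⟨_, rfl⟩
  refine ⟨1 + c + b, fun y r r2 r' r'' aa M => ?_⟩
  obtain ⟨z₁, hz₁⟩ := h0 y r r2 r' r'' aa M
  obtain ⟨z₂, hz₂⟩ := exists_nat_ge (max (max (max cG cP) (max c₁ c₂)) (n + 3))
  refine ⟨max z₁ z₂, ?_⟩
  intro J a₀ w₀ z i j D q κ hz hpl hO P V ω hω hgs hV hP
  have hzE : (z : ℝ) + 1 ≤ exp z := Real.add_one_le_exp _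
  have hzz : (z₂ : ℝ) ≤ z := by exact_mod_cast (le_max_right _ _).trans hz
  have hcE : max (max (max cG cP) (max c₁ c₂)) (n + 3) ≤ exp (z : ℝ) := by linarith
  obtain ⟨hcA, hcn⟩ := max_le_iff.1 hcE
  obtain ⟨hcB, hcC⟩ := max_le_iff.1 hcA
  obtain ⟨hcG, hcP⟩ := max_le_iff.1 hcB
  obtain ⟨hc1, hc2⟩ := max_le_iff.1 hcC
  have hn0 : (0 : ℝ) ≤ n := Nat.cast_nonneg n
  have hE : 1 ≤ exp (z : ℝ) := Real.one_le_exp (Nat.cast_nonneg z)
  have hE3 : 3 ≤ exp (z : ℝ) := by linarith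
  have i1 := hpl.i1
  have i2 := hpl.i2
  have j1 := hpl.j1
  have j2 := hpl.j2
  have y1 := hpl.y1
  have er'' := hpl.stp.er''
  have hyi : y ≤ i := by omega
  have hσ : (1 : ℝ) ≤ 2 ^ (i * z) := one_le_pow₀ (by norm_num)
  have hσ0 : (0 : ℝ) ≤ 2 ^ (i * z) := by positivity
  have hY1 : (1 : ℝ) ≤ 2 ^ (y * z) := one_le_pow₀ (by norm_num)
  have hY0 : (0 : ℝ) < 2 ^ (y * z) := by positivity
  have hYσ : (2 : ℝ) ^ (y * z) ≤ 2 ^ (i * z) :=
    pow_le_pow_right₀ (by norm_num) (Nat.mul_le_mul_right _ hyi)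
  have g0 : D.g i j 0 = w₀ + j * z := hO.g_zero i j
  have m : ∀ {b : ℕ}, b ≤ a → exp (z : ℝ) ^ b ≤ exp z ^ a := fun h => pw hE h
  have sg : Sg n (max K K') a (exp z) (D.X ω 0) (2 ^ (i * z)) (D.g i j) (D.g 0 j) P V :=
    (hG lam gam J a₀ w₀ z M i j D q κ r P V ω hlam hcG (by omega) (by omega) hO hV hP).mono hE hσ0
      (by omega)
  have s1 := fun (ζ : ℕ → ℝ) hζ u hu1 hun => h1 (exp z) (D.X ω 0) (2 ^ (i * z)) (D.g i j)
    (D.g 0 j) (sl0 gam n) P V hE hc1 hσ sl0_lt sg ζ hζ u hu1 hun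
  rw [g0] at s1
  have hek : ∀ k l, sl0 gam n l → |ek k l| ≤ exp (z : ℝ) ^ a := fun k l _ =>
    (ek_le k l).trans (pw1 hE a)
  obtain ⟨R, hRd, hRe, hRb, hRs, hRw⟩ := hz₁ J a₀ w₀ z i j D q κ ((le_max_left _ _).trans hz) hpl
    hO P ω hω hgs hP
  have hCvz : exp (Cv * z) ≤ exp z ^ cv := exp_pow z hcv
  have hze : ∀ l, 1 ≤ l → l ≤ n → ze D i j r (fun _ => P) ω l = (R l).eval 0 := by
    intro l hl1 hln
    rw [hRe l 0, add_zero]
    unfold ze nat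
    have e1 : ∀ k, k ≤ n → pp D (D.ln ω) (D.X ω 0) k = D.X ω k := fun k hk =>
      (Pool.P4L.X_pp hO hω hk).symm
    have e2 : eval (pp D (D.ln ω) (D.X ω 0)) (P l) = eval (D.X ω) (P l) :=
      Pool.SYS35.eval_congr (hP.tri l) fun k hk => e1 k (by omega)
    rw [e1 l hln, e2]
  have h0t : |(0 : ℝ)| ≤ 1 / 2 ^ (w₀ + j * z) := by rw [abs_zero]; positivity
  have hζ : ∀ k, sl0 gam n k → |ze D i j r (fun _ => P) ω k| ≤ exp (z : ℝ) ^ a := by
    intro k hk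
    rw [hze k hk.1 hk.2.1.le]
    exact (hRb k hk.1 hk.2.1.le 0 h0t).trans (hCvz.trans (m (by omega)))
  have key := h2 (exp z) (D.X ω 0) (2 ^ (i * z)) (2 ^ (y * z)) (D.g i j) (D.g 0 j) (sl0 gam n) P V
    R (fun h => pp D (D.ln ω) (D.X ω 0 + h)) (ze D i j r (fun _ => P) ω) hE hc2 hY1 hYσ sl0_lt sg
    hRd (fun h _ => Pool.P4L.pp_zero _ _)
    (fun h hh l hl1 hln => ⟨(hRe l h).symm, by
      rw [g0] at hh
      exact (hRb l hl1 hln h hh).trans (hCvz.trans (m (by omega)))⟩)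
    (fun h hh l hl1 hln _ => (hPV lam gam J a₀ w₀ z M i j y D q κ V ω hlam hcP (by omega)
      (by omega) hO hV hgs.pc h hh l hl1 hln).trans
        (div_le_div_of_nonneg_right (m (by omega)) hY0.le))
    (fun h hh k hk => by
      rw [g0] at hh
      rw [hze k hk.1 hk.2.1.le]
      exact (hRs k hk h hh).trans (div_le_div_of_nonneg_right (hCvz.trans (m (by omega))) hY0.le))
    hζ
  rw [g0] at key
  refine ⟨fun u hu1 hun => ⟨?_, fun k => ?_⟩, ?_⟩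
  · exact (s1 _ (zero_lea (n := n) hE) u hu1 hun).2.1.trans
      (mul_le_mul_of_nonneg_right (pw hE (by omega)) (by positivity))
  · exact (s1 _ (hek k) u hu1 hun).2.1.trans
      (mul_le_mul_of_nonneg_right (pw hE (by omega)) (by positivity))
  intro S w u hS hw1 hw2 hu
  have hW : (0 : ℝ) < 2 ^ w := by positivity
  have hGW : (2 : ℝ) ^ (w₀ + j * z) ≤ 2 ^ w := pow_le_pow_right₀ (by norm_num) hw1
  obtain ⟨k1, k2⟩ := hRw w hw1 hw2
  -- one coordinate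
  have one : ∀ l, 1 ≤ l → l ≤ n → ∀ β : ℝ, |(R l).coeff 1 / 2 ^ w - β| ≤
      exp (Cv * z) / 2 ^ (y * z) →
      |β - vz D n i j gam P V ω (fun _ => 0) l / 2 ^ w - ∑ k ∈ (range n).filter (sl0 gam n),
        ze D i j r (fun _ => P) ω k * ((vz D n i j gam P V ω (ek k) l -
          vz D n i j gam P V ω (fun _ => 0) l) / 2 ^ w)| ≤ exp z ^ b / 2 ^ (y * z) := by
    intro l hl1 hln β hβ
    have t1 := hβ.trans (div_le_div_of_nonneg_right hCvz hY0.le)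
    have t2 := key l hl1 hln
    have t3 := (s1 (ze D i j r (fun _ => P) ω) hζ l hl1 hln).2.2
    have dW : ∀ {x c' : ℝ} (_ : 0 ≤ c') (_ : |x| ≤ c' * 2 ^ (w₀ + j * z)), |x / 2 ^ w| ≤ c' := by
      intro x c' h5 h6
      rw [abs_div, abs_of_pos hW, div_le_iff₀ hW]
      exact h6.trans (mul_le_mul_of_nonneg_left hGW h5)
    have t4 := dW (by positivity) t2
    have t5 := dW (by positivity) t3
    have t6 : exp (z : ℝ) ^ a₁ / 2 ^ (i * z) ≤ exp z ^ a₁ / 2 ^ (y * z) :=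
      div_le_div_of_nonneg_left (by positivity) hY0 hYσ
    have t7 : β - vz D n i j gam P V ω (fun _ => 0) l / 2 ^ w -
        ∑ k ∈ (range n).filter (sl0 gam n), ze D i j r (fun _ => P) ω k *
          ((vz D n i j gam P V ω (ek k) l - vz D n i j gam P V ω (fun _ => 0) l) / 2 ^ w) =
        -((R l).coeff 1 / 2 ^ w - β) +
        ((R l).coeff 1 - vl (D.g i j) (sl0 gam n) (D.X ω 0) P V (ze D i j r (fun _ => P) ω) l) /
          2 ^ w +
        (vl (D.g i j) (sl0 gam n) (D.X ω 0) P V (ze D i j r (fun _ => P) ω) l -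
          vl (D.g i j) (sl0 gam n) (D.X ω 0) P V (fun _ => 0) l -
          ∑ k ∈ (range n).filter (sl0 gam n), ze D i j r (fun _ => P) ω k *
            (vl (D.g i j) (sl0 gam n) (D.X ω 0) P V (ek k) l -
              vl (D.g i j) (sl0 gam n) (D.X ω 0) P V (fun _ => 0) l)) / 2 ^ w := by
      unfold vz
      rw [sub_div (vl (D.g i j) (sl0 gam n) (D.X ω 0) P V (ze D i j r (fun _ => P) ω) l -
          vl (D.g i j) (sl0 gam n) (D.X ω 0) P V (fun _ => 0) l), Finset.sum_div]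
      simp_rw [mul_div_assoc]
      ring
    rw [t7]
    refine (abs_add_le _ _).trans ((add_le_add ((abs_add_le _ _).trans (add_le_add
      ((abs_neg _).trans_le t1) t4)) (t5.trans t6)).trans ?_)
    rw [← add_div, ← add_div]
    refine div_le_div_of_nonneg_right ?_ hY0.le
    have f1 : exp (z : ℝ) ^ cv ≤ exp z ^ (a₁ + a₂ + cv) := pw hE (by omega)
    have f2 : exp (z : ℝ) ^ a₂ ≤ exp z ^ (a₁ + a₂ + cv) := pw hE (by omega)
    have f3 : exp (z : ℝ) ^ a₁ ≤ exp z ^ (a₁ + a₂ + cv) := pw hE (by omega)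
    have f4 : (0 : ℝ) < exp z ^ (a₁ + a₂ + cv) := by positivity
    have f5 : (3 : ℝ) ≤ exp z ^ 2 := by nlinarith
    have f6 := mul_le_mul_of_nonneg_left f5 f4.le
    rw [hb, pow_add (exp (z : ℝ)) (a₁ + a₂ + cv) 2]
    linarith
  have hu' : 1 ≤ u ∧ u ≤ n := ⟨hu.1, hu.2.1⟩
  have fin := alg_d (A := (range n).filter (sl0 gam n)) (B := (range n).filter (sl1 gam n))
    (W := 2 ^ w) (s := exp z ^ c) (e := exp z ^ b / 2 ^ (y * z))
    (bu := b1 D J w i j r (fun _ => P) ω u + 2 * rt D J w ω * b2 D J w i j r (fun _ => P) ω u)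
    (vu := vz D n i j gam P V ω (fun _ => 0) u) (b := b1 D J w i j r (fun _ => P) ω)
    (v := vz D n i j gam P V ω (fun _ => 0)) (ze := ze D i j r (fun _ => P) ω) (S := S)
    (vku := fun k => vz D n i j gam P V ω (ek k) u)
    (vk := fun k => vz D n i j gam P V ω (ek k))
    (fun l _ => (hS l).trans (exp_pow z hc)) (one u hu'.1 hu'.2 _ (k2 u hu))
    (fun l hl => one l (Finset.mem_filter.1 hl).2.1 (Finset.mem_filter.1 hl).2.2.1.le _
      (k1 l (Finset.mem_filter.1 hl).2))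
  refine fin.trans ?_
  rw [← mul_div_assoc]
  refine div_le_div_of_nonneg_right ?_ hY0.le
  have hcard : (((range n).filter (sl1 gam n)).card : ℝ) ≤ n := by
    have := Finset.card_filter_le (range n) (sl1 gam n)
    rw [Finset.card_range] at this
    exact_mod_cast this
  have p1 : (1 : ℝ) ≤ exp z ^ c := pw1 hE c
  have p2 : 1 + (((range n).filter (sl1 gam n)).card : ℝ) * exp z ^ c ≤ exp z ^ (1 + c) := by
    have p3 : (((range n).filter (sl1 gam n)).card : ℝ) * exp z ^ c ≤ n * exp z ^ c :=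
      mul_le_mul_of_nonneg_right hcard (by positivity)
    have p4 : exp (z : ℝ) ^ (1 + c) = exp z * exp z ^ c := by rw [pow_add, pow_one]
    rw [p4]
    nlinarith
  calc (1 + (((range n).filter (sl1 gam n)).card : ℝ) * exp z ^ c) * exp z ^ b
      ≤ exp z ^ (1 + c) * exp z ^ b := mul_le_mul_of_nonneg_right p2 (by positivity)
    _ = _ := (pow_add _ _ _).symm

end Pool.P5L
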