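import Pool.Agent.H12.P5.LfG

/-!
# P5: the velocities of two closed leaves
-/

set_option autoImplicit false

namespace Pool.P5L

open Finset Real MvPolynomial
open Pool.Agent.H49.Ent Pool.Agent.H32.Dense Pool.STK Pool.STAT Pool.MIC.Frm Pool.MIC7 Pool.FRM
open Pool.GSD
open Pool.P4O (Sy Cls Lv lc lc0 SS lin pw pw1 aff lin_bd SS_le exp_pow)
open Pool.P4 (FrP PthC pp ze bb rt GoodS)
open Pool.P5 (Gam3 Stp Plc sl gr sl0 sl1 b1 b2 VelStmt)

open Classical in
/-- **Two samples.** -/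
theorem two_cell (hB4 : B4) (hB5 : B5) (n K K' : ℕ) (lam gam : ℕ → ℝ) (C₁ C : ℝ)
    (hC₁ : 1 ≤ C₁) (hC : 0 ≤ C) (hlam : ∀ l, 1 ≤ l → l ≤ n → lam l = 1) :
    ∃ N : ℕ, ∀ (y r r2 r' r'' aa M : ℕ), ∃ z₀ : ℕ, ∀ (J a₀ w₀ z i j : ℕ) (D : NDat2)
      (q : D.Ω → ℝ) (κ : ℝ), z₀ ≤ z → Plc n gam y r r2 r' r'' aa M i j →
      D.Ok2 n K J a₀ w₀ z M lam gam κ C₁ q → ∀ (P V V' : ℕ → PN) (ω ω' : D.Ω),
      OwF D n K' M z C ω V → OwF D n K' M z C ω' V' → FrP D n K' z i j r C P ω →
      FrP D n K' z i j r C P ω' → D.T ω = D.T ω' →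
      (D.c (i - r2) (j + r) ω = D.c (i - r2) (j + r) ω' → ∀ u, gr gam n u →
        |(vz D n i j gam P V ω (fun _ => 0) u - vz D n i j gam P V' ω' (fun _ => 0) u) -
          ∑ k ∈ (range n).filter (sl gam n),
            SS n (sl gam n) (lc (D.g i j) (fz (D.X ω' 0) P) (fz (D.X ω' 0) V')) u k *
            (vz D n i j gam P V ω (fun _ => 0) k - vz D n i j gam P V' ω' (fun _ => 0) k)| ≤
          exp z ^ N / 2 ^ (y * z) * 2 ^ (w₀ + j * z)) ∧
      (D.c (i - r'') (j + r) ω = D.c (i - r'') (j + r) ω' → ∀ e u, gr gam n u →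
        |((vz D n i j gam P V ω (ek e) u - vz D n i j gam P V ω (fun _ => 0) u) -
            (vz D n i j gam P V' ω' (ek e) u - vz D n i j gam P V' ω' (fun _ => 0) u)) -
          ∑ k ∈ (range n).filter (sl gam n),
            SS n (sl gam n) (lc (D.g i j) (fz (D.X ω' 0) P) (fz (D.X ω' 0) V')) u k *
            ((vz D n i j gam P V ω (ek e) k - vz D n i j gam P V ω (fun _ => 0) k) -
              (vz D n i j gam P V' ω' (ek e) k - vz D n i j gam P V' ω' (fun _ => 0) k))| ≤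
          exp z ^ N / 2 ^ (y * z) * 2 ^ (w₀ + j * z)) := by
  obtain ⟨aG, cG, hG⟩ := sg_cell n K K' C₁ C hC₁ hC
  obtain ⟨aV, cV, hVV⟩ := vv_cell n K K' C
  obtain ⟨c4, hc4⟩ := exists_nat_ge (4 * C₁)
  obtain ⟨a, ha⟩ : ∃ a : ℕ, a = aG + aV + c4 := ⟨_, rfl⟩
  obtain ⟨a₁, c₁, h1⟩ := pr1 hB4 n (max K K') a
  obtain ⟨a₂, c₂, h2⟩ := pr2 hB5 n (max K K') a
  refine ⟨a₁ + a₂, fun y r r2 r' r'' aa M => ?_⟩
  obtain ⟨z₂, hz₂⟩ := exists_nat_ge (max (max cG cV) (max c₁ c₂))
  refine ⟨z₂, ?_⟩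
  intro J a₀ w₀ z i j D q κ hz hpl hO P V V' ω ω' hV hV' hP hP' hT
  have hzE : (z : ℝ) + 1 ≤ exp z := Real.add_one_le_exp _
  have hzz : (z₂ : ℝ) ≤ z := by exact_mod_cast hz
  have hcE : max (max cG cV) (max c₁ c₂) ≤ exp (z : ℝ) := by linarith
  obtain ⟨hcA, hcB⟩ := max_le_iff.1 hcE
  obtain ⟨hcG, hcV⟩ := max_le_iff.1 hcA
  obtain ⟨hc1, hc2⟩ := max_le_iff.1 hcB
  have hE : 1 ≤ exp (z : ℝ) := Real.one_le_exp (Nat.cast_nonneg z)
  have hst := hpl.stp
  have g3 := hst.g3
  have i1 := hpl.i1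
  have i2 := hpl.i2
  have j1 := hpl.j1
  have j2 := hpl.j2
  have y1 := hpl.y1
  have er := hst.er
  have er2 := hst.er2
  have er'' := hst.er''
  have hσ0 : (0 : ℝ) ≤ 2 ^ (i * z) := by positivity
  have hY1 : (1 : ℝ) ≤ 2 ^ (y * z) := one_le_pow₀ (by norm_num)
  have hY0 : (0 : ℝ) < 2 ^ (y * z) := by positivity
  have hyr : (0 : ℝ) ≤ y := Nat.cast_nonneg y
  have hY3 : ((2 : ℝ) ^ (y * z)) ^ 3 ≤ 2 ^ (i * z) := by
    rw [← pow_mul]
    refine pow_le_pow_right₀ (by norm_num) ?_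
    calc y * z * 3 = (3 * y) * z := by ring
      _ ≤ i * z := Nat.mul_le_mul_right _ (by omega)
  have hY4 : ((2 : ℝ) ^ (y * z)) ^ 4 ≤ 2 ^ (i * z) := by
    rw [← pow_mul]
    refine pow_le_pow_right₀ (by norm_num) ?_
    calc y * z * 4 = (4 * y) * z := by ring
      _ ≤ i * z := Nat.mul_le_mul_right _ (by omega)
  have g0 : D.g i j 0 = w₀ + j * z := hO.g_zero i j
  have hX : D.X ω' 0 = D.X ω 0 := by rw [hO.X_zero, hO.X_zero, hT]
  have m : ∀ {b : ℕ}, b ≤ a → exp (z : ℝ) ^ b ≤ exp z ^ a := fun h => pw hE h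
  have sg : Sg n (max K K') a (exp z) (D.X ω 0) (2 ^ (i * z)) (D.g i j) (D.g 0 j) P V :=
    (hG lam gam J a₀ w₀ z M i j D q κ r P V ω hlam hcG (by omega) (by omega) hO hV hP).mono hE hσ0
      (by omega)
  have sg' : Sg n (max K K') a (exp z) (D.X ω 0) (2 ^ (i * z)) (D.g i j) (D.g 0 j) P V' := by
    have := (hG lam gam J a₀ w₀ z M i j D q κ r P V' ω' hlam hcG (by omega) (by omega) hO hV'
      hP').mono hE hσ0 (a' := a) (by omega)
    rwa [hX] at this
  have cls : ∀ i' < M, D.c i' (j + r) ω = D.c i' (j + r) ω' → ∀ h : ℝ,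
      |h| ≤ 1 / 2 ^ D.g i' (j + r) 0 →
      Cls n (D.g i' (j + r)) (exp z ^ a) (fz (D.X ω 0 + h) V) (fz (D.X ω 0 + h) V') :=
    fun i' hi' hc h hh => (hVV lam gam C₁ J a₀ w₀ z M i' (j + r) D q κ V V' ω ω' hcV hi' j2 hO hV
      hV' hT hc h hh).mono (m (by omega))
  have ci2 : ((i - r2 : ℕ) : ℝ) = (i : ℝ) - y := by
    rw [Nat.cast_sub (by omega), er2]
  have ci9 : ((i - r'' : ℕ) : ℝ) = (i : ℝ) - r'' := by
    rw [Nat.cast_sub (by omega)]
  have cjr : ((j + r : ℕ) : ℝ) = (j : ℝ) + 2 * y := by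
    rw [er]
    push_cast
    ring
  have hr9 : (0 : ℝ) ≤ r'' := Nat.cast_nonneg _
  refine ⟨fun hc u hu => ?_, fun hc e u hu => ?_⟩
  · have hu2 := (Pool.P5.gr_iff g3 u).1 hu
    have hus : ¬ sl gam n u := fun h3 => by
      have := h3.2.2
      rw [hu2.2.2, g3.gn] at this
      exact lt_irrefl _ this
    have := h1 (exp z) (D.X ω 0) (2 ^ (i * z)) (2 ^ (y * z)) (D.g i j) (D.g 0 j)
      (D.g (i - r2) (j + r)) (sl0 gam n) (sl gam n) P V V' hE hc1 hY1 hY3 sl0_lt sl_lt sg sg'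
      (time_lv hpl hO _) (cls _ (by omega) hc)
      (fun k hk => by
        have e1 := lv_p (s := 0) (i₁ := i - r2) (j₁ := j + r) (i₂ := i) (j₂ := j) (by linarith)
          hc4 hlam hO (by omega) (by omega) (by omega) (by omega) hk.1 hk.2.1.le (by
            rw [ci2, hk.2.2]
            push_cast
            linarith)
        rw [zero_mul, pow_zero, one_mul] at e1
        exact e1.trans (mul_le_mul_of_nonneg_right (m (by omega)) (by positivity)))
      (fun v hv1 hvn hv => by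
        have g1 := gam_so g3 hv1 hvn hv
        have e1 := lv_p (s := y) (i₁ := i) (j₁ := j) (i₂ := i - r2) (j₂ := j + r) (by linarith)
          hc4 hlam hO (by omega) (by omega) (by omega) (by omega) hv1 hvn (by
            rw [ci2, cjr]
            nlinarith)
        exact e1.trans (mul_le_mul_of_nonneg_right (m (by omega)) (by positivity)))
      (fun v hv1 hvn hv => by
        have g1 := gam_gr g3 hv1 hvn hv
        have e1 := lv_p (s := 3 * y) (i₁ := i) (j₁ := j) (i₂ := i - r2) (j₂ := j + r)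
          (by linarith) hc4 hlam hO (by omega) (by omega) (by omega) (by omega) hv1 hvn (by
            rw [ci2, cjr, g1]
            push_cast
            linarith)
        have e2 : ((2 : ℝ) ^ (y * z)) ^ 3 = 2 ^ (3 * y * z) := by
          rw [← pow_mul]
          congr 1
          ring
        rw [e2]
        exact e1.trans (mul_le_mul_of_nonneg_right (m (by omega)) (by positivity)))
      (fun l hl => Pool.P5.sl0_sl g3 hl) (fun _ => 0) (zero_lea (n := n) hE) u hu2.1 hu2.2.1 hus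
    rw [add_zero, g0] at this
    unfold vz
    rw [hX]
    refine this.trans (mul_le_mul_of_nonneg_right (div_le_div_of_nonneg_right (pw hE (by omega))
      hY0.le) (by positivity))
  · have hu2 := (Pool.P5.gr_iff g3 u).1 hu
    have hus : ¬ sl gam n u := fun h3 => by
      have := h3.2.2
      rw [hu2.2.2, g3.gn] at this
      exact lt_irrefl _ this
    have := h2 (exp z) (D.X ω 0) (2 ^ (i * z)) (2 ^ (y * z)) (D.g i j) (D.g 0 j)
      (D.g (i - r'') (j + r)) (sl0 gam n) (sl gam n) P V V' hE hc2 hY1 hY4 sl0_lt sl_lt sg sg'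
      (time_lv hpl hO _) (cls _ (by omega) hc)
      (fun k hk => by
        have e1 := lv_p (s := 0) (i₁ := i - r'') (j₁ := j + r) (i₂ := i) (j₂ := j) (by linarith)
          hc4 hlam hO (by omega) (by omega) (by omega) (by omega) hk.1 hk.2.1.le (by
            rw [ci9, hk.2.2]
            push_cast
            linarith)
        rw [zero_mul, pow_zero, one_mul] at e1
        exact e1.trans (mul_le_mul_of_nonneg_right (m (by omega)) (by positivity)))
      (fun v k hv1 hvn hv hk => by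
        have g1 := gam_so g3 hv1 hvn hv
        have e1 := lv_q (s := 2 * y) (i₁ := i) (j₁ := j) (i₂ := i - r'') (j₂ := j + r)
          (by linarith) hc4 hlam hO (by omega) (by omega) (by omega) (by omega) hv1 hvn hk.1
          hk.2.1.le (by
            rw [cjr, hk.2.2]
            push_cast
            nlinarith)
        have e2 : ((2 : ℝ) ^ (y * z)) ^ 2 = 2 ^ (2 * y * z) := by
          rw [← pow_mul]
          congr 1
          ring
        rw [e2]
        exact e1.trans (div_le_div_of_nonneg_right (m (by omega)) (by positivity)))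
      (fun v k hv1 hvn hv hk => by
        have g1 := gam_gr g3 hv1 hvn hv
        have e1 := lv_q (s := 4 * y) (i₁ := i) (j₁ := j) (i₂ := i - r'') (j₂ := j + r)
          (by linarith) hc4 hlam hO (by omega) (by omega) (by omega) (by omega) hv1 hvn hk.1
          hk.2.1.le (by
            rw [cjr, hk.2.2, g1]
            push_cast
            linarith)
        have e2 : ((2 : ℝ) ^ (y * z)) ^ 4 = 2 ^ (4 * y * z) := by
          rw [← pow_mul]
          congr 1
          ring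
        rw [e2]
        exact e1.trans (div_le_div_of_nonneg_right (m (by omega)) (by positivity)))
      (fun l hl => Pool.P5.sl0_sl g3 hl) (ek e) (fun _ => 0)
      (fun l hl => ⟨(ek_le e l).trans (pw1 hE a), zero_lea (n := n) hE l hl⟩) u hu2.1 hu2.2.1 hus
    rw [add_zero, g0] at this
    unfold vz
    rw [hX]
    refine this.trans (mul_le_mul_of_nonneg_right (div_le_div_of_nonneg_right (pw hE (by omega))
      hY0.le) (by positivity))

end Pool.P5L
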