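import Pool.Agent.H12.P5.LfE

/-!
# P5: the closed leaves, the slopes (statement)
-/

set_option autoImplicit false

namespace Pool.P5L

open Finset Real MvPolynomial
open Pool.Agent.H49.Ent Pool.Agent.H32.Dense Pool.STK Pool.STAT Pool.MIC.Frm Pool.MIC7 Pool.FRM
open Pool.GSD
open Pool.P4O (Sy Cls Lv lc lc0 SS sS sN)
open Pool.P4 (FrP bb)
open Pool.P5 (Gam3 Stp Plc sl gr sl0 sl1 SheetA)

/-- **(SLP)** The slopes of the own frames over a closed frame, for the constant coordinates and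
for the slow coordinates, deterministic. -/
def SlpStmt : Prop :=
  ∀ (n K K' : ℕ) (lam gam : ℕ → ℝ) (C₁ C : ℝ), 1 ≤ n → 1 ≤ C₁ → 0 ≤ C →
    (∀ l, 1 ≤ l → l ≤ n → lam l = 1) → ∃ N : ℕ,
    ∀ (y r r2 r' r'' a M : ℕ), ∃ z₀ : ℕ, ∀ (J a₀ w₀ z i j : ℕ) (D : NDat2) (q : D.Ω → ℝ) (κ : ℝ),
      z₀ ≤ z → Plc n gam y r r2 r' r'' a M i j → D.Ok2 n K J a₀ w₀ z M lam gam κ C₁ q →
      ∀ (P : D.Γ × D.Γ → ℕ → PN) (E : D.Ω → Prop) (V : D.Ω → ℕ → PN),
      (∀ ω, E ω → 0 < q ω ∧ OwF D n K' M z C ω (V ω) ∧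
        FrP D n K' z i j r C (P (bb D i j r ω)) ω) →
      -- bounds
      (∀ ω, E ω → ∀ u k,
        |sS n (sl0 gam n) (D.g i j) (fz (D.X ω 0) (P (bb D i j r ω)))
          (fz (D.X ω 0) (V ω)) u k| ≤ exp z ^ N ∧
        |sS n (sl gam n) (D.g i j) (fz (D.X ω 0) (P (bb D i j r ω)))
          (fz (D.X ω 0) (V ω)) u k| ≤ exp z ^ N) ∧
      -- the own slopes are given by the sheet
      (∀ (S : D.Ω → ℕ → ℕ → ℝ) (ω : D.Ω), E ω → SheetA D n z i j r r' y gam C P S ω →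
        ∀ u, gr gam n u → ∀ k, sl gam n k → |S ω u k -
          sS n (sl gam n) (D.g i j) (fz (D.X ω 0) (P (bb D i j r ω))) (fz (D.X ω 0) (V ω)) u k| ≤
            exp z ^ N / 2 ^ (y * z)) ∧
      -- the labels at `R''` and `R2`
      ∀ ω ω', E ω → E ω' → bb D i j r ω = bb D i j r ω' → D.T ω = D.T ω' →
        (D.s (i - r'') (j + r) ω = D.s (i - r'') (j + r) ω' → ∀ u, 1 ≤ u → u ≤ n →
          ¬ sl0 gam n u → ∀ k, sl0 gam n k →
          |sS n (sl0 gam n) (D.g i j) (fz (D.X ω 0) (P (bb D i j r ω))) (fz (D.X ω 0) (V ω)) u k -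
            sS n (sl0 gam n) (D.g i j) (fz (D.X ω' 0) (P (bb D i j r ω')))
              (fz (D.X ω' 0) (V ω')) u k| ≤ exp z ^ N / 2 ^ (y * z)) ∧
        (D.s (i - r2) (j + r) ω = D.s (i - r2) (j + r) ω' → ∀ u, 1 ≤ u → u ≤ n →
          ¬ sl0 gam n u →
          |sN n (sl0 gam n) (D.g i j) (fz (D.X ω 0) (P (bb D i j r ω))) (fz (D.X ω 0) (V ω))
              (D.X ω) u -
            sN n (sl0 gam n) (D.g i j) (fz (D.X ω' 0) (P (bb D i j r ω')))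
              (fz (D.X ω' 0) (V ω')) (D.X ω') u| ≤ exp z ^ N / 2 ^ (y * z))

end Pool.P5L
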