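import Pool.Agent.H12.P5.LfH
import Pool.Agent.H12.P5.LfT
import Pool.Agent.H38.P5.Lfb
import Pool.Agent.H33.P5.Vel

/-!
# P5: the closed leaves
-/

set_option autoImplicit false

namespace Pool.P5L

open Finset Real MvPolynomial
open Pool.Agent.H49.Ent Pool.Agent.H32.Dense Pool.STK Pool.STAT Pool.MIC.Frm Pool.MIC7 Pool.FRM
open Pool.GSD
open Pool.P4O (Sy Cls Lv lc lc0 SS sS sN lin pw pw1 aff lin_bd SS_le SS_zero exp_pow)
open Pool.P4 (FrP PthC FraC pp ze bb rt GoodS)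
open Pool.P5 (Gam3 Stp Plc sl gr sl0 sl1 b1 b2 VelStmt SheetA LeafStmt la wl)

/-- Two contexts which agree at a finer place agree. -/
theorem c_up {D : NDat2} {n K J a₀ w₀ z M : ℕ} {lam gam : ℕ → ℝ} {κ C₁ : ℝ} {q : D.Ω → ℝ}
    (hO : D.Ok2 n K J a₀ w₀ z M lam gam κ C₁ q) {i j s : ℕ} (hi : i + s ≤ M) (hj : j ≤ M)
    {ω ω' : D.Ω} (hω : 0 < q ω) (hω' : 0 < q ω') (h : D.c (i + s) j ω = D.c (i + s) j ω') :
    D.c i j ω = D.c i j ω' := by
  induction s with
  | zero => exact h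
  | succ s ih => exact ih (by omega) (hO.c_i (i + s) (by omega) j hj ω ω' hω hω' h)

/-- The same label at a place. -/
theorem s_up {D : NDat2} {n K J a₀ w₀ z M : ℕ} {lam gam : ℕ → ℝ} {κ C₁ : ℝ} {q : D.Ω → ℝ}
    (hO : D.Ok2 n K J a₀ w₀ z M lam gam κ C₁ q) {i j : ℕ} (hi : i ≤ M) (hj : j ≤ M)
    {ω ω' : D.Ω} (hω : 0 < q ω) (hω' : 0 < q ω') (h : D.c i j ω = D.c i j ω')
    (hT : D.T ω = D.T ω') : D.s i j ω = D.s i j ω' :=
  hO.s_c i hi j hj ω ω' hω hω' (Prod.ext h hT)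

theorem vz_so {D : NDat2} {n i j : ℕ} {gam : ℕ → ℝ} {P V : ℕ → PN} {ω : D.Ω} (hP : TriN P)
    (hV : TriN V) (ζ : ℕ → ℝ) {u : ℕ} (hs : sl0 gam n u) : vz D n i j gam P V ω ζ u = 0 :=
  vl_so hP hV ζ hs.1 hs

theorem vz_ek {D : NDat2} {n i j : ℕ} {gam : ℕ → ℝ} {P V : ℕ → PN} {ω : D.Ω} (hP : TriN P)
    (hV : TriN V) {k u : ℕ} (h : u < k) :
    vz D n i j gam P V ω (ek k) u = vz D n i j gam P V ω (fun _ => 0) u := by
  unfold vz vl
  rw [lfq_congr hP hV (ζ := ek k) (ζ' := fun _ => 0) fun l hl _ _ => by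
    unfold ek
    rw [if_neg (by omega)]]

open Classical in
/-- The velocity of the slope of the leaf. -/
noncomputable def EV (D : NDat2) (n i j : ℕ) (gam : ℕ → ℝ) (P V : ℕ → PN) (S : ℕ → ℕ → ℝ)
    (ω : D.Ω) (u k : ℕ) : ℝ :=
  (vz D n i j gam P V ω (ek k) u - vz D n i j gam P V ω (fun _ => 0) u) -
    ∑ l ∈ (range n).filter (sl1 gam n), S u l *
      (vz D n i j gam P V ω (ek k) l - vz D n i j gam P V ω (fun _ => 0) l)

/-- The velocity of the leaf over the own slopes. -/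
noncomputable def WV (D : NDat2) (n i j : ℕ) (gam : ℕ → ℝ) (P V : ℕ → PN) (S : ℕ → ℕ → ℝ)
    (ω : D.Ω) (u : ℕ) : ℝ := open Classical in
  vz D n i j gam P V ω (fun _ => 0) u -
    ∑ l ∈ (range n).filter (sl1 gam n), S u l * vz D n i j gam P V ω (fun _ => 0) l

open Classical in
/-- **(LEAF)** from the slopes. -/
theorem leaf_of (hSlp : SlpStmt) : LeafStmt := by
  intro n K K' lam gam C₁ C hn hC₁ hC hlam
  obtain ⟨N₀, h0⟩ := hSlp n K K' lam gam C₁ C hn hC₁ hC hlam
  obtain ⟨N₁, h1⟩ := one_cell b3 Pool.P5.vel_stmt n K K' lam gam C₁ C hn hC₁ hC hlam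
  obtain ⟨N₂, h2⟩ := two_cell b4 b5 n K K' lam gam C₁ C hC₁ hC hlam
  obtain ⟨c, hc⟩ := exists_nat_ge C
  -- the exponents
  obtain ⟨b, hb⟩ : ∃ b : ℕ, b = N₀ + N₁ + N₂ + c + 1 := ⟨_, rfl⟩
  obtain ⟨N, hN⟩ : ∃ N : ℕ, N = 2 * b + 2 := ⟨_, rfl⟩
  refine ⟨N, by rw [hN]; push_cast; have : (0 : ℝ) ≤ b := by positivity
                linarith, ?_⟩
  intro y r r2 r' r'' aa M
  obtain ⟨z₀, hz₀⟩ := h0 y r r2 r' r'' aa M
  obtain ⟨z₁, hz₁⟩ := h1 y r r2 r' r'' aa M
  obtain ⟨z₂, hz₂⟩ := h2 y r r2 r' r'' aa M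
  obtain ⟨z₃, hz₃⟩ := exists_nat_ge ((3 : ℝ) * n + 4)
  refine ⟨max (max z₀ z₁) (max z₂ z₃), ?_⟩
  intro J a₀ w₀ z i j D q κ hz hpl hO P E S hE hSb hSt hSA hSR
  obtain ⟨hzA, hzB⟩ := max_le_iff.1 hz
  obtain ⟨hz0, hz1⟩ := max_le_iff.1 hzA
  obtain ⟨hz2, hz3⟩ := max_le_iff.1 hzB
  have hzE : (z : ℝ) + 1 ≤ exp z := Real.add_one_le_exp _
  have hzz : (z₃ : ℝ) ≤ z := by exact_mod_cast hz3
  have hnE : (3 : ℝ) * n + 4 ≤ exp z := by linarith
  have hn0 : (0 : ℝ) ≤ n := Nat.cast_nonneg n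
  have hE1 : 1 ≤ exp (z : ℝ) := Real.one_le_exp (Nat.cast_nonneg z)
  have z0' : (0 : ℝ) ≤ z := Nat.cast_nonneg z
  have g3 := hpl.stp.g3
  have i1 := hpl.i1
  have i2 := hpl.i2
  have j1 := hpl.j1
  have j2 := hpl.j2
  have er2 := hpl.stp.er2
  have er'' := hpl.stp.er''
  have hY0 : (0 : ℝ) < 2 ^ (y * z) := by positivity
  have g0 : D.g i j 0 = w₀ + j * z := hO.g_zero i j
  have mN : ∀ {e : ℕ}, e ≤ N → exp (z : ℝ) ^ e ≤ exp (N * z) := by
    intro e he
    rw [← Real.exp_nat_mul]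
    refine Real.exp_le_exp.2 (mul_le_mul_of_nonneg_right ?_ z0')
    exact_mod_cast he
  have mb : ∀ {e : ℕ}, e ≤ b → exp (z : ℝ) ^ e ≤ exp z ^ b := fun h => pw hE1 h
  -- the own frames
  have hfv : ∀ ω, E ω → ∃ V : ℕ → PN, OwF D n K' M z C ω V := fun ω hω => by
    obtain ⟨V, v1, v2, v3, v4⟩ := (hE ω hω).2.1.fc
    exact ⟨V, v1, v2, v3, v4⟩
  choose! V hV using hfv
  have tP : ∀ ω, E ω → TriN (P (bb D i j r ω)) := fun ω hω => (hE ω hω).2.2.tri
  obtain ⟨k1, k2, k3⟩ := hz₀ J a₀ w₀ z i j D q κ hz0 hpl hO P E V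
    (fun ω hω => ⟨(hE ω hω).1, hV ω hω, (hE ω hω).2.2⟩)
  have one := fun (ω : D.Ω) (hω : E ω) => hz₁ J a₀ w₀ z i j D q κ hz1 hpl hO (P (bb D i j r ω))
    (V ω) ω (hE ω hω).1 (hE ω hω).2.1 (hV ω hω) (hE ω hω).2.2
  -- bounds
  have hS' : ∀ ω u k, |S ω u k| ≤ exp (z : ℝ) ^ b := fun ω u k =>
    (hSb ω u k).trans ((exp_pow z hc).trans (mb (by omega)))
  have hv0 : ∀ ω, E ω → ∀ u, 1 ≤ u → u ≤ n →
      |vz D n i j gam (P (bb D i j r ω)) (V ω) ω (fun _ => 0) u| ≤
        exp z ^ N₁ * 2 ^ (w₀ + j * z) := fun ω hω u h3 h4 => ((one ω hω).1 u h3 h4).1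
  have hvk : ∀ ω, E ω → ∀ u, 1 ≤ u → u ≤ n → ∀ k,
      |vz D n i j gam (P (bb D i j r ω)) (V ω) ω (ek k) u| ≤
        exp z ^ N₁ * 2 ^ (w₀ + j * z) := fun ω hω u h3 h4 k => ((one ω hω).1 u h3 h4).2 k
  have hG : (0 : ℝ) < 2 ^ (w₀ + j * z) := by positivity
  have two : 2 * exp (z : ℝ) ^ N₁ ≤ exp z ^ b := by
    calc 2 * exp (z : ℝ) ^ N₁ ≤ exp z * exp z ^ N₁ :=
          mul_le_mul_of_nonneg_right (by linarith) (by positivity)
      _ = exp z ^ (N₁ + 1) := by rw [pow_succ, mul_comm]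
      _ ≤ _ := mb (by omega)
  have hdk : ∀ ω, E ω → ∀ u, 1 ≤ u → u ≤ n → ∀ k,
      |vz D n i j gam (P (bb D i j r ω)) (V ω) ω (ek k) u -
        vz D n i j gam (P (bb D i j r ω)) (V ω) ω (fun _ => 0) u| ≤
          exp z ^ b * 2 ^ (w₀ + j * z) := fun ω hω u h3 h4 k => by
    refine (abs_sub _ _).trans ((add_le_add (hvk ω hω u h3 h4 k) (hv0 ω hω u h3 h4)).trans ?_)
    calc exp (z : ℝ) ^ N₁ * 2 ^ (w₀ + j * z) + exp z ^ N₁ * 2 ^ (w₀ + j * z)
        = (2 * exp z ^ N₁) * 2 ^ (w₀ + j * z) := by ring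
      _ ≤ _ := mul_le_mul_of_nonneg_right two hG.le
  have hcard : (((range n).filter (sl1 gam n)).card : ℝ) ≤ n := by
    have := Finset.card_filter_le (range n) (sl1 gam n)
    rw [Finset.card_range] at this
    exact_mod_cast this
  -- the final inequality of numbers
  have fin2 : (1 + 3 * (n : ℝ) * exp z ^ b) * (exp z ^ b / 2 ^ (y * z)) ≤
      exp (N * z) / 2 ^ (y * z) := by
    rw [← mul_div_assoc]
    refine div_le_div_of_nonneg_right ?_ hY0.le
    have p1 : (1 : ℝ) ≤ exp z ^ b := pw1 hE1 b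
    have p2 : 1 + 3 * (n : ℝ) * exp z ^ b ≤ exp z * exp z ^ b := by nlinarith
    calc (1 + 3 * (n : ℝ) * exp z ^ b) * exp z ^ b ≤ exp z * exp z ^ b * exp z ^ b :=
          mul_le_mul_of_nonneg_right p2 (by positivity)
      _ = exp z ^ (2 * b + 1) := by ring
      _ ≤ _ := mN (by omega)
  -- the slopes of the leaf
  obtain ⟨El, hEl⟩ : ∃ El : D.Ω → ℕ → ℕ → ℝ, El = fun ω l k => if E ω then
      sS n (sl0 gam n) (D.g i j) (fz (D.X ω 0) (P (bb D i j r ω))) (fz (D.X ω 0) (V ω)) l k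
      else 0 := ⟨_, rfl⟩
  obtain ⟨Ev, hEv⟩ : ∃ Ev : D.Ω → ℕ → ℕ → ℝ, Ev = fun ω u k =>
      if E ω ∧ gr gam n u ∧ sl0 gam n k then
        EV D n i j gam (P (bb D i j r ω)) (V ω) (S ω) ω u k else 0 := ⟨_, rfl⟩
  have hElE : ∀ ω, E ω → ∀ l k, El ω l k =
      sS n (sl0 gam n) (D.g i j) (fz (D.X ω 0) (P (bb D i j r ω))) (fz (D.X ω 0) (V ω)) l k := by
    intro ω hω l k
    rw [hEl]
    simp only
    rw [if_pos hω]
  have hEvE : ∀ ω u k, E ω → gr gam n u → sl0 gam n k → Ev ω u k =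
      EV D n i j gam (P (bb D i j r ω)) (V ω) (S ω) ω u k := by
    intro ω u k hω hu hk
    rw [hEv]
    simp only
    rw [if_pos ⟨hω, hu, hk⟩]
  have hEv0 : ∀ ω u k, ¬ (E ω ∧ gr gam n u ∧ sl0 gam n k) → Ev ω u k = 0 := by
    intro ω u k h
    rw [hEv]
    simp only
    rw [if_neg h]
  have hla : ∀ ω, E ω → ∀ l, 1 ≤ l → la D n i j r gam P El ω l =
      sN n (sl0 gam n) (D.g i j) (fz (D.X ω 0) (P (bb D i j r ω))) (fz (D.X ω 0) (V ω))
        (D.X ω) l := by
    intro ω hω l hl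
    unfold la sN ze
    rw [nat_fz' _ _ rfl hl]
    congr 1
    refine Finset.sum_congr rfl fun k hk => ?_
    rw [hElE ω hω, nat_fz' _ _ rfl (Finset.mem_filter.1 hk).2.1]
  refine ⟨El, Ev, fun ω u k => ?_, fun ω u k w hw => ?_, fun ω u k huk => ⟨?_, ?_⟩,
    fun ω ω' hω hω' hbb hT => ⟨fun hs l hl k hk => ?_, fun hcc u hu k hk w hw => ?_,
      fun hcc => ⟨fun l hl => ?_, fun u hu w hw1 hw2 => ?_⟩⟩⟩
  · -- bound of El
    by_cases hω : E ω
    · rw [hElE ω hω]
      exact (k1 ω hω u k).1.trans (mN (by omega))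
    · rw [hEl]
      simp only
      rw [if_neg hω, abs_zero]
      positivity
  · -- bound of Ev
    by_cases h : E ω ∧ gr gam n u ∧ sl0 gam n k
    · obtain ⟨hω, hu, hk⟩ := h
      rw [hEvE ω u k hω hu hk]
      have hW : (0 : ℝ) < 2 ^ w := by positivity
      have hGW : (2 : ℝ) ^ (w₀ + j * z) ≤ 2 ^ w := pow_le_pow_right₀ (by norm_num) hw
      rw [abs_div, abs_of_pos hW, div_le_iff₀ hW]
      unfold EV
      have e4 : |∑ l ∈ (range n).filter (sl1 gam n), S ω u l *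
          (vz D n i j gam (P (bb D i j r ω)) (V ω) ω (ek k) l -
            vz D n i j gam (P (bb D i j r ω)) (V ω) ω (fun _ => 0) l)| ≤
          n * (exp z ^ b * (exp z ^ b * 2 ^ (w₀ + j * z))) := by
        refine (Finset.abs_sum_le_sum_abs _ _).trans (le_trans ?_
          (mul_le_mul_of_nonneg_right hcard (by positivity)))
        rw [← nsmul_eq_mul]
        refine Finset.sum_le_card_nsmul _ _ _ fun l hl => ?_
        have hl' := (Finset.mem_filter.1 hl).2
        rw [abs_mul]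
        exact mul_le_mul (hS' ω u l) (hdk ω hω l hl'.1 hl'.2.1.le k) (abs_nonneg _)
          (by positivity)
      refine (abs_sub _ _).trans ((add_le_add (hdk ω hω u hu.1 hu.2.1 k) e4).trans ?_)
      have p1 : (1 : ℝ) ≤ exp z ^ b := pw1 hE1 b
      have p3 : exp (z : ℝ) ^ b * 2 ^ (w₀ + j * z) +
          n * (exp z ^ b * (exp z ^ b * 2 ^ (w₀ + j * z))) =
          (1 + n * exp z ^ b) * exp z ^ b * 2 ^ (w₀ + j * z) := by ring
      have p2 : 1 + (n : ℝ) * exp z ^ b ≤ exp z * exp z ^ b := by nlinarith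
      rw [p3]
      refine mul_le_mul ?_ hGW hG.le (by positivity)
      calc (1 + (n : ℝ) * exp z ^ b) * exp z ^ b ≤ exp z * exp z ^ b * exp z ^ b :=
            mul_le_mul_of_nonneg_right p2 (by positivity)
        _ = exp z ^ (2 * b + 1) := by ring
        _ ≤ _ := mN (by omega)
    · rw [hEv0 ω u k h, zero_div, abs_zero]
      positivity
  · -- El is triangular
    by_cases hω : E ω
    · rw [hElE ω hω]
      exact SS_zero _ _ _ _ _ huk
    · rw [hEl]
      simp only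
      rw [if_neg hω]
  · -- Ev is triangular
    by_cases h : E ω ∧ gr gam n u ∧ sl0 gam n k
    · obtain ⟨hω, hu, hk⟩ := h
      rw [hEvE ω u k hω hu hk]
      have hne : u ≠ k := fun h3 => by
        have e1 := ((Pool.P5.gr_iff g3 u).1 hu).2.2
        rw [h3, hk.2.2] at e1
        norm_num at e1
      have tV := (hV ω hω).tri
      unfold EV
      rw [vz_ek (tP ω hω) tV (by omega), sub_self, zero_sub, neg_eq_zero]
      refine Finset.sum_eq_zero fun l _ => ?_
      rcases Nat.lt_or_ge l u with h3 | h3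
      · rw [vz_ek (tP ω hω) tV (by omega), sub_self, mul_zero]
      · rw [hSt ω u l h3, zero_mul]
    · exact hEv0 ω u k h
  · -- El known
    rw [hElE ω hω, hElE ω' hω']
    refine ((k3 ω ω' hω hω' hbb hT).1 hs l hl.1 hl.2.1.le (fun h3 => ?_) k hk).trans
      (div_le_div_of_nonneg_right (mN (by omega)) hY0.le)
    exact Pool.P5.sl0_sl1 h3 hl
  · -- Ev known
    have hqω := (hE ω hω).1
    have hqω' := (hE ω' hω').1
    have hs : D.s (i - r'') (j + r) ω = D.s (i - r'') (j + r) ω' :=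
      s_up hO (by omega) (by omega) hqω hqω' hcc hT
    rw [hEvE ω u k hω hu hk, hEvE ω' u k hω' hu hk, ← sub_div]
    have hW : (0 : ℝ) < 2 ^ w := by positivity
    have hGW : (2 : ℝ) ^ (w₀ + j * z) ≤ 2 ^ w := pow_le_pow_right₀ (by norm_num) hw
    have hP' : FrP D n K' z i j r C (P (bb D i j r ω)) ω' := by
      rw [hbb]
      exact (hE ω' hω').2.2
    have t1 := (hz₂ J a₀ w₀ z i j D q κ hz2 hpl hO (P (bb D i j r ω)) (V ω) (V ω') ω ω'
      (hV ω hω) (hV ω' hω') (hE ω hω).2.2 hP' hT).2 hcc k u hu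
    have tV := (hV ω hω).tri
    have tV' := (hV ω' hω').tri
    have tPP := tP ω hω
    have t2 := alg_t (n := n) (Sl := (range n).filter (sl gam n))
      (B := (range n).filter (sl1 gam n)) (e := exp z ^ b / 2 ^ (y * z))
      (G := 2 ^ (w₀ + j * z)) (b := exp z ^ b)
      (du := vz D n i j gam (P (bb D i j r ω)) (V ω) ω (ek k) u -
        vz D n i j gam (P (bb D i j r ω)) (V ω) ω (fun _ => 0) u)
      (du' := vz D n i j gam (P (bb D i j r ω)) (V ω') ω' (ek k) u -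
        vz D n i j gam (P (bb D i j r ω)) (V ω') ω' (fun _ => 0) u)
      (d := fun l => vz D n i j gam (P (bb D i j r ω)) (V ω) ω (ek k) l -
        vz D n i j gam (P (bb D i j r ω)) (V ω) ω (fun _ => 0) l)
      (d' := fun l => vz D n i j gam (P (bb D i j r ω)) (V ω') ω' (ek k) l -
        vz D n i j gam (P (bb D i j r ω)) (V ω') ω' (fun _ => 0) l)
      (S := S ω u) (S' := S ω' u)
      (s' := SS n (sl gam n) (lc (D.g i j) (fz (D.X ω' 0) (P (bb D i j r ω)))
        (fz (D.X ω' 0) (V ω'))) u)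
      (fun l hl => Finset.mem_filter.2 ⟨(Finset.mem_filter.1 hl).1,
        Pool.P5.sl1_sl g3 (Finset.mem_filter.1 hl).2⟩)
      (by positivity) (by positivity) hG.le hcard
      (fun l hl hl1 => by
        have h3 := (Finset.mem_filter.1 hl).2
        have h4 : sl0 gam n l := ((Pool.P5.sl_iff g3 l).1 h3).resolve_right fun h5 =>
          hl1 (Finset.mem_filter.2 ⟨(Finset.mem_filter.1 hl).1, h5⟩)
        exact ⟨by rw [vz_so tPP tV _ h4, vz_so tPP tV _ h4, sub_self],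
          by rw [vz_so tPP tV' _ h4, vz_so tPP tV' _ h4, sub_self]⟩)
      (fun l hl => by
        have hl' := (Finset.mem_filter.1 hl).2
        refine ⟨hdk ω hω l hl'.1 hl'.2.1.le k, ?_⟩
        have := hdk ω' hω' l hl'.1 hl'.2.1.le k
        rwa [← hbb] at this)
      (fun l hl => by
        have hl' := (Finset.mem_filter.1 hl).2
        have hsl := Pool.P5.sl1_sl g3 hl'
        refine ⟨(hSR ω ω' hω hω' hbb hT hs u hu l hsl).trans
          (div_le_div_of_nonneg_right ((exp_pow z hc).trans (mb (by omega))) hY0.le), ?_⟩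
        have := k2 S ω' hω' (hSA ω' hω') u hu l hsl
        rw [← hbb] at this
        exact this.trans (div_le_div_of_nonneg_right (mb (by omega)) hY0.le))
      (t1.trans (mul_le_mul_of_nonneg_right (div_le_div_of_nonneg_right (mb (by omega)) hY0.le)
        hG.le))
    rw [abs_div, abs_of_pos hW, div_le_iff₀ hW]
    unfold EV
    rw [← hbb]
    refine t2.trans (mul_le_mul fin2 hGW hG.le (by positivity))
  · -- la
    have hqω := (hE ω hω).1
    have hqω' := (hE ω' hω').1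
    have hs : D.s (i - r2) (j + r) ω = D.s (i - r2) (j + r) ω' :=
      s_up hO (by omega) (by omega) hqω hqω' hcc hT
    rw [hla ω hω l hl.1, hla ω' hω' l hl.1]
    exact ((k3 ω ω' hω hω' hbb hT).2 hs l hl.1 hl.2.1.le (fun h3 => Pool.P5.sl0_sl1 h3 hl)).trans
      (div_le_div_of_nonneg_right (mN (by omega)) hY0.le)
  · -- wl
    have hqω := (hE ω hω).1
    have hqω' := (hE ω' hω').1
    have hc9 : D.c (i - r'') (j + r) ω = D.c (i - r'') (j + r) ω' := by
      have e1 : i - r2 = (i - r'') + (r'' - r2) := by omega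
      rw [e1] at hcc
      exact c_up hO (by omega) (by omega) hqω hqω' hcc
    have hs : D.s (i - r'') (j + r) ω = D.s (i - r'') (j + r) ω' :=
      s_up hO (by omega) (by omega) hqω hqω' hc9 hT
    have hW : (0 : ℝ) < 2 ^ w := by positivity
    have hGW : (2 : ℝ) ^ (w₀ + j * z) ≤ 2 ^ w := pow_le_pow_right₀ (by norm_num) hw1
    -- the velocity of one sample
    have wv : ∀ ω, E ω → |wl D n J w i j r gam P S Ev ω u -
        WV D n i j gam (P (bb D i j r ω)) (V ω) (S ω) ω u / 2 ^ w| ≤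
          exp z ^ b / 2 ^ (y * z) := by
      intro ω hω
      have t1 := (one ω hω).2 (S ω u) w u (fun l => hSb ω u l) hw1 hw2 hu
      have e1 : wl D n J w i j r gam P S Ev ω u =
          b1 D J w i j r (fun _ => P (bb D i j r ω)) ω u +
          2 * rt D J w ω * b2 D J w i j r (fun _ => P (bb D i j r ω)) ω u -
          ∑ k ∈ (range n).filter (sl0 gam n),
            ((vz D n i j gam (P (bb D i j r ω)) (V ω) ω (ek k) u -
              vz D n i j gam (P (bb D i j r ω)) (V ω) ω (fun _ => 0) u) -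
              ∑ l ∈ (range n).filter (sl1 gam n), S ω u l *
                (vz D n i j gam (P (bb D i j r ω)) (V ω) ω (ek k) l -
                vz D n i j gam (P (bb D i j r ω)) (V ω) ω (fun _ => 0) l)) / 2 ^ w *
                  ze D i j r (fun _ => P (bb D i j r ω)) ω k -
          ∑ l ∈ (range n).filter (sl1 gam n), S ω u l *
            b1 D J w i j r (fun _ => P (bb D i j r ω)) ω l := by
        unfold wl
        have e2 : ∑ k ∈ (range n).filter (sl0 gam n), Ev ω u k / 2 ^ w * ze D i j r P ω k =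
            ∑ k ∈ (range n).filter (sl0 gam n),
            ((vz D n i j gam (P (bb D i j r ω)) (V ω) ω (ek k) u -
              vz D n i j gam (P (bb D i j r ω)) (V ω) ω (fun _ => 0) u) -
              ∑ l ∈ (range n).filter (sl1 gam n), S ω u l *
                (vz D n i j gam (P (bb D i j r ω)) (V ω) ω (ek k) l -
                vz D n i j gam (P (bb D i j r ω)) (V ω) ω (fun _ => 0) l)) / 2 ^ w *
                  ze D i j r (fun _ => P (bb D i j r ω)) ω k := by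
          refine Finset.sum_congr rfl fun k hk => ?_
          rw [hEvE ω u k hω hu (Finset.mem_filter.1 hk).2]
          rfl
        rw [e2]
        rfl
      rw [e1]
      exact t1.trans (div_le_div_of_nonneg_right (mb (by omega)) hY0.le)
    have t1 := wv ω hω
    have t1' := wv ω' hω'
    rw [← hbb] at t1'
    have hP' : FrP D n K' z i j r C (P (bb D i j r ω)) ω' := by
      rw [hbb]
      exact (hE ω' hω').2.2
    have t2 := (hz₂ J a₀ w₀ z i j D q κ hz2 hpl hO (P (bb D i j r ω)) (V ω) (V ω') ω ω'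
      (hV ω hω) (hV ω' hω') (hE ω hω).2.2 hP' hT).1 hcc u hu
    have tV := (hV ω hω).tri
    have tV' := (hV ω' hω').tri
    have tPP := tP ω hω
    have t3 := alg_t (n := n) (Sl := (range n).filter (sl gam n))
      (B := (range n).filter (sl1 gam n)) (e := exp z ^ b / 2 ^ (y * z))
      (G := 2 ^ (w₀ + j * z)) (b := exp z ^ b)
      (du := vz D n i j gam (P (bb D i j r ω)) (V ω) ω (fun _ => 0) u)
      (du' := vz D n i j gam (P (bb D i j r ω)) (V ω') ω' (fun _ => 0) u)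
      (d := vz D n i j gam (P (bb D i j r ω)) (V ω) ω (fun _ => 0))
      (d' := vz D n i j gam (P (bb D i j r ω)) (V ω') ω' (fun _ => 0))
      (S := S ω u) (S' := S ω' u)
      (s' := SS n (sl gam n) (lc (D.g i j) (fz (D.X ω' 0) (P (bb D i j r ω)))
        (fz (D.X ω' 0) (V ω'))) u)
      (fun l hl => Finset.mem_filter.2 ⟨(Finset.mem_filter.1 hl).1,
        Pool.P5.sl1_sl g3 (Finset.mem_filter.1 hl).2⟩)
      (by positivity) (by positivity) hG.le hcard
      (fun l hl hl1 => by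
        have h3 := (Finset.mem_filter.1 hl).2
        have h4 : sl0 gam n l := ((Pool.P5.sl_iff g3 l).1 h3).resolve_right fun h5 =>
          hl1 (Finset.mem_filter.2 ⟨(Finset.mem_filter.1 hl).1, h5⟩)
        exact ⟨vz_so tPP tV _ h4, vz_so tPP tV' _ h4⟩)
      (fun l hl => by
        have hl' := (Finset.mem_filter.1 hl).2
        have q1 : exp (z : ℝ) ^ N₁ * 2 ^ (w₀ + j * z) ≤ exp z ^ b * 2 ^ (w₀ + j * z) :=
          mul_le_mul_of_nonneg_right (mb (by omega)) hG.le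
        refine ⟨(hv0 ω hω l hl'.1 hl'.2.1.le).trans q1, ?_⟩
        have := hv0 ω' hω' l hl'.1 hl'.2.1.le
        rw [← hbb] at this
        exact this.trans q1)
      (fun l hl => by
        have hl' := (Finset.mem_filter.1 hl).2
        have hsl := Pool.P5.sl1_sl g3 hl'
        refine ⟨(hSR ω ω' hω hω' hbb hT hs u hu l hsl).trans
          (div_le_div_of_nonneg_right ((exp_pow z hc).trans (mb (by omega))) hY0.le), ?_⟩
        have := k2 S ω' hω' (hSA ω' hω') u hu l hsl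
        rw [← hbb] at this
        exact this.trans (div_le_div_of_nonneg_right (mb (by omega)) hY0.le))
      (t2.trans (mul_le_mul_of_nonneg_right (div_le_div_of_nonneg_right (mb (by omega)) hY0.le)
        hG.le))
    have t4 : |WV D n i j gam (P (bb D i j r ω)) (V ω) (S ω) ω u / 2 ^ w -
        WV D n i j gam (P (bb D i j r ω)) (V ω') (S ω') ω' u / 2 ^ w| ≤
        (1 + 3 * (n : ℝ) * exp z ^ b) * (exp z ^ b / 2 ^ (y * z)) := by
      rw [← sub_div, abs_div, abs_of_pos hW, div_le_iff₀ hW]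
      exact t3.trans (mul_le_mul_of_nonneg_left hGW (by positivity))
    have e5 : wl D n J w i j r gam P S Ev ω u - wl D n J w i j r gam P S Ev ω' u =
        (wl D n J w i j r gam P S Ev ω u -
          WV D n i j gam (P (bb D i j r ω)) (V ω) (S ω) ω u / 2 ^ w) -
        (wl D n J w i j r gam P S Ev ω' u -
          WV D n i j gam (P (bb D i j r ω)) (V ω') (S ω') ω' u / 2 ^ w) +
        (WV D n i j gam (P (bb D i j r ω)) (V ω) (S ω) ω u / 2 ^ w -
        WV D n i j gam (P (bb D i j r ω)) (V ω') (S ω') ω' u / 2 ^ w) := by ring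
    rw [e5]
    refine (abs_add_le _ _).trans ((add_le_add ((abs_sub _ _).trans (add_le_add t1 t1'))
      t4).trans ?_)
    have p1 : (1 : ℝ) ≤ exp z ^ b := pw1 hE1 b
    have p4 : exp (z : ℝ) ^ b / 2 ^ (y * z) + exp z ^ b / 2 ^ (y * z) +
        (1 + 3 * (n : ℝ) * exp z ^ b) * (exp z ^ b / 2 ^ (y * z)) =
        ((3 + 3 * (n : ℝ) * exp z ^ b) * exp z ^ b) / 2 ^ (y * z) := by ring
    rw [p4]
    refine div_le_div_of_nonneg_right ?_ hY0.le
    have p2 : 3 + 3 * (n : ℝ) * exp z ^ b ≤ exp z * exp z ^ b := by nlinarith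
    calc (3 + 3 * (n : ℝ) * exp z ^ b) * exp z ^ b ≤ exp z * exp z ^ b * exp z ^ b :=
          mul_le_mul_of_nonneg_right p2 (by positivity)
      _ = exp z ^ (2 * b + 1) := by ring
      _ ≤ _ := mN (by omega)

end Pool.P5L
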