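import Pool.Agent.H12.P5.Stm
import Pool.Agent.H38.P4.Cld

/-!
# P5: the closed leaves, statements of the pieces

Systems at one time as in `Pool.P4O`: `Sy`, `Cls`, `Lv`, `lc`. `So` are the constant slow
coordinates, a leaf point over `ζ` has the coordinates `ζ` in `So` over `P` and is on the sheets of
`V` in the others.
-/

set_option autoImplicit false

namespace Pool.P5L

open Finset Real MvPolynomial
open Pool.Agent.H49.Ent Pool.Agent.H32.Dense Pool.STK Pool.STAT Pool.MIC.Frm Pool.MIC7 Pool.FRM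
open Pool.P4O (Sy Cls Lv lc lc0)

/-- The frames at one time. -/
structure Fr (n K a : ℕ) (E t σ : ℝ) (g g₀ : ℕ → ℕ) (P V : ℕ → PN) : Prop where
  hP : Sy K t P
  hV : Sy K t V
  PV : Cls n g (E ^ a) P V
  PV0 : Cls n g₀ (E ^ a) P V
  lv : Lv n g g₀ σ (E ^ a)

/-- Leaf points at one time. -/
structure Lfb (g : ℕ → ℕ) (So : ℕ → Prop) (P V : ℕ → PN) (t : ℝ) (ζ b : ℕ → ℝ) : Prop where
  b0 : b 0 = t
  bs : ∀ l, 1 ≤ l → So l → nat g P b l = ζ l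
  bg : ∀ l, 1 ≤ l → ¬ So l → b l = eval b (V l)

open Classical in
/-- **(B3)** The leaf is bounded and affine over `So`. -/
def B3 : Prop := ∀ n K a : ℕ, ∃ (a' : ℕ) (c₀ : ℝ), ∀ (E t σ : ℝ) (g g₀ : ℕ → ℕ) (So : ℕ → Prop)
  (P V : ℕ → PN), 1 ≤ E → c₀ ≤ E → 1 ≤ σ → (∀ l, So l → 1 ≤ l ∧ l < n) →
  Fr n K a E t σ g g₀ P V → ∀ (ζ b b₀ : ℕ → ℝ) (bk : ℕ → ℕ → ℝ), (∀ l, So l → |ζ l| ≤ E ^ a) →
  Lfb g So P V t ζ b → Lfb g So P V t (fun _ => 0) b₀ →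
  (∀ k, So k → Lfb g So P V t (fun l => if l = k then 1 else 0) (bk k)) →
  ∀ u, 1 ≤ u → u ≤ n → |nat g P b u| ≤ E ^ a' ∧
    |(nat g P b u - nat g P b₀ u) -
      ∑ k ∈ (range n).filter So, ζ k * (nat g P (bk k) u - nat g P b₀ u)| ≤ E ^ a' / σ

/-- **(B4)** The leaves of two frames which are close at the place `gR`. -/
def B4 : Prop := ∀ n K a : ℕ, ∃ (a' : ℕ) (c₀ : ℝ), ∀ (E t σ : ℝ) (g g₀ gR : ℕ → ℕ)
  (So : ℕ → Prop) (P V V' : ℕ → PN), 1 ≤ E → c₀ ≤ E → 1 ≤ σ → (∀ l, So l → 1 ≤ l ∧ l < n) →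
  Fr n K a E t σ g g₀ P V → Fr n K a E t σ g g₀ P V' → Cls n gR (E ^ a) V V' →
  (∀ k, So k → (2 : ℝ) ^ gR k ≤ E ^ a * 2 ^ g k) →
  ∀ (ζ b b' : ℕ → ℝ), (∀ l, So l → |ζ l| ≤ E ^ a) → Lfb g So P V t ζ b →
  Lfb g So P V' t ζ b' → ∀ u, 1 ≤ u → u ≤ n → ¬ So u →
    |(nat g P b u - nat g P b' u) -
      ∑ m ∈ Finset.Ico 1 u, lc g P V' u m * (nat g P b m - nat g P b' m)| ≤
      E ^ a' * (2 ^ g u / 2 ^ gR u + 1 / σ)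

/-- **(B5)** The differences of two leaf points, for two frames which are close at the place
`gS`. -/
def B5 : Prop := ∀ n K a : ℕ, ∃ (a' : ℕ) (c₀ : ℝ), ∀ (E t σ : ℝ) (g g₀ gS : ℕ → ℕ)
  (So : ℕ → Prop) (P V V' : ℕ → PN), 1 ≤ E → c₀ ≤ E → 1 ≤ σ → (∀ l, So l → 1 ≤ l ∧ l < n) →
  Fr n K a E t σ g g₀ P V → Fr n K a E t σ g g₀ P V' → Cls n gS (E ^ a) V V' →
  (∀ k, So k → (2 : ℝ) ^ gS k ≤ E ^ a * 2 ^ g k) →
  ∀ (ζ ζ₀ b b₀ b' b₀' : ℕ → ℝ), (∀ l, So l → |ζ l| ≤ E ^ a ∧ |ζ₀ l| ≤ E ^ a) →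
  Lfb g So P V t ζ b → Lfb g So P V t ζ₀ b₀ → Lfb g So P V' t ζ b' → Lfb g So P V' t ζ₀ b₀' →
  ∀ u, 1 ≤ u → u ≤ n → ¬ So u → ∀ θ : ℝ, 0 ≤ θ →
    (∀ k, So k → (2 : ℝ) ^ g u / 2 ^ gS u * (2 ^ gS k / 2 ^ g k) ≤ θ) →
    |((nat g P b u - nat g P b₀ u) - (nat g P b' u - nat g P b₀' u)) -
      ∑ m ∈ Finset.Ico 1 u, lc g P V' u m *
        ((nat g P b m - nat g P b₀ m) - (nat g P b' m - nat g P b₀' m))| ≤
      E ^ a' * (θ + 1 / σ)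

end Pool.P5L

namespace Pool.P5

open Finset Real MvPolynomial
open Pool.Agent.H49.Ent Pool.Agent.H32.Dense Pool.STK Pool.STAT Pool.MIC.Frm Pool.MIC7 Pool.FRM
open Pool.GSD
open Pool.P4 (t0 rt pp PthC FraC bb ze zt z0 be GoodS FrP)

/-- **(VEL)** The paths over a closed frame as polynomials in the time from the own time, and their
velocities at the own time. -/
def VelStmt : Prop :=
  ∀ (n K K' : ℕ) (lam gam : ℕ → ℝ) (C₁ C : ℝ), 1 ≤ n → 1 ≤ C₁ → 0 ≤ C →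
    (∀ l, 1 ≤ l → l ≤ n → lam l = 1) → ∃ C' : ℝ, 1 ≤ C' ∧
    ∀ (y r r2 r' r'' a M : ℕ), ∃ z₀ : ℕ, ∀ (J a₀ w₀ z i j : ℕ) (D : NDat2) (q : D.Ω → ℝ) (κ : ℝ),
      z₀ ≤ z → Plc n gam y r r2 r' r'' a M i j → D.Ok2 n K J a₀ w₀ z M lam gam κ C₁ q →
      ∀ (P : ℕ → PN) (ω : D.Ω), 0 < q ω → GoodS D n K' w₀ z M C ω → FrP D n K' z i j r C P ω →
      ∃ R : ℕ → Polynomial ℝ, (∀ l, (R l).natDegree ≤ (K' + 1) * (K + 1)) ∧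
        (∀ l h, (R l).eval h = nat (D.g i j) P (pp D (D.ln ω) (D.X ω 0 + h)) l) ∧
        (∀ l, 1 ≤ l → l ≤ n → ∀ h, |h| ≤ 1 / 2 ^ (w₀ + j * z) →
          |(R l).eval h| ≤ exp (C' * z)) ∧
        (∀ l, sl0 gam n l → ∀ h, |h| ≤ 1 / 2 ^ (w₀ + j * z) →
          |(R l).eval h - (R l).eval 0| ≤ exp (C' * z) / 2 ^ (y * z)) ∧
        ∀ w, w₀ + j * z ≤ w → w ≤ w₀ + (j + 1) * z →
          (∀ l, sl1 gam n l → |(R l).coeff 1 / 2 ^ w - b1 D J w i j r (fun _ => P) ω l| ≤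
            exp (C' * z) / 2 ^ (y * z)) ∧
          ∀ u, gr gam n u → |(R u).coeff 1 / 2 ^ w - (b1 D J w i j r (fun _ => P) ω u +
            2 * rt D J w ω * b2 D J w i j r (fun _ => P) ω u)| ≤ exp (C' * z) / 2 ^ (y * z)

end Pool.P5
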