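import Pool.Agent.H12.P5.Def

/-!
# P5: the pieces, statements
-/

set_option autoImplicit false

namespace Pool.P5

open Finset Real MvPolynomial
open Pool.Agent.H49.Ent Pool.Agent.H32.Dense Pool.STK Pool.STAT Pool.MIC.Frm Pool.MIC7 Pool.FRM
open Pool.GSD
open Pool.BFL (Pb)
open Pool.P4 (t0 rt pp PthC FraC bb ze zt z0 be cl1 dg dgp Ry cb LLC tq GoodS FrP err GnL NewLabT
  NBT NFc)

/-! ### Geometry -/

/-- The arithmetic of a place. -/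
structure Plc (n : ℕ) (gam : ℕ → ℝ) (y r r2 r' r'' a M i j : ℕ) : Prop where
  stp : Stp n gam y r r2 r' r'' a
  y1 : 1 ≤ y
  a1 : a ≤ i
  i1 : r'' ≤ i
  i2 : i + r'' < M
  j1 : r ≤ j
  j2 : j + r < M

open Classical in
/-- **(LIN)** The lines over a closed frame, deterministic. -/
def LinStmt : Prop :=
  ∀ (n K K' : ℕ) (lam gam : ℕ → ℝ) (C₁ C : ℝ), 1 ≤ n → 1 ≤ C₁ → 0 ≤ C →
    (∀ l, 1 ≤ l → l ≤ n → lam l = 1) → ∃ C' : ℝ, 1 ≤ C' ∧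
    ∀ (y r r2 r' r'' a M : ℕ), ∃ z₀ : ℕ, ∀ (J a₀ w₀ z i j : ℕ) (D : NDat2) (q : D.Ω → ℝ) (κ : ℝ),
      z₀ ≤ z → Plc n gam y r r2 r' r'' a M i j → D.Ok2 n K J a₀ w₀ z M lam gam κ C₁ q →
      ∀ (P : ℕ → PN) (ω : D.Ω), 0 < q ω → GoodS D n K' w₀ z M C ω → FrP D n K' z i j r C P ω →
      (∀ l, 1 ≤ l → l ≤ n → |ze D i j r (fun _ => P) ω l| ≤ exp (C' * z)) ∧
      (∀ w, w₀ + j * z ≤ w → w ≤ w₀ + (j + 1) * z →
        (∀ l, 1 ≤ l → l ≤ n → |z0 D J w i j r (fun _ => P) ω l| ≤ exp (C' * z) ∧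
          |b1 D J w i j r (fun _ => P) ω l| ≤ exp (C' * z) ∧
          |b2 D J w i j r (fun _ => P) ω l| ≤ exp (C' * z)) ∧
        (∀ l, sl0 gam n l → |ze D i j r (fun _ => P) ω l - z0 D J w i j r (fun _ => P) ω l| ≤
            exp (C' * z) / 2 ^ (y * z) ∧
          |b1 D J w i j r (fun _ => P) ω l| ≤ exp (C' * z) / 2 ^ (y * z) ∧
          |b2 D J w i j r (fun _ => P) ω l| ≤ exp (C' * z) / 2 ^ (y * z)) ∧
        (∀ l, sl1 gam n l → |ze D i j r (fun _ => P) ω l - (z0 D J w i j r (fun _ => P) ω l +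
            rt D J w ω * b1 D J w i j r (fun _ => P) ω l)| ≤ exp (C' * z) / 2 ^ (y * z) ∧
          |b2 D J w i j r (fun _ => P) ω l| ≤ exp (C' * z) / 2 ^ (y * z)) ∧
        (∀ l, gr gam n l → |ze D i j r (fun _ => P) ω l - (z0 D J w i j r (fun _ => P) ω l +
          rt D J w ω * b1 D J w i j r (fun _ => P) ω l +
          rt D J w ω ^ 2 * b2 D J w i j r (fun _ => P) ω l)| ≤ exp (C' * z) / 2 ^ (y * z)) ∧
        ∀ ω', 0 < q ω' → GoodS D n K' w₀ z M C ω' → bb D i j r ω = bb D i j r ω' →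
          D.T ω / 2 ^ (J - w) = D.T ω' / 2 ^ (J - w) →
          (D.c (i + r') (j - r) ω = D.c (i + r') (j - r) ω' →
            (∀ l, sl gam n l →
              |z0 D J w i j r (fun _ => P) ω l - z0 D J w i j r (fun _ => P) ω' l| ≤
                exp (C' * z) / 2 ^ (y * z) ∧
              |b1 D J w i j r (fun _ => P) ω l - b1 D J w i j r (fun _ => P) ω' l| ≤
                exp (C' * z) / 2 ^ (y * z)) ∧
            ∀ l, gr gam n l →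
              |b1 D J w i j r (fun _ => P) ω l - b1 D J w i j r (fun _ => P) ω' l| ≤
                exp (C' * z) / 2 ^ (y * z) ∧
              |b2 D J w i j r (fun _ => P) ω l - b2 D J w i j r (fun _ => P) ω' l| ≤
                exp (C' * z) / 2 ^ (y * z)) ∧
          (D.c (i + r2) (j - r) ω = D.c (i + r2) (j - r) ω' →
            (∀ l, sl0 gam n l →
              |z0 D J w i j r (fun _ => P) ω l - z0 D J w i j r (fun _ => P) ω' l| ≤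
                exp (C' * z) / 2 ^ (y * z)) ∧
            (∀ l, sl1 gam n l →
              |b1 D J w i j r (fun _ => P) ω l - b1 D J w i j r (fun _ => P) ω' l| ≤
                exp (C' * z) / 2 ^ (y * z)) ∧
            ∀ l, gr gam n l →
              |b2 D J w i j r (fun _ => P) ω l - b2 D J w i j r (fun _ => P) ω' l| ≤
                exp (C' * z) / 2 ^ (y * z)) ∧
          (D.c (i + r'') (j - r) ω = D.c (i + r'') (j - r) ω' →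
            ∀ l, 1 ≤ l → l ≤ n →
              |z0 D J w i j r (fun _ => P) ω l - z0 D J w i j r (fun _ => P) ω' l| ≤
                exp (C' * z) / 2 ^ (y * z) ∧
              |b1 D J w i j r (fun _ => P) ω l - b1 D J w i j r (fun _ => P) ω' l| ≤
                exp (C' * z) / 2 ^ (y * z) ∧
              |b2 D J w i j r (fun _ => P) ω l - b2 D J w i j r (fun _ => P) ω' l| ≤
                exp (C' * z) / 2 ^ (y * z)))

open Classical in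
/-- The own sheet of `ω` at `R = (i - r', j + r)` is affine over the slow coordinates, with the
slopes `S`. -/
def SheetA (D : NDat2) (n z i j r r' y : ℕ) (gam : ℕ → ℝ) (C : ℝ) (P : D.Γ × D.Γ → ℕ → PN)
    (S : D.Ω → ℕ → ℕ → ℝ) (ω : D.Ω) : Prop :=
  ∀ Bx : ℝ, 1 ≤ Bx → ∀ b : ℕ → ℝ, b 0 = D.X ω 0 →
    (∀ k, sl gam n k → |nat (D.g i j) (P (bb D i j r ω)) b k| ≤ exp (Bx * z)) →
    (∀ u, gr gam n u → b u = eval b (D.Ψ (i - r') (j + r) ω u)) →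
    ∀ u, gr gam n u → |nat (D.g i j) (P (bb D i j r ω)) b u - (nn D n i j r gam P S ω u +
      ∑ k ∈ (range n).filter (sl gam n), S ω u k * nat (D.g i j) (P (bb D i j r ω)) b k)| ≤
        exp (C * Bx * z) / 2 ^ (y * z)

/-- **(OWN)** The own sheets over a closed frame, deterministic. -/
def OwnStmt : Prop :=
  ∀ (n K K' : ℕ) (lam gam : ℕ → ℝ) (C₁ C : ℝ), 1 ≤ n → 1 ≤ C₁ → 0 ≤ C →
    (∀ l, 1 ≤ l → l ≤ n → lam l = 1) → ∃ C' : ℝ, 1 ≤ C' ∧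
    ∀ (y r r2 r' r'' a M : ℕ), ∃ z₀ : ℕ, ∀ (J a₀ w₀ z i j : ℕ) (D : NDat2) (q : D.Ω → ℝ) (κ : ℝ),
      z₀ ≤ z → Plc n gam y r r2 r' r'' a M i j → D.Ok2 n K J a₀ w₀ z M lam gam κ C₁ q →
      ∀ (P : D.Γ × D.Γ → ℕ → PN) (E : D.Ω → Prop),
      (∀ ω, E ω → 0 < q ω ∧ GoodS D n K' w₀ z M C ω ∧ FrP D n K' z i j r C (P (bb D i j r ω)) ω) →
      ∃ S : D.Ω → ℕ → ℕ → ℝ, (∀ ω u k, |S ω u k| ≤ exp (C' * z)) ∧
      (∀ ω u k, u ≤ k → S ω u k = 0) ∧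
      (∀ ω, E ω → SheetA D n z i j r r' y gam C' P S ω) ∧
      ∀ ω ω', E ω → E ω' → bb D i j r ω = bb D i j r ω' → D.T ω = D.T ω' →
        (D.s (i - r') (j + r) ω = D.s (i - r') (j + r) ω' → ∀ u, gr gam n u →
          |nn D n i j r gam P S ω u - nn D n i j r gam P S ω' u| ≤
            exp (C' * z) / 2 ^ (y * z) ∧
          ∀ k, sl gam n k → |S ω u k - S ω' u k| ≤ exp (C' * z) / 2 ^ (y * z)) ∧
        (D.s (i - r'') (j + r) ω = D.s (i - r'') (j + r) ω' → ∀ u, gr gam n u →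
          ∀ k, sl gam n k → |S ω u k - S ω' u k| ≤ exp (C' * z) / 2 ^ (y * z))

/-- **(LEAF)** The closed leaves over a closed frame, deterministic. -/
def LeafStmt : Prop :=
  ∀ (n K K' : ℕ) (lam gam : ℕ → ℝ) (C₁ C : ℝ), 1 ≤ n → 1 ≤ C₁ → 0 ≤ C →
    (∀ l, 1 ≤ l → l ≤ n → lam l = 1) → ∃ C' : ℝ, 1 ≤ C' ∧
    ∀ (y r r2 r' r'' a M : ℕ), ∃ z₀ : ℕ, ∀ (J a₀ w₀ z i j : ℕ) (D : NDat2) (q : D.Ω → ℝ) (κ : ℝ),
      z₀ ≤ z → Plc n gam y r r2 r' r'' a M i j → D.Ok2 n K J a₀ w₀ z M lam gam κ C₁ q →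
      ∀ (P : D.Γ × D.Γ → ℕ → PN) (E : D.Ω → Prop) (S : D.Ω → ℕ → ℕ → ℝ),
      (∀ ω, E ω → 0 < q ω ∧ GoodS D n K' w₀ z M C ω ∧ FrP D n K' z i j r C (P (bb D i j r ω)) ω) →
      (∀ ω u k, |S ω u k| ≤ exp (C * z)) → (∀ ω u k, u ≤ k → S ω u k = 0) →
      (∀ ω, E ω → SheetA D n z i j r r' y gam C P S ω) →
      (∀ ω ω', E ω → E ω' → bb D i j r ω = bb D i j r ω' → D.T ω = D.T ω' →
        D.s (i - r'') (j + r) ω = D.s (i - r'') (j + r) ω' → ∀ u, gr gam n u →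
          ∀ k, sl gam n k → |S ω u k - S ω' u k| ≤ exp (C * z) / 2 ^ (y * z)) →
      ∃ El Ev : D.Ω → ℕ → ℕ → ℝ, (∀ ω u k, |El ω u k| ≤ exp (C' * z)) ∧
      (∀ ω u k w, w₀ + j * z ≤ w → |Ev ω u k / 2 ^ w| ≤ exp (C' * z)) ∧
      (∀ ω u k, u ≤ k → El ω u k = 0 ∧ Ev ω u k = 0) ∧
      ∀ ω ω', E ω → E ω' → bb D i j r ω = bb D i j r ω' → D.T ω = D.T ω' →
        (D.s (i - r'') (j + r) ω = D.s (i - r'') (j + r) ω' → ∀ l, sl1 gam n l →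
          ∀ k, sl0 gam n k → |El ω l k - El ω' l k| ≤ exp (C' * z) / 2 ^ (y * z)) ∧
        (D.c (i - r'') (j + r) ω = D.c (i - r'') (j + r) ω' → ∀ u, gr gam n u →
          ∀ k, sl0 gam n k → ∀ w, w₀ + j * z ≤ w →
            |Ev ω u k / 2 ^ w - Ev ω' u k / 2 ^ w| ≤ exp (C' * z) / 2 ^ (y * z)) ∧
        (D.c (i - r2) (j + r) ω = D.c (i - r2) (j + r) ω' →
          (∀ l, sl1 gam n l → |la D n i j r gam P El ω l - la D n i j r gam P El ω' l| ≤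
            exp (C' * z) / 2 ^ (y * z)) ∧
          ∀ u, gr gam n u → ∀ w, w₀ + j * z ≤ w → w ≤ w₀ + (j + 1) * z →
            |wl D n J w i j r gam P S Ev ω u - wl D n J w i j r gam P S Ev ω' u| ≤
              exp (C' * z) / 2 ^ (y * z))

/-- **(DEP)** Deeper contexts, deterministic. -/
def DepStmt : Prop :=
  ∀ (n K K' : ℕ) (lam gam : ℕ → ℝ) (C₁ C : ℝ), 1 ≤ n → 1 ≤ C₁ → 0 ≤ C →
    (∀ l, 1 ≤ l → l ≤ n → lam l = 1) → ∃ C' : ℝ, 1 ≤ C' ∧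
    ∀ (y r r2 r' r'' a M : ℕ), ∃ z₀ : ℕ, ∀ (J a₀ w₀ z i j : ℕ) (D : NDat2) (q : D.Ω → ℝ) (κ : ℝ),
      z₀ ≤ z → Plc n gam y r r2 r' r'' a M i j → D.Ok2 n K J a₀ w₀ z M lam gam κ C₁ q →
      ∀ (P : D.Γ × D.Γ → ℕ → PN) (E : D.Ω → Prop),
      (∀ ω, E ω → 0 < q ω ∧ GoodS D n K' w₀ z M C ω ∧ FrP D n K' z i j r C (P (bb D i j r ω)) ω) →
      Dep D n J w₀ z M i j r C' q E P

/-- **(GEO)** -/
def GeoStmt : Prop :=
  ∀ (n K : ℕ) (lam gam : ℕ → ℝ) (C₁ : ℝ), 1 ≤ n → 1 ≤ C₁ → (∀ l, 1 ≤ l → l ≤ n → lam l = 1) →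
    ∃ (K' : ℕ) (C : ℝ), 1 ≤ C ∧
    ∀ (y r r2 r' r'' a M : ℕ) (e : ℝ), 0 < e → ∃ (κ : ℝ) (z₀ : ℕ), 0 < κ ∧
    ∀ (J a₀ w₀ z i j : ℕ) (D : NDat2) (q : D.Ω → ℝ), z₀ ≤ z → Plc n gam y r r2 r' r'' a M i j →
      D.Ok2 n K J a₀ w₀ z M lam gam κ C₁ q → D.TmU J w₀ z κ q →
      ∃ (E : D.Ω → Prop) (P : D.Γ × D.Γ → ℕ → PN) (S : Slo D),
        Pb q (fun ω => ¬ E ω) ≤ e ∧
        (∀ ω, E ω → 0 < q ω ∧ GoodS D n K' w₀ z M C ω ∧
          FrP D n K' z i j r C (P (bb D i j r ω)) ω) ∧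
        Geo D n K' J w₀ z i j r r2 r' r'' gam C (exp (C * z) / 2 ^ (y * z)) q E P S ∧
        Dep D n J w₀ z M i j r C q E P

/-! ### Entropies: everything which is used, and the errors -/

/-- The hypotheses of the entropic pieces. -/
structure Hyp (D : NDat2) (n K K' J a₀ w₀ z M w i j r r2 r' r'' y a X : ℕ) (lam gam : ℕ → ℝ)
    (κ C₁ C : ℝ) (q : D.Ω → ℝ) (E : D.Ω → Prop) (P : D.Γ × D.Γ → ℕ → PN)
    (S : Slo D) {c k0 k1 : ℕ} (ys : Fin (k0 + k1) → ℕ) (gs : Fin c → ℕ) : Prop where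
  ok : D.Ok2 n K J a₀ w₀ z M lam gam κ C₁ q
  dma : D.DMA z M κ q
  llc : LLC D n z M C q
  tmu : D.TmU J w₀ z κ q
  n1 : 1 ≤ n
  C1 : 1 ≤ C₁
  Cg : 1 ≤ C
  κ0 : 0 ≤ κ
  z1 : 1 ≤ z
  lam1 : ∀ l, 1 ≤ l → l ≤ n → lam l = 1
  plc : Plc n gam y r r2 r' r'' a M i j
  w1 : w₀ + j * z ≤ w
  w2 : w ≤ w₀ + (j + 1) * z
  pE : 1 / 2 ≤ Pb q E
  geo : Geo D n K' J w₀ z i j r r2 r' r'' gam C (exp (C * z) / 2 ^ (y * z)) q E P S
  gd : ∀ ω, E ω → 0 < q ω ∧ GoodS D n K' w₀ z M C ω ∧ FrP D n K' z i j r C (P (bb D i j r ω)) ω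
  dep : Dep D n J w₀ z M i j r C q E P
  yX : exp (C * z) * 2 ^ X ≤ 2 ^ (y * z)
  Xz : ∃ x, X = x * z ∧ i + x + r'' < M
  Xr : ∀ x, X = x * z → j + x * r < M
  ys_in : Function.Injective ys
  ys0 : ∀ a, sl0 gam n (ys (Fin.castAdd k1 a))
  ys1 : ∀ a, sl1 gam n (ys (Fin.natAdd k0 a))
  ys_on0 : ∀ l, sl0 gam n l → ∃ a, ys (Fin.castAdd k1 a) = l
  ys_on1 : ∀ l, sl1 gam n l → ∃ a, ys (Fin.natAdd k0 a) = l
  gs_gr : ∀ u, gr gam n (gs u)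
  gs_in : StrictMono gs
  gs_on : ∀ l, gr gam n l → ∃ u, gs u = l

namespace Hyp

variable {D : NDat2} {n K K' J a₀ w₀ z M w i j r r2 r' r'' y a X : ℕ} {lam gam : ℕ → ℝ}
  {κ C₁ C : ℝ} {q : D.Ω → ℝ} {E : D.Ω → Prop} {P : D.Γ × D.Γ → ℕ → PN} {S : Slo D}
  {c k0 k1 : ℕ} {ys : Fin (k0 + k1) → ℕ} {gs : Fin c → ℕ}
  (h : Hyp D n K K' J a₀ w₀ z M w i j r r2 r' r'' y a X lam gam κ C₁ C q E P S ys gs)

include h

theorem g3 : Gam3 n gam := h.plc.stp.g3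

theorem gam0 : ∀ l, 0 ≤ gam l := h.ok.gam_ge

theorem i1 : r'' ≤ i := h.plc.i1

theorem i0 : 1 ≤ i := by
  have h1 := h.plc.i1
  have h2 := h.plc.y1
  have h3 := h.plc.stp.er''
  omega

theorem i2 : i + r'' < M := h.plc.i2

theorem j1 : r ≤ j := h.plc.j1

theorem j2 : j + r < M := h.plc.j2

theorem r1 : r' ≤ r'' := h.plc.stp.s5

theorem r2r : r2 ≤ r' := by
  have h1 := h.plc.stp.er2
  have h2 := h.plc.stp.er'
  omega

theorem y1 : 1 ≤ y := h.plc.y1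

theorem ys_sl (b : Fin (k0 + k1)) : sl gam n (ys b) := by
  refine Fin.addCases (fun a => ?_) (fun a => ?_) b
  · exact sl0_sl h.g3 (h.ys0 a)
  · exact sl1_sl h.g3 (h.ys1 a)

theorem ys_on {l : ℕ} (hl : sl gam n l) : ∃ b, ys b = l := by
  rcases (sl_iff h.g3 l).1 hl with h1 | h1
  · obtain ⟨a, ha⟩ := h.ys_on0 l h1
    exact ⟨_, ha⟩
  · obtain ⟨a, ha⟩ := h.ys_on1 l h1
    exact ⟨_, ha⟩

end Hyp

/-- The common form of the entropic pieces: the constant `A` depends on `n, K, K', C₁, C, c, k`. -/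
def EntOf (F : ∀ (D : NDat2) (n J a₀ w₀ z M w i j r X : ℕ) (gam : ℕ → ℝ) (q : D.Ω → ℝ) (C : ℝ)
    (P : D.Γ × D.Γ → ℕ → PN) (S : Slo D) (c k0 k1 : ℕ) (ys : Fin (k0 + k1) → ℕ)
    (gs : Fin c → ℕ) (d : ℝ), Prop) : Prop :=
  ∀ (n K K' c k0 k1 : ℕ) (C₁ C : ℝ), ∃ A : ℝ, 0 ≤ A ∧
    ∀ (D : NDat2) (J a₀ w₀ z M w i j r r2 r' r'' y a X : ℕ) (lam gam : ℕ → ℝ) (κ : ℝ)
      (q : D.Ω → ℝ) (E : D.Ω → Prop) (P : D.Γ × D.Γ → ℕ → PN) (S : Slo D)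
      (ys : Fin (k0 + k1) → ℕ) (gs : Fin c → ℕ),
      Hyp D n K K' J a₀ w₀ z M w i j r r2 r' r'' y a X lam gam κ C₁ C q E P S ys gs →
      F D n J a₀ w₀ z M w i j r X gam q C P S c k0 k1 ys gs
        (err A κ z X (Pb q (fun ω => ¬ E ω)))

/-- **(H0)** The abstract time is almost independent of the line. -/
def H0Stmt : Prop := EntOf fun D _ J _ _ z _ w i j r X _ q C P S c k0 k1 ys gs d =>
  CH q (qh (c := c) (k0 := k0) (k1 := k1) D J w z i j r X C P S ys gs q).th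
      (qh (c := c) (k0 := k0) (k1 := k1) D J w z i j r X C P S ys gs q).b ≤
    CH q (qh (c := c) (k0 := k0) (k1 := k1) D J w z i j r X C P S ys gs q).th
      (qh (c := c) (k0 := k0) (k1 := k1) D J w z i j r X C P S ys gs q).line + d

/-- **(H2)** The height over the own sheet is almost independent of the data of the line. -/
def H2Stmt : Prop := EntOf fun D _ J _ _ z _ w i j r X _ q C P S c k0 k1 ys gs d =>
  let H := qh (c := c) (k0 := k0) (k1 := k1) D J w z i j r X C P S ys gs q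
  CH q H.hgt (fun ω => (H.th ω, H.b ω)) ≤
    CH q H.hgt (fun ω => (H.v ω, (H.th ω, H.b ω))) + d

/-- **(YF)** The slow coordinates are full, given the exact time. -/
def YFStmt : Prop := EntOf fun D _ J _ _ z _ w i j r X _ q C P _ _ k0 k1 ys _ d =>
  ((k0 : ℝ) + k1) * X * Real.log 2 ≤
    CH q (yv (k0 := k0) (k1 := k1) D J w z i j r X C P ys)
      (fun ω => (cb D J w i j r ω, D.T ω)) + d

/-- **(LF)** The affine slow coordinates are full, given the constant ones, the velocities of the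
affine ones and the second velocities of the group. -/
def LFStmt : Prop := EntOf fun D _ J _ _ z _ w i j r X _ q C P _ _ k0 k1 ys gs d =>
  (k1 : ℝ) * X * Real.log 2 ≤
    CH q (fun ω (l : Fin k1) => yv (k0 := k0) (k1 := k1) D J w z i j r X C P ys ω
        (Fin.natAdd k0 l))
      (fun ω => (cb D J w i j r ω, ((fun a : Fin k0 =>
        yv (k0 := k0) (k1 := k1) D J w z i j r X C P ys ω (Fin.castAdd k1 a)),
          (mv D J w z i j r X C P ys ω, be2v D J w z i j r X C P gs ω)))) + d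

/-- **(RF)** The constant slow coordinates are full, given the abstract time and the closed
leaf. -/
def RFStmt : Prop := EntOf fun D _ J _ _ z _ w i j r X _ q C P S c k0 k1 ys gs d =>
  (k0 : ℝ) * X * Real.log 2 ≤
    CH q (fun ω (a : Fin k0) => yv (k0 := k0) (k1 := k1) D J w z i j r X C P ys ω
        (Fin.castAdd k1 a))
      (fun ω => (cb D J w i j r ω, (tv (c := c) D J w z i j r X C S ys gs ω,
        fR J w X (tv (c := c) D J w z i j r X C S ys gs ω)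
          (vv D J w z i j r X C P ys gs ω)))) + d

/-- **(TF)** The time is full. -/
def TFStmt : Prop := EntOf fun D _ J _ _ _ _ w i j r X _ q _ _ _ _ _ _ _ _ d =>
  X * Real.log 2 ≤ CH q (fun ω => tq J w X (D.T ω)) (cb D J w i j r) + d

/-- **(NF)** The target is not full, given everything. -/
def NFStmt : Prop :=
  ∀ (n K K' c k0 k1 B : ℕ) (C₁ C : ℝ), 1 ≤ B → ∃ A : ℝ, 0 ≤ A ∧
    ∀ (D : NDat2) (J a₀ w₀ z M w i j r r2 r' r'' y a U : ℕ) (lam gam : ℕ → ℝ) (κ h ϖ : ℝ)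
      (q : D.Ω → ℝ) (E : D.Ω → Prop) (P : D.Γ × D.Γ → ℕ → PN) (S : Slo D)
      (ys : Fin (k0 + k1) → ℕ) (gs : Fin c → ℕ) (n₀ : Fin c),
      Hyp D n K K' J a₀ w₀ z M w i j r r2 r' r'' y a (B * U * z) lam gam κ C₁ C q E P S ys gs →
      D.NF n z M B gam h C₁ ϖ q → 0 < h → h ≤ 1 → ϖ ≤ 1 → gs n₀ = n → i + U ≤ M →
      (U : ℝ) ≤ gam n * (M - j) →
      CH q (fun ω => nuv D J w z i j r (B * U * z) C P gs ω n₀)
        (fun ω => ((fun u : {u : Fin c // u ≠ n₀} => nuv D J w z i j r (B * U * z) C P gs ω u),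
          (vv D J w z i j r (B * U * z) C P ys gs ω,
            (tv D J w z i j r (B * U * z) C S ys gs ω, cb D J w i j r ω)))) ≤
        (1 - h / B) * (B * U * z : ℕ) * Real.log 2 +
          err A κ z (B * U * z) (Pb q (fun ω => ¬ E ω))

/-- **(HS)** The group without the target is full below every depth, given everything. -/
def HsStmt : Prop := EntOf fun D n J _ _ z _ w i j r X _ q C P S c k0 k1 ys gs d =>
  ∀ n₀ : Fin c, gs n₀ = n → ∀ x ≤ X,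
    ((c : ℝ) - 1) * (((X : ℝ) - x) * Real.log 2) - d ≤
      CH q (fun ω (u : {u : Fin c // u ≠ n₀}) => nuv D J w z i j r X C P gs ω u)
        (fun ω => ((fun u => nuv D J w z i j r X C P gs ω u / 2 ^ (X - x)),
          (vv D J w z i j r X C P ys gs ω,
            (tv (k0 := k0) (k1 := k1) D J w z i j r X C S ys gs ω, cb D J w i j r ω))))

/-- **(TM)** In one of the windows two times of a line are not near. -/
def TMStmt : Prop :=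
  ∀ (η : ℝ), 0 < η → ∃ s : ℝ, 0 < s ∧ ∀ (n K K' M c k0 k1 : ℕ) (C₁ C : ℝ),
    ∃ (κ₀ : ℝ) (z₀ : ℕ), 0 < κ₀ ∧
    ∀ (D : NDat2) (J a₀ w₀ z i j r X : ℕ) (lam gam : ℕ → ℝ) (κ : ℝ) (q : D.Ω → ℝ)
      (P : D.Γ × D.Γ → ℕ → PN) (S : Slo D) (ys : Fin (k0 + k1) → ℕ) (gs : Fin c → ℕ),
      κ ≤ κ₀ → z₀ ≤ z → z ≤ X → X ≤ M * z → i ≤ M → r ≤ j → j + 1 ≤ M →
      D.Ok2 n K J a₀ w₀ z M lam gam κ C₁ q → D.TmU J w₀ z κ q →
      ∃ w, w₀ + j * z ≤ w ∧ w ≤ w₀ + (j + 1) * z ∧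
        (qh (c := c) (k0 := k0) (k1 := k1) D J w z i j r X C P S ys gs q).TM X s η

/-! ### The local theorem -/

/-- **P5, the local theorem**, in the form of `P4T`. -/
def P5T (n K A B : ℕ) (gam : ℕ → ℝ) (R : ℕ → Prop) (C₁ h δ : ℝ) : Prop :=
  ∃ (M Q K' : ℕ) (η' κ ϖ : ℝ) (z₀ : ℕ), 0 < η' ∧ 0 < κ ∧ 0 < ϖ ∧ ϖ ≤ 1 ∧
    ∀ (lam : ℕ → ℝ) (J a₀ w₀ z : ℕ) (D : NDat2) (q : D.Ω → ℝ) (U : GnL D),
      (∀ l, 1 ≤ l → l ≤ n → lam l = 1) → z₀ ≤ z →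
      D.Ok2 n K J a₀ w₀ z M lam gam κ C₁ q → D.NF n z M B gam h C₁ ϖ q →
      NFc D n z M B gam (h + δ) C₁ q → D.TmU J w₀ z κ q → U.Ok n K J a₀ w₀ z M Q R C₁ q →
      ∃ l, 1 ≤ l ∧ l ≤ n ∧ (l = n ∨ (R l ∧ gr gam n l)) ∧ ∃ i ≤ M, ∃ j ≤ M,
        NewLabT D U J a₀ w₀ z Q R i j l A K' η' q

/-- **P5**, all cells with the slopes `0, 1, 2` and the slope `2` of the target: the group and the
constant coordinates are in `R`. -/
def P5Stmt : Prop :=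
  ∀ (n B : ℕ) (h₀ : ℝ), 1 ≤ n → 1 ≤ B → 0 < h₀ → ∃ δ : ℝ, 0 < δ ∧
    ∀ (K A : ℕ) (gam : ℕ → ℝ) (R : ℕ → Prop) (C₁ h : ℝ), h₀ ≤ h → h ≤ 1 → Gam3 n gam →
    (∀ l, gr gam n l → l < n → R l) → (∀ l, sl0 gam n l → R l) → 1 ≤ C₁ →
    P5T n K A B gam R C₁ h δ

end Pool.P5
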